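import Mathlib

/-!
# Complete intersections in products of projective spaces: definitions

The homogeneous coordinates of the factors of a product of `k` projective spaces are indexed by a
finite type `V`, and `g v` is the factor to which the coordinate `v` belongs.  A point of the
product is given by a vector `z : V → ℂ` with a nonzero coordinate in every factor (`Rel g z`),
up to scaling the coordinates of each factor.
-/

open MvPolynomial

namespace Pool.Agent.Helper558_CP

variable {V : Type} [Fintype V] {k : ℕ} {ι : Type}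

/-- The multidegree of an exponent vector: for every factor, the sum of the exponents of its
coordinates. -/
def mdeg (g : V → Fin k) (d : V →₀ ℕ) (i : Fin k) : ℕ := ∑ v, if g v = i then d v else 0

/-- `f` is multihomogeneous of multidegree `δ`. -/
def MH (g : V → Fin k) (f : MvPolynomial V ℂ) (δ : Fin k → ℕ) : Prop :=
  ∀ d, coeff d f ≠ 0 → mdeg g d = δ

/-- In every factor some coordinate is different from zero. -/
def Rel (g : V → Fin k) (z : V → ℂ) : Prop := ∀ i, ∃ v, g v = i ∧ z v ≠ 0

/-- Zariski closed subsets of the product of projective spaces, as sets of coordinate vectors: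
the common zeros of sets of multihomogeneous polynomials. -/
def IsClosedSet (g : V → Fin k) (A : Set (V → ℂ)) : Prop :=
  ∃ T : Set (MvPolynomial V ℂ), (∀ f ∈ T, ∃ δ, MH g f δ) ∧
    A = {z | Rel g z ∧ ∀ f ∈ T, eval z f = 0}

/-- Irreducible closed subsets. -/
def IsIrred (g : V → Fin k) (Z : Set (V → ℂ)) : Prop :=
  IsClosedSet g Z ∧ Z.Nonempty ∧
    ∀ A B, IsClosedSet g A → IsClosedSet g B → Z ⊆ A ∪ B → Z ⊆ A ∨ Z ⊆ B

/-- The subset of the product of projective spaces defined by the polynomials `F j`. -/
def zeros (g : V → Fin k) (F : ι → MvPolynomial V ℂ) : Set (V → ℂ) :=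
  {z | Rel g z ∧ ∀ j, eval z (F j) = 0}

/-- The gradients of the equations are linearly independent at every point: the equations define
a smooth complete intersection. -/
def SmoothCI (g : V → Fin k) (F : ι → MvPolynomial V ℂ) : Prop :=
  ∀ z ∈ zeros g F, LinearIndependent ℂ (fun j => fun v => eval z (pderiv v (F j)))

/-- The tangent space at `z` of the cone of coordinate vectors; the tangent space of the
complete intersection itself is the quotient by the vectors `fun v => c (g v) * z v`. -/
def tangent (F : ι → MvPolynomial V ℂ) (z : V → ℂ) : Set (V → ℂ) :=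
  {w | ∀ j, ∑ v, eval z (pderiv v (F j)) * w v = 0}

/-- `Φ` is a section over `Z` of the `m`-th symmetric power of the cotangent bundle of the complete
intersection defined by `F`, written as a function of the coordinate vector `z` and the tangent
vector `w`. -/
structure IsSymForm (g : V → Fin k) (F : ι → MvPolynomial V ℂ) (Z : Set (V → ℂ)) (m : ℕ)
    (Φ : (V → ℂ) → (V → ℂ) → ℂ) : Prop where
  regular : ∀ z0 ∈ Z, ∃ (P : MvPolynomial (V ⊕ V) ℂ) (Q : MvPolynomial V ℂ), eval z0 Q ≠ 0 ∧
    ∀ z ∈ Z, eval z Q ≠ 0 → ∀ w ∈ tangent F z, Φ z w * eval z Q = eval (Sum.elim z w) P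
  homogeneous : ∀ z ∈ Z, ∀ w ∈ tangent F z, ∀ c : ℂ, Φ z (fun v => c * w v) = c ^ m * Φ z w
  euler : ∀ z ∈ Z, ∀ w ∈ tangent F z, ∀ c : Fin k → ℂ, Φ z (fun v => w v + c (g v) * z v) = Φ z w
  scaling : ∀ z ∈ Z, ∀ w ∈ tangent F z, ∀ c : Fin k → ℂ, (∀ i, c i ≠ 0) →
    Φ (fun v => c (g v) * z v) (fun v => c (g v) * w v) = Φ z w

/-- The tangent bundle is nef, in the form: on every irreducible closed subset `Z`, a section of
a symmetric power of the cotangent bundle which has a zero is zero. -/
def NefTangent (g : V → Fin k) (F : ι → MvPolynomial V ℂ) : Prop :=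
  ∀ Z, IsIrred g Z → Z ⊆ zeros g F → ∀ m Φ, 1 ≤ m → IsSymForm g F Z m Φ →
    (∃ z0 ∈ Z, ∀ w ∈ tangent F z0, Φ z0 w = 0) → ∀ z ∈ Z, ∀ w ∈ tangent F z, Φ z w = 0

/-- `C` is isomorphic to an affine space: there are a polynomial map `φ` from the affine space
with coordinates indexed by a finite type `ν` to `C` and multihomogeneous fractions `P t / Q t`
of degree zero without poles on `C` which are inverse to each other. -/
def IsAffineCell (g : V → Fin k) (C : Set (V → ℂ)) : Prop :=
  ∃ (ν : Type) (_ : Fintype ν) (φ : V → MvPolynomial ν ℂ) (P Q : ν → MvPolynomial V ℂ),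
    (∀ t, ∃ δ, MH g (P t) δ ∧ MH g (Q t) δ) ∧
    (∀ z ∈ C, ∀ t, eval z (Q t) ≠ 0) ∧
    (∀ u : ν → ℂ, (fun v => eval u (φ v)) ∈ C ∧
      ∀ t, eval (fun v => eval u (φ v)) (P t) = u t * eval (fun v => eval u (φ v)) (Q t)) ∧
    ∀ z ∈ C, ∃ c : Fin k → ℂ, (∀ i, c i ≠ 0) ∧
      ∀ v, z v = c (g v) * eval (fun t => eval z (P t) / eval z (Q t)) (φ v)

/-- `X` has a cellular decomposition: there is a finite chain of closed subsets from `X` to the
empty set whose successive differences are isomorphic to affine spaces or empty. -/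
def HasCellularDecomposition (g : V → Fin k) (X : Set (V → ℂ)) : Prop :=
  ∃ (m : ℕ) (Y : ℕ → Set (V → ℂ)), (∀ t, IsClosedSet g (Y t)) ∧ Y 0 = X ∧ Y m = ∅ ∧
    ∀ t < m, Y (t + 1) ⊆ Y t ∧ (Y t \ Y (t + 1) = ∅ ∨ IsAffineCell g (Y t \ Y (t + 1)))

end Pool.Agent.Helper558_CP
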