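import Mathlib
import Pool.Agent.Helper558_CP.Defs

/-!
# Common zeros of multihomogeneous polynomials

The variables are divided into `k` groups by a map `g : V → Fin k`.  Multihomogeneous
polynomials `G t` of multidegrees `δ t` have a common zero whose coordinates in every group are
not all zero if their number is at most the sum of the dimensions `card (group i) - 1`
over the groups `i` with `δ t i ≠ 0`, for every `t`.
-/

open MvPolynomial

namespace Pool.Agent.Helper558_CP

variable {V : Type} [Fintype V] {k : ℕ}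

/-- The multidegree of a variable, in the lexicographically ordered monoid. -/
def wt (g : V → Fin k) (v : V) : Lex (Fin k → ℕ) := toLex (Pi.single (g v) 1)

theorem weight_eq (g : V → Fin k) (d : V →₀ ℕ) :
    Finsupp.weight (wt g) d = toLex (mdeg g d) := by
  rw [Finsupp.weight_apply, Finsupp.sum_fintype _ _ (fun v => by simp)]
  apply ofLex.injective
  funext i
  have h1 : ofLex (∑ v, d v • wt g v) i = ∑ v, (d v • (Pi.single (g v) 1 : Fin k → ℕ)) i := by
    have : ofLex (∑ v, d v • wt g v) = ∑ v, d v • (Pi.single (g v) 1 : Fin k → ℕ) := rfl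
    rw [this, Finset.sum_apply]
  rw [h1]
  simp only [ofLex_toLex, mdeg]
  refine Finset.sum_congr rfl fun v _ => ?_
  by_cases h : g v = i
  · subst h; simp
  · simp [h, Ne.symm h]

theorem MH.iff (g : V → Fin k) (f : MvPolynomial V ℂ) (δ : Fin k → ℕ) :
    MH g f δ ↔ IsWeightedHomogeneous (wt g) f (toLex δ) := by
  constructor
  · intro h d hd
    rw [weight_eq, h d hd]
  · intro h d hd
    have := h hd
    rw [weight_eq] at this
    exact toLex.injective this

theorem prod_group (g : V → Fin k) (c : Fin k → ℂ) (d : V →₀ ℕ) :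
    ∏ v, c (g v) ^ d v = ∏ i, c i ^ mdeg g d i := by
  have h1 : ∀ v, c (g v) ^ d v = ∏ i, (if g v = i then c i ^ d v else 1) := by
    intro v
    rw [Finset.prod_ite_eq]
    simp
  simp_rw [h1]
  rw [Finset.prod_comm]
  refine Finset.prod_congr rfl fun i _ => ?_
  rw [mdeg, ← Finset.prod_pow_eq_pow_sum]
  refine Finset.prod_congr rfl fun v _ => ?_
  split_ifs <;> simp

theorem MH.eval_scale {g : V → Fin k} {f : MvPolynomial V ℂ} {δ : Fin k → ℕ} (h : MH g f δ)
    (c : Fin k → ℂ) (z : V → ℂ) :
    eval (fun v => c (g v) * z v) f = (∏ i, c i ^ δ i) * eval z f := by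
  rw [eval_eq', eval_eq', Finset.mul_sum]
  refine Finset.sum_congr rfl fun d hd => ?_
  rw [← h d (mem_support_iff.mp hd), ← prod_group]
  simp_rw [mul_pow]
  rw [Finset.prod_mul_distrib]
  ring

/-- Restriction of polynomials to the orbit of `z` under scaling of the groups. -/
noncomputable def orb (g : V → Fin k) (z : V → ℂ) : MvPolynomial V ℂ →ₐ[ℂ] MvPolynomial (Fin k) ℂ :=
  aeval (fun v => C (z v) * X (g v))

theorem eval_orb (g : V → Fin k) (z : V → ℂ) (c : Fin k → ℂ) (f : MvPolynomial V ℂ) :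
    eval c (orb g z f) = eval (fun v => c (g v) * z v) f := by
  have : (aeval c : MvPolynomial (Fin k) ℂ →ₐ[ℂ] ℂ).comp (orb g z) =
      aeval (fun v => c (g v) * z v) := by
    apply algHom_ext
    intro v
    simp [orb, mul_comm]
  have h2 := AlgHom.congr_fun this f
  simpa [aeval_eq_eval] using h2

theorem MH.orb_eq_zero {g : V → Fin k} {f : MvPolynomial V ℂ} {δ : Fin k → ℕ} (h : MH g f δ)
    {z : V → ℂ} (hz : eval z f = 0) : orb g z f = 0 := by
  apply MvPolynomial.funext
  intro c
  rw [eval_orb, h.eval_scale, hz]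
  simp

section Hom

attribute [local instance] MvPolynomial.weightedGradedAlgebra
attribute [-instance] instDecidableEqLex

theorem minimalPrime_homogeneous (g : V → Fin k) {J 𝔮 : Ideal (MvPolynomial V ℂ)}
    (hJ : J.IsHomogeneous (weightedHomogeneousSubmodule ℂ (wt g))) (h𝔮 : 𝔮 ∈ J.minimalPrimes) :
    𝔮.IsHomogeneous (weightedHomogeneousSubmodule ℂ (wt g)) := by
  have hp : 𝔮.IsPrime := h𝔮.1.1
  have hc := Ideal.IsPrime.homogeneousCore (𝒜 := weightedHomogeneousSubmodule ℂ (wt g)) hp
  have h1 : J ≤ (Ideal.homogeneousCore (weightedHomogeneousSubmodule ℂ (wt g)) 𝔮).toIdeal := by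
    rw [← hJ.toIdeal_homogeneousCore_eq_self]
    exact Ideal.homogeneousCore_mono _ h𝔮.1.2
  have h2 := h𝔮.2 ⟨hc, h1⟩ (Ideal.toIdeal_homogeneousCore_le _ _)
  have h3 : (Ideal.homogeneousCore (weightedHomogeneousSubmodule ℂ (wt g)) 𝔮).toIdeal = 𝔮 :=
    le_antisymm (Ideal.toIdeal_homogeneousCore_le _ _) h2
  exact (Ideal.IsHomogeneous.iff_eq _ _).2 h3

theorem span_homogeneous (g : V → Fin k) (T : Set (MvPolynomial V ℂ))
    (hT : ∀ f ∈ T, ∃ δ, MH g f δ) :
    (Ideal.span T).IsHomogeneous (weightedHomogeneousSubmodule ℂ (wt g)) := by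
  apply Ideal.homogeneous_span
  intro f hf
  obtain ⟨δ, hδ⟩ := hT f hf
  exact ⟨toLex δ, (MH.iff g f δ).1 hδ⟩

theorem comp_mem (g : V → Fin k) {𝔮 : Ideal (MvPolynomial V ℂ)}
    (h : 𝔮.IsHomogeneous (weightedHomogeneousSubmodule ℂ (wt g))) {f : MvPolynomial V ℂ}
    (hf : f ∈ 𝔮) (μ : Lex (Fin k → ℕ)) : weightedHomogeneousComponent (wt g) μ f ∈ 𝔮 :=
  weightedHomogeneousComponent_mem_of_mem ℂ (wt g) h hf μ

end Hom

/-- Multihomogeneous polynomials: sums over a group of the exponents of a monomial. -/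
theorem mdeg_add (g : V → Fin k) (d e : V →₀ ℕ) : mdeg g (d + e) = mdeg g d + mdeg g e := by
  funext i
  simp only [mdeg, Pi.add_apply, ← Finset.sum_add_distrib, Finsupp.add_apply]
  refine Finset.sum_congr rfl fun v _ => ?_
  split_ifs <;> simp

theorem mdeg_single [DecidableEq V] (g : V → Fin k) (v : V) (n : ℕ) :
    mdeg g (Finsupp.single v n) = Pi.single (g v) n := by
  funext i
  simp only [mdeg, Finsupp.single_apply]
  by_cases h : g v = i
  · subst h
    rw [Finset.sum_eq_single v]
    · simp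
    · intro b _ hb
      simp [Ne.symm hb]
    · simp
  · rw [Pi.single_eq_of_ne (Ne.symm h)]
    apply Finset.sum_eq_zero
    intro b _
    by_cases hb : v = b
    · subst hb; simp [h]
    · simp [hb]

theorem MH.mul {g : V → Fin k} {f f' : MvPolynomial V ℂ} {δ δ' : Fin k → ℕ} (h : MH g f δ)
    (h' : MH g f' δ') : MH g (f * f') (δ + δ') := by
  rw [MH.iff] at *
  exact h.mul h'

theorem MH.X [DecidableEq V] (g : V → Fin k) (v : V) : MH g (X v : MvPolynomial V ℂ) (Pi.single (g v) 1) := by
  rw [MH.iff]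
  exact isWeightedHomogeneous_X _ _ _

theorem MH.C (g : V → Fin k) (c : ℂ) : MH g (C c : MvPolynomial V ℂ) 0 := by
  rw [MH.iff]
  exact isWeightedHomogeneous_C _ _

theorem MH.monomial (g : V → Fin k) (d : V →₀ ℕ) (c : ℂ) :
    MH g (MvPolynomial.monomial d c) (mdeg g d) := by
  classical
  intro e he
  rw [coeff_monomial] at he
  split_ifs at he with h
  · rw [h]
  · exact absurd rfl he

/-- The set of exponent vectors of a given multidegree. -/
theorem finite_mdeg (g : V → Fin k) (μ : Fin k → ℕ) : {d : V →₀ ℕ | mdeg g d = μ}.Finite := by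
  have : {d : V →₀ ℕ | mdeg g d = μ} ⊆ {d : V →₀ ℕ | ∀ v, d v ≤ μ (g v)} := by
    intro d hd v
    rw [← (hd : mdeg g d = μ), mdeg]
    calc d v = (if g v = g v then d v else 0) := by simp
      _ ≤ _ := Finset.single_le_sum (f := fun w => if g w = g v then d w else 0)
        (fun _ _ => Nat.zero_le _) (Finset.mem_univ v)
  refine Set.Finite.subset ?_ this
  classical
  have h2 : {d : V →₀ ℕ | ∀ v, d v ≤ μ (g v)} ⊆
      Set.Icc 0 (Finsupp.equivFunOnFinite.symm (fun v => μ (g v))) := by
    intro d hd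
    exact ⟨bot_le, fun v => hd v⟩
  exact (Set.finite_Icc _ _).subset h2

/-- A monomial of large multidegree is divisible by high powers of variables, one in each
group. -/
theorem exists_large (g : V → Fin k) (M : ℕ) (d : V →₀ ℕ)
    (hd : ∀ i, M * Fintype.card V ≤ mdeg g d i) (hg : ∀ i, ∃ v, g v = i) :
    ∃ a : Fin k → V, (∀ i, g (a i) = i) ∧ ∀ i, M ≤ d (a i) := by
  classical
  have : ∀ i, ∃ v, g v = i ∧ M ≤ d v := by
    intro i
    by_contra hcon
    push Not at hcon
    obtain ⟨v0, hv0⟩ := hg i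
    have h1 : mdeg g d i < M * Fintype.card V := by
      have hM : 0 < M := lt_of_le_of_lt (Nat.zero_le _) (hcon v0 hv0)
      calc mdeg g d i = ∑ v, (if g v = i then d v else 0) := rfl
        _ < ∑ v : V, M := by
          apply Finset.sum_lt_sum_of_nonempty ⟨v0, Finset.mem_univ _⟩
          intro v _
          split_ifs with h
          · exact hcon v h
          · exact hM
        _ = M * Fintype.card V := by simp [mul_comm]
    exact absurd (hd i) (not_le.2 h1)
  choose a ha using this
  exact ⟨a, fun i => (ha i).1, fun i => (ha i).2⟩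

end Pool.Agent.Helper558_CP
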