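import Mathlib
import Pool.Agent.Helper558_CP.Bezout

/-!
# Existence of common zeros of multihomogeneous polynomials
-/

open MvPolynomial

namespace Pool.Agent.Helper558_CP

variable {V : Type} [Fintype V] {k : ℕ}

/-- Components of a product with a homogeneous factor. -/
theorem comp_mul (g : V → Fin k) {G h : MvPolynomial V ℂ} {δ ν : Fin k → ℕ} (hG : MH g G δ) :
    weightedHomogeneousComponent (wt g) (toLex (δ + ν)) (G * h) =
      G * weightedHomogeneousComponent (wt g) (toLex ν) h := by
  classical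
  ext d
  rw [coeff_weightedHomogeneousComponent, coeff_mul, coeff_mul]
  have key : ∀ x ∈ Finset.HasAntidiagonal.antidiagonal d,
      (if Finsupp.weight (wt g) d = toLex (δ + ν) then coeff x.1 G * coeff x.2 h else 0) =
      coeff x.1 G * coeff x.2 (weightedHomogeneousComponent (wt g) (toLex ν) h) := by
    intro x hx
    rw [coeff_weightedHomogeneousComponent]
    by_cases h0 : coeff x.1 G = 0
    · simp [h0]
    · have h1 := hG x.1 h0
      have h2 : x.1 + x.2 = d := Finset.HasAntidiagonal.mem_antidiagonal.1 hx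
      have h3 : (Finsupp.weight (wt g) d = toLex (δ + ν)) ↔
          (Finsupp.weight (wt g) x.2 = toLex ν) := by
        rw [weight_eq, weight_eq, ← h2, mdeg_add, h1]
        constructor
        · intro h4
          have := toLex.injective h4
          rw [add_left_cancel this]
        · intro h4
          have := toLex.injective h4
          rw [this]
      simp only [h3]
      split_ifs <;> simp
  rw [← Finset.sum_congr rfl key]
  split_ifs <;> simp

/-- The component of a homogeneous polynomial. -/
theorem comp_self (g : V → Fin k) {G : MvPolynomial V ℂ} {δ : Fin k → ℕ} (hG : MH g G δ) :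
    weightedHomogeneousComponent (wt g) (toLex δ) G = G := by
  classical
  ext d
  rw [coeff_weightedHomogeneousComponent]
  split_ifs with h
  · rfl
  · by_contra h0
    apply h
    rw [weight_eq, hG d (fun h => h0 h.symm)]

/-- If a polynomial has no relevant zero on the zero set of `𝔮`, all polynomials of large
multidegree are in the ideal generated by `𝔮` and the polynomial. -/
theorem large_mem (g : V → Fin k) (hg : ∀ i, ∃ v, g v = i) (𝔮 : Ideal (MvPolynomial V ℂ))
    (G : MvPolynomial V ℂ)
    (hno : ∀ z : V → ℂ, Rel g z → (∀ f ∈ 𝔮, eval z f = 0) → eval z G ≠ 0) :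
    ∃ D : ℕ, ∀ d : V →₀ ℕ, (∀ i, D ≤ mdeg g d i) →
      MvPolynomial.monomial d (1 : ℂ) ∈ 𝔮 ⊔ Ideal.span {G} := by
  classical
  have h1 : ∀ a : {a : Fin k → V // ∀ i, g (a i) = i},
      ∃ M : ℕ, (∏ i, X (a.1 i) : MvPolynomial V ℂ) ^ M ∈ 𝔮 ⊔ Ideal.span {G} := by
    rintro ⟨a, ha⟩
    have : (∏ i, X (a i) : MvPolynomial V ℂ) ∈ (𝔮 ⊔ Ideal.span {G}).radical := by
      rw [← vanishingIdeal_zeroLocus_eq_radical (K := ℂ), mem_vanishingIdeal_iff]
      intro z hz
      by_contra hne
      rw [mem_zeroLocus_iff] at hz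
      have hrel : Rel g z := by
        intro i
        refine ⟨a i, ha i, ?_⟩
        intro h0
        apply hne
        rw [map_prod]
        apply Finset.prod_eq_zero (Finset.mem_univ i)
        simpa using h0
      have h2 : ∀ f ∈ 𝔮, eval z f = 0 := by
        intro f hf
        have := hz f (Ideal.mem_sup_left hf)
        simpa [aeval_eq_eval] using this
      have h3 : eval z G = 0 := by
        have := hz G (Ideal.mem_sup_right (Ideal.mem_span_singleton_self G))
        simpa [aeval_eq_eval] using this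
      exact hno z hrel h2 h3
    exact this
  choose M hM using h1
  obtain ⟨N, hN⟩ : ∃ N, ∀ a, M a ≤ N := ⟨Finset.univ.sup M, fun a => Finset.le_sup (Finset.mem_univ a)⟩
  refine ⟨N * Fintype.card V, fun d hd => ?_⟩
  obtain ⟨a, ha, ha2⟩ := exists_large g N d hd hg
  have h4 : (∏ i, X (a i) : MvPolynomial V ℂ) ^ N ∈ 𝔮 ⊔ Ideal.span {G} :=
    Ideal.pow_mem_of_pow_mem _ (hM ⟨a, ha⟩) (hN _)
  have h5 : (∏ i, X (a i) : MvPolynomial V ℂ) ^ N ∣ MvPolynomial.monomial d (1 : ℂ) := by
    have h6 : (∏ i, X (a i) : MvPolynomial V ℂ) ^ N =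
        MvPolynomial.monomial (∑ i, Finsupp.single (a i) N) 1 := by
      rw [← Finset.prod_pow]
      simp_rw [X_pow_eq_monomial]
      rw [← monomial_sum_one]
    rw [h6, monomial_dvd_monomial]
    refine ⟨Or.inr ?_, dvd_rfl⟩
    intro v
    rw [Finsupp.finsetSum_apply]
    by_cases hv : ∃ i, a i = v
    · obtain ⟨i, hi⟩ := hv
      rw [Finset.sum_eq_single i]
      · subst hi; simpa using ha2 i
      · intro j _ hj
        rw [Finsupp.single_apply, if_neg]
        intro hji
        apply hj
        rw [← ha j, hji, ← hi, ha i]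
      · simp
    · rw [Finset.sum_eq_zero]
      · exact Nat.zero_le _
      · intro j _
        rw [Finsupp.single_apply, if_neg]
        exact fun h => hv ⟨j, h⟩
  obtain ⟨q, hq⟩ := h5
  rw [hq]
  exact Ideal.mul_mem_right _ _ h4

/-- An element of a domain over the complex numbers which is integral is a scalar. -/
theorem scalar_of_integral {K : Type*} [Field K] [Algebra ℂ K] {u : K} (hu : IsIntegral ℂ u) :
    ∃ c : ℂ, algebraMap ℂ K c = u := by
  have h1 := IsAlgClosed.degree_eq_one_of_irreducible ℂ (minpoly.irreducible hu)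
  have h2 := minpoly.mem_range_of_degree_eq_one ℂ u h1
  obtain ⟨c, hc⟩ := h2
  exact ⟨c, hc⟩

/-- If a multihomogeneous polynomial `G` has no relevant zero on the zero set of the homogeneous
prime `𝔮`, all multihomogeneous polynomials of the same multidegree are multiples of `G` by
scalars modulo `𝔮`. -/
theorem scalar_mod (g : V → Fin k) (hg : ∀ i, ∃ v, g v = i) (𝔮 : Ideal (MvPolynomial V ℂ))
    [h𝔮 : 𝔮.IsPrime]
    (hcomp : ∀ f ∈ 𝔮, ∀ μ : Lex (Fin k → ℕ), weightedHomogeneousComponent (wt g) μ f ∈ 𝔮)
    (G : MvPolynomial V ℂ) (δ : Fin k → ℕ) (hG : MH g G δ)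
    (b : Fin k → V) (hb : ∀ i, g (b i) = i) (hbq : ∀ i, (X (b i) : MvPolynomial V ℂ) ∉ 𝔮)
    (hGq : G ∉ 𝔮)
    (hno : ∀ z : V → ℂ, Rel g z → (∀ f ∈ 𝔮, eval z f = 0) → eval z G ≠ 0)
    (m : MvPolynomial V ℂ) (hm : MH g m δ) : ∃ c : ℂ, m - C c * G ∈ 𝔮 := by
  classical
  obtain ⟨D, hD⟩ := large_mem g hg 𝔮 G hno
  let K := FractionRing (MvPolynomial V ℂ ⧸ 𝔮)
  let π : MvPolynomial V ℂ →ₐ[ℂ] K :=
    (IsScalarTower.toAlgHom ℂ (MvPolynomial V ℂ ⧸ 𝔮) K).comp (Ideal.Quotient.mkₐ ℂ 𝔮)
  have hπ : ∀ f, π f = 0 ↔ f ∈ 𝔮 := by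
    intro f
    have h1 : π f = algebraMap (MvPolynomial V ℂ ⧸ 𝔮) K (Ideal.Quotient.mk 𝔮 f) := rfl
    rw [h1, IsFractionRing.to_map_eq_zero_iff, Ideal.Quotient.eq_zero_iff_mem]
  let μ : Fin k → ℕ := fun _ => D
  let A : Submodule ℂ K := Submodule.span ℂ
    ((fun d => π (MvPolynomial.monomial d 1)) '' {d : V →₀ ℕ | mdeg g d = μ})
  have hA : ∀ f, MH g f μ → π f ∈ A := by
    intro f hf
    rw [f.as_sum, map_sum]
    refine Submodule.sum_mem _ fun d hd => ?_
    have h1 : MvPolynomial.monomial d (coeff d f) = (coeff d f) • MvPolynomial.monomial d (1 : ℂ) := by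
      rw [smul_monomial, smul_eq_mul, mul_one]
    rw [h1, map_smul]
    apply Submodule.smul_mem
    apply Submodule.subset_span
    exact ⟨d, hf d (mem_support_iff.mp hd), rfl⟩
  have hfg : A.FG := Submodule.fg_span ((finite_mdeg g μ).image _)
  have hne : A ≠ ⊥ := by
    intro h0
    have h1 : π (∏ i, X (b i) ^ D) ∈ A := by
      apply hA
      have h2 : (∏ i, X (b i) ^ D : MvPolynomial V ℂ) =
          MvPolynomial.monomial (∑ i, Finsupp.single (b i) D) 1 := by
        simp_rw [X_pow_eq_monomial]
        rw [← monomial_sum_one]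
      rw [h2]
      have h3 := MH.monomial g (∑ i, Finsupp.single (b i) D) 1
      have h4 : mdeg g (∑ i, Finsupp.single (b i) D) = μ := by
        have : ∀ s : Finset (Fin k), mdeg g (∑ i ∈ s, Finsupp.single (b i) D) =
            ∑ i ∈ s, Pi.single i D := by
          intro s
          induction s using Finset.induction_on with
          | empty => funext i; simp [mdeg]
          | insert a s ha ih =>
            rw [Finset.sum_insert ha, Finset.sum_insert ha, mdeg_add, ih, mdeg_single, hb]
        rw [this]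
        funext i
        rw [Finset.sum_apply]
        simp [μ, Pi.single_apply]
      rw [h4] at h3
      exact h3
    rw [h0, Submodule.mem_bot, hπ] at h1
    have h2 := h𝔮.prod_mem_iff.1 h1
    obtain ⟨i, _, hi⟩ := h2
    exact hbq i (h𝔮.mem_of_pow_mem _ hi)
  have hG0 : π G ≠ 0 := by rwa [Ne, hπ]
  have hmul : ∀ n ∈ A, (π m / π G) • n ∈ A := by
    intro n hn
    induction hn using Submodule.span_induction with
    | mem x hx =>
      obtain ⟨e, he, rfl⟩ := hx
      have h1 : m * MvPolynomial.monomial e 1 ∈ 𝔮 ⊔ Ideal.span {G} := by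
        rw [m.as_sum, Finset.sum_mul]
        refine Submodule.sum_mem _ fun d hd => ?_
        have h2 : MvPolynomial.monomial d (coeff d m) * MvPolynomial.monomial e 1 =
            C (coeff d m) * MvPolynomial.monomial (d + e) (1 : ℂ) := by
          rw [monomial_mul, C_mul_monomial]
        rw [h2]
        apply Ideal.mul_mem_left
        apply hD
        intro i
        rw [mdeg_add, (he : mdeg g e = μ)]
        simp [μ]
      obtain ⟨q, hq, r, hr, hqr⟩ := Submodule.mem_sup.1 h1
      obtain ⟨h, rfl⟩ := Ideal.mem_span_singleton.1 hr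
      have h3 := comp_mul g (h := h) (ν := μ) hG
      have h4 : MH g (m * MvPolynomial.monomial e 1) (δ + μ) := by
        have := hm.mul (MH.monomial g e 1)
        rwa [(he : mdeg g e = μ)] at this
      have h5 := comp_self g h4
      rw [← hqr, map_add, h3] at h5
      have h6 := hcomp q hq (toLex (δ + μ))
      have h7 : π m * π (MvPolynomial.monomial e 1) =
          π G * π (weightedHomogeneousComponent (wt g) (toLex μ) h) := by
        have h8 := congrArg π h5
        rw [map_add, (hπ _).2 h6, zero_add, hqr, map_mul, map_mul] at h8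
        exact h8.symm
      have h9 : (π m / π G) • π (MvPolynomial.monomial e 1) =
          π (weightedHomogeneousComponent (wt g) (toLex μ) h) := by
        rw [smul_eq_mul, div_mul_eq_mul_div, h7, mul_div_cancel_left₀ _ hG0]
      rw [h9]
      apply hA
      rw [MH.iff]
      exact weightedHomogeneousComponent_isWeightedHomogeneous _ _
    | zero => rw [smul_zero]; exact A.zero_mem
    | add x y _ _ hx hy => rw [smul_add]; exact A.add_mem hx hy
    | smul c x _ hx => rw [smul_comm]; exact A.smul_mem c hx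
  have hint : IsIntegral ℂ (π m / π G) :=
    isIntegral_of_smul_mem_submodule A hne hfg _ hmul
  obtain ⟨c, hc⟩ := scalar_of_integral hint
  refine ⟨c, ?_⟩
  rw [← hπ, map_sub, map_mul, sub_eq_zero]
  have : π (C c) = algebraMap ℂ K c := π.commutes c
  rw [this, hc]
  exact (div_mul_cancel₀ _ hG0).symm

/-- If a multihomogeneous polynomial has no relevant zero on the zero set of the homogeneous
prime `𝔮`, the coordinates of the groups in which it has positive degree are constant on this
zero set. -/
theorem linear_mem [DecidableEq V] (g : V → Fin k) (hg : ∀ i, ∃ v, g v = i)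
    (𝔮 : Ideal (MvPolynomial V ℂ)) [hp𝔮 : 𝔮.IsPrime]
    (hcomp : ∀ f ∈ 𝔮, ∀ μ : Lex (Fin k → ℕ), weightedHomogeneousComponent (wt g) μ f ∈ 𝔮)
    (G0 : MvPolynomial V ℂ) (δ0 : Fin k → ℕ) (hG0 : MH g G0 δ0)
    (b : Fin k → V) (hb : ∀ i, g (b i) = i) (hbq : ∀ i, (X (b i) : MvPolynomial V ℂ) ∉ 𝔮)
    (hGq : G0 ∉ 𝔮)
    (hno : ∀ z : V → ℂ, Rel g z → (∀ f ∈ 𝔮, eval z f = 0) → eval z G0 ≠ 0)
    (v : V) (hv : δ0 (g v) ≠ 0) : ∃ t : ℂ, (X v - C t * X (b (g v)) : MvPolynomial V ℂ) ∈ 𝔮 := by
  have hsc := scalar_mod g hg 𝔮 hcomp G0 δ0 hG0 b hb hbq hGq hno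
  let m' : MvPolynomial V ℂ := X (b (g v)) ^ (δ0 (g v) - 1) *
    ∏ j ∈ Finset.univ.erase (g v), X (b j) ^ (δ0 j)
  have hpow : ∀ i e, MH g (X (b i) ^ e : MvPolynomial V ℂ) (Pi.single i e) := by
    intro i e
    rw [X_pow_eq_monomial]
    have := MH.monomial g (Finsupp.single (b i) e) 1
    rwa [mdeg_single, hb] at this
  have hprod : ∀ S : Finset (Fin k), MH g (∏ j ∈ S, X (b j) ^ (δ0 j) : MvPolynomial V ℂ)
      (∑ j ∈ S, Pi.single j (δ0 j)) := by
    intro S
    induction S using Finset.induction_on with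
    | empty => simpa using MH.C g 1
    | insert a S ha ih2 =>
      rw [Finset.prod_insert ha, Finset.sum_insert ha]
      exact (hpow a _).mul ih2
  have hm' : MH g m' (Pi.single (g v) (δ0 (g v) - 1) +
      ∑ j ∈ Finset.univ.erase (g v), Pi.single j (δ0 j)) := (hpow _ _).mul (hprod _)
  have hdeg : ∀ w, g w = g v → MH g (X w * m') δ0 := by
    intro w hw
    have h1 := (MH.X g w).mul hm'
    rw [hw] at h1
    have h2 : (Pi.single (g v) 1 + (Pi.single (g v) (δ0 (g v) - 1) +
        ∑ j ∈ Finset.univ.erase (g v), Pi.single j (δ0 j)) : Fin k → ℕ) = δ0 := by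
      rw [← add_assoc, ← Pi.single_add]
      have h3 : 1 + (δ0 (g v) - 1) = δ0 (g v) := by omega
      rw [h3, Finset.add_sum_erase Finset.univ (fun j => (Pi.single j (δ0 j) : Fin k → ℕ))
        (Finset.mem_univ _)]
      funext i
      rw [Finset.sum_apply]
      simp [Pi.single_apply]
    rwa [h2] at h1
  obtain ⟨c0, hc0⟩ := hsc _ (hdeg (b (g v)) (hb _))
  obtain ⟨c1, hc1⟩ := hsc _ (hdeg v rfl)
  have hm'q : m' ∉ 𝔮 := by
    intro h
    rcases hp𝔮.mem_or_mem h with h | h
    · exact hbq _ (hp𝔮.mem_of_pow_mem _ h)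
    · obtain ⟨j, _, hj⟩ := hp𝔮.prod_mem_iff.1 h
      exact hbq _ (hp𝔮.mem_of_pow_mem _ hj)
  have hc0' : c0 ≠ 0 := by
    rintro rfl
    rw [map_zero, zero_mul, sub_zero] at hc0
    rcases hp𝔮.mem_or_mem hc0 with h | h
    · exact hbq _ h
    · exact hm'q h
  refine ⟨c1 / c0, ?_⟩
  have h1 : (X v - C (c1 / c0) * X (b (g v))) * m' ∈ 𝔮 := by
    have h2 : (X v - C (c1 / c0) * X (b (g v))) * m' =
        (X v * m' - C c1 * G0) - C (c1 / c0) * (X (b (g v)) * m' - C c0 * G0) := by
      have h3 : (C c1 : MvPolynomial V ℂ) = C (c1 / c0) * C c0 := by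
        rw [← C_mul, div_mul_cancel₀ _ hc0']
      rw [h3]
      ring
    rw [h2]
    exact 𝔮.sub_mem hc1 (𝔮.mul_mem_left _ hc0)
  exact (hp𝔮.mem_or_mem h1).resolve_right hm'q

/-- The substitution replacing `X v` by `t v * X (b (g v))` for `v` in `U`. -/
noncomputable def subst (g : V → Fin k) (b : Fin k → V) (t : V → ℂ) (U : Finset V) [DecidableEq V] :
    MvPolynomial V ℂ →ₐ[ℂ] MvPolynomial V ℂ :=
  aeval (fun v => if v ∈ U then C (t v) * X (b (g v)) else X v)

/-- The height of a prime containing linear forms `X v - t v * X (b (g v))`. -/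
theorem height_ge [DecidableEq V] (g : V → Fin k) (𝔮 : Ideal (MvPolynomial V ℂ)) [h𝔮 : 𝔮.IsPrime]
    (b : Fin k → V) (hb : ∀ i, g (b i) = i) (t : V → ℂ) (W : Finset V)
    (hW : ∀ v ∈ W, v ≠ b (g v))
    (hmem : ∀ v ∈ W, (X v - C (t v) * X (b (g v)) : MvPolynomial V ℂ) ∈ 𝔮) :
    (W.card : ℕ∞) ≤ 𝔮.height := by
  have hbW : ∀ v ∈ W, ∀ i, v ≠ b i := by
    intro v hv i hvi
    apply hW v hv
    rw [hvi, hb]
  have hsub : ∀ U ⊆ W, (U.card : ℕ∞) ≤ (RingHom.ker (subst g b t U)).height := by
    intro U
    induction U using Finset.induction_on with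
    | empty => intro _; simp
    | insert v U hv ih =>
      intro hU
      have hU' : U ⊆ W := fun x hx => hU (Finset.mem_insert_of_mem hx)
      have hvW : v ∈ W := hU (Finset.mem_insert_self _ _)
      have h1 := ih hU'
      rw [Finset.card_insert_of_notMem hv]
      have hp1 : (RingHom.ker (subst g b t U)).IsPrime := RingHom.ker_isPrime _
      have hp2 : (RingHom.ker (subst g b t (insert v U))).IsPrime := RingHom.ker_isPrime _
      have hlt : RingHom.ker (subst g b t U) < RingHom.ker (subst g b t (insert v U)) := by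
        refine lt_of_le_of_ne ?_ ?_
        · have hcomp : (subst g b t {v}).comp (subst g b t U) = subst g b t (insert v U) := by
            apply algHom_ext
            intro w
            simp only [subst, AlgHom.comp_apply, aeval_X, Finset.mem_insert, Finset.mem_singleton]
            by_cases hwU : w ∈ U
            · rw [if_pos hwU, if_pos (Or.inr hwU), map_mul, aeval_X, if_neg]
              · simp
              · exact fun h => hbW v hvW _ h.symm
            · rw [if_neg hwU, aeval_X]
              simp [hwU]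
          intro f hf
          rw [RingHom.mem_ker] at hf ⊢
          rw [← hcomp, AlgHom.comp_apply, hf, map_zero]
        · intro heq
          have h2 : (X v - C (t v) * X (b (g v)) : MvPolynomial V ℂ) ∈
              RingHom.ker (subst g b t (insert v U)) := by
            rw [RingHom.mem_ker, map_sub, map_mul]
            simp only [subst, aeval_X, algHom_C, algebraMap_eq]
            rw [if_pos (Finset.mem_insert_self _ _), if_neg, sub_self]
            intro hmem
            exact hbW _ (hU hmem) _ rfl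
          rw [← heq, RingHom.mem_ker, map_sub, map_mul] at h2
          simp only [subst, aeval_X, algHom_C, algebraMap_eq] at h2
          rw [if_neg hv, if_neg (fun hmem => hbW _ (hU' hmem) _ rfl)] at h2
          have h3 := congrArg (coeff (Finsupp.single v 1)) h2
          rw [coeff_sub, coeff_C_mul, coeff_X, coeff_X, if_pos rfl, if_neg] at h3
          · simp at h3
          · intro h4
            have := Finsupp.single_left_injective (one_ne_zero) h4
            exact hbW v hvW _ this.symm
      have h2 := Ideal.height_add_one_le_of_lt_of_isPrime hlt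
      calc ((U.card + 1 : ℕ) : ℕ∞) = (U.card : ℕ∞) + 1 := by push_cast; rfl
        _ ≤ (RingHom.ker (subst g b t U)).height + 1 := by gcongr
        _ ≤ _ := h2
  refine (hsub W le_rfl).trans (Ideal.height_mono ?_)
  intro f hf
  rw [RingHom.mem_ker] at hf
  have h1 : Ideal.Quotient.mk 𝔮 f = Ideal.Quotient.mk 𝔮 (subst g b t W f) := by
    have h2 : (Ideal.Quotient.mkₐ ℂ 𝔮).comp (subst g b t W) = Ideal.Quotient.mkₐ ℂ 𝔮 := by
      apply algHom_ext
      intro v
      simp only [subst, AlgHom.comp_apply, aeval_X]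
      split_ifs with hv
      · have := hmem v hv
        rw [← Ideal.Quotient.eq_zero_iff_mem, map_sub, sub_eq_zero] at this
        exact this.symm
      · rfl
    have h3 := AlgHom.congr_fun h2 f
    exact h3.symm
  rw [hf, map_zero, Ideal.Quotient.eq_zero_iff_mem] at h1
  exact h1

/-- Existence of a relevant common zero of `s` multihomogeneous polynomials, if the dimensions of
the groups in which each of them has positive degree add up to at least `s`. -/
theorem exists_zero [DecidableEq V] (g : V → Fin k) (hg : ∀ i, ∃ v, g v = i) (n : Fin k → ℕ)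
    (hn : ∀ i, n i + 1 ≤ (Finset.univ.filter fun v => g v = i).card) (N : ℕ) :
    ∀ (s : ℕ) (_ : s ≤ N) (G : Fin s → MvPolynomial V ℂ) (δ : Fin s → Fin k → ℕ)
      (_ : ∀ t, MH g (G t) (δ t))
      (_ : ∀ t, N ≤ ∑ i ∈ Finset.univ.filter (fun i => δ t i ≠ 0), n i),
      ∃ z : V → ℂ, Rel g z ∧ ∀ t, eval z (G t) = 0 := by
  intro s
  induction s with
  | zero =>
    intro _ G δ _ _
    refine ⟨fun _ => 1, fun i => ?_, fun t => t.elim0⟩
    obtain ⟨v, hv⟩ := hg i
    exact ⟨v, hv, one_ne_zero⟩
  | succ s ih =>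
    intro hs G δ hG hN
    obtain ⟨z0, hz0, hz0G⟩ := ih (by omega) (fun t => G t.castSucc) (fun t => δ t.castSucc)
      (fun t => hG _) (fun t => hN _)
    by_contra hcon
    push Not at hcon
    have hfin : (Set.range fun t : Fin s => G t.castSucc).Finite := Set.finite_range _
    have hcard : (Set.range fun t : Fin s => G t.castSucc).ncard ≤ s := by
      rw [← Set.image_univ]
      calc _ ≤ (Set.univ : Set (Fin s)).ncard := Set.ncard_image_le
        _ = s := by rw [Set.ncard_univ]; simp
    have hprime : (RingHom.ker (orb g z0)).IsPrime := RingHom.ker_isPrime _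
    have hle : Ideal.span (Set.range fun t : Fin s => G t.castSucc) ≤ RingHom.ker (orb g z0) := by
      rw [Ideal.span_le]
      rintro _ ⟨t, rfl⟩
      exact (hG t.castSucc).orb_eq_zero (hz0G t)
    obtain ⟨𝔮, h𝔮, h𝔮le⟩ := Ideal.exists_minimalPrimes_le hle
    have hp𝔮 : 𝔮.IsPrime := h𝔮.1.1
    have hhom := minimalPrime_homogeneous g (span_homogeneous g
      (Set.range fun t : Fin s => G t.castSucc) (by rintro _ ⟨t, rfl⟩; exact ⟨_, hG _⟩)) h𝔮
    have hheight := Ideal.height_le_card_of_mem_minimalPrimes_span hfin h𝔮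
    have hevz : ∀ f ∈ 𝔮, eval z0 f = 0 := by
      intro f hf
      have h1 : orb g z0 f = 0 := h𝔮le hf
      have h2 := eval_orb g z0 (fun _ => 1) f
      rw [h1, map_zero] at h2
      simpa using h2.symm
    have hno : ∀ z : V → ℂ, Rel g z → (∀ f ∈ 𝔮, eval z f = 0) → eval z (G (Fin.last s)) ≠ 0 := by
      intro z hz hzq h0
      obtain ⟨t, ht⟩ := hcon z hz
      refine Fin.lastCases (motive := fun t => eval z (G t) ≠ 0 → False) ?_ ?_ t ht
      · intro h1; exact h1 h0
      · intro t h1
        exact h1 (hzq _ (h𝔮.1.2 (Ideal.subset_span ⟨t, rfl⟩)))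
    choose b hb hbz using hz0
    have hbq : ∀ i, (X (b i) : MvPolynomial V ℂ) ∉ 𝔮 := by
      intro i hi
      have := hevz _ hi
      rw [eval_X] at this
      exact hbz i this
    have hGq : G (Fin.last s) ∉ 𝔮 := fun h =>
      hno z0 (fun i => ⟨b i, hb i, hbz i⟩) hevz (hevz _ h)
    set δ0 := δ (Fin.last s) with hδ0
    have hlin : ∀ v, δ0 (g v) ≠ 0 → ∃ t : ℂ, (X v - C t * X (b (g v)) : MvPolynomial V ℂ) ∈ 𝔮 :=
      fun v hv => linear_mem g hg 𝔮 (fun f hf μ => comp_mem g hhom hf μ) (G (Fin.last s))
        δ0 (hG _) b hb hbq hGq hno v hv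
    -- the height
    let W : Finset V := Finset.univ.filter fun v => δ0 (g v) ≠ 0 ∧ v ≠ b (g v)
    choose! t ht using hlin
    have hWh := height_ge g 𝔮 b hb t W (fun v hv => (Finset.mem_filter.1 hv).2.2)
      (fun v hv => ht v (Finset.mem_filter.1 hv).2.1)
    have hWcard : ∑ i ∈ Finset.univ.filter (fun i => δ0 i ≠ 0), n i ≤ W.card := by
      rw [Finset.card_eq_sum_card_fiberwise (f := g)
        (t := Finset.univ.filter (fun i => δ0 i ≠ 0))]
      · apply Finset.sum_le_sum
        intro i hi
        have hi' := (Finset.mem_filter.1 hi).2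
        have h1 : W.filter (fun v => g v = i) =
            (Finset.univ.filter fun v => g v = i).erase (b i) := by
          ext v
          simp only [W, Finset.mem_filter, Finset.mem_univ, true_and, Finset.mem_erase]
          constructor
          · rintro ⟨⟨_, h2⟩, h3⟩
            rw [h3] at h2
            exact ⟨h2, h3⟩
          · rintro ⟨h2, h3⟩
            rw [h3]
            exact ⟨⟨hi', h2⟩, rfl⟩
        rw [h1, Finset.card_erase_of_mem (by simp [hb])]
        have := hn i
        omega
      · intro v hv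
        have := (Finset.mem_filter.1 hv).2.1
        simp [this]
    have h1 : (W.card : ℕ∞) ≤ ((Set.range fun t : Fin s => G t.castSucc).ncard : ℕ∞) :=
      hWh.trans hheight
    have h2 : W.card ≤ (Set.range fun t : Fin s => G t.castSucc).ncard := by exact_mod_cast h1
    have h3 := hN (Fin.last s)
    rw [← hδ0] at h3
    omega

end Pool.Agent.Helper558_CP
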