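import Mathlib
import Pool.Agent.Helper558_CP.Exist

/-!
# Preliminaries on multihomogeneous polynomials: derivatives, restriction to lines
-/

open MvPolynomial

namespace Pool.Agent.Helper558_CP

/-- Fewer forms of positive degree than variables have a nonzero common zero. -/
theorem exists_nonzero {U ι : Type} [Fintype U] [Fintype ι] (H : ι → MvPolynomial U ℂ)
    (e : ι → ℕ) (hH : ∀ t, (H t).IsHomogeneous (e t)) (he : ∀ t, e t ≠ 0)
    (hcard : Fintype.card ι < Fintype.card U) : ∃ u : U → ℂ, u ≠ 0 ∧ ∀ t, eval u (H t) = 0 := by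
  classical
  let q := Fintype.equivFin ι
  have hU : Nonempty U := Fintype.card_pos_iff.1 (lt_of_le_of_lt (Nat.zero_le _) hcard)
  obtain ⟨z, hz, hz2⟩ := exists_zero (k := 1) (fun _ : U => (0 : Fin 1))
    (fun i => by obtain ⟨u⟩ := hU; exact ⟨u, (Subsingleton.elim _ _)⟩) (fun _ => Fintype.card ι)
    (by
      intro i
      have : (Finset.univ.filter fun _ : U => (0 : Fin 1) = i) = Finset.univ := by
        ext v; simp [Subsingleton.elim i 0]
      rw [this, Finset.card_univ]
      exact hcard)
    (Fintype.card ι) (Fintype.card ι) le_rfl (fun t => H (q.symm t)) (fun t _ => e (q.symm t))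
    (by
      intro t d hd
      funext i
      have h1 := (hH (q.symm t)) hd
      rw [mdeg]
      have h2 : i = 0 := Subsingleton.elim _ _
      subst h2
      simp only [if_true]
      rw [← h1, Finsupp.weight_apply, Finsupp.sum_fintype _ _ (fun v => by simp)]
      simp)
    (by
      intro t
      have : (Finset.univ.filter fun i : Fin 1 => e (q.symm t) ≠ 0) = Finset.univ := by
        ext v; simp [he]
      rw [this]
      simp)
  refine ⟨z, ?_, ?_⟩
  · intro h0
    obtain ⟨v, _, hv⟩ := hz 0
    exact hv (by rw [h0]; rfl)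
  · intro t
    have := hz2 (q t)
    simpa using this

variable {V : Type} [Fintype V] {k : ℕ}

/-- The chain rule. -/
theorem derivative_aeval [DecidableEq V] (φ : V → Polynomial ℂ) (f : MvPolynomial V ℂ) :
    Polynomial.derivative (aeval φ f) =
      ∑ w, aeval φ (pderiv w f) * Polynomial.derivative (φ w) := by
  induction f using MvPolynomial.induction_on with
  | C a =>
    simp [algHom_C]
  | add p q hp hq =>
    rw [map_add, map_add, hp, hq, ← Finset.sum_add_distrib]
    refine Finset.sum_congr rfl fun w _ => ?_
    rw [map_add, map_add, add_mul]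
  | mul_X p v hp =>
    rw [map_mul, aeval_X, Polynomial.derivative_mul, hp, Finset.sum_mul]
    have h1 : ∀ w, aeval φ (pderiv w (p * X v)) * Polynomial.derivative (φ w) =
        aeval φ (pderiv w p) * Polynomial.derivative (φ w) * φ v +
          (if w = v then aeval φ p * Polynomial.derivative (φ w) else 0) := by
      intro w
      rw [Derivation.leibniz, pderiv_X, smul_eq_mul, smul_eq_mul, map_add, map_mul, map_mul,
        aeval_X]
      by_cases h : w = v
      · subst h
        simp
        ring
      · rw [Pi.single_eq_of_ne (Ne.symm h), if_neg h]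
        simp
        ring
    simp_rw [h1]
    rw [Finset.sum_add_distrib, Finset.sum_ite_eq' ]
    simp

/-- Euler's identity in one group of variables. -/
theorem MH.euler {g : V → Fin k} {f : MvPolynomial V ℂ} {δ : Fin k → ℕ} (h : MH g f δ) (i : Fin k)
    (z : V → ℂ) : ∑ v, (if g v = i then z v * eval z (pderiv v f) else 0) = δ i * eval z f := by
  have h1 : IsWeightedHomogeneous (fun v => if g v = i then 1 else 0) f (δ i) := by
    intro d hd
    rw [← h d hd, Finsupp.weight_apply, Finsupp.sum_fintype _ _ (fun v => by simp), mdeg]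
    refine Finset.sum_congr rfl fun v _ => ?_
    split_ifs <;> simp
  have h2 := congrArg (eval z) h1.sum_weight_X_mul_pderiv
  rw [map_sum] at h2
  simp only [map_mul, eval_X, nsmul_eq_mul, map_natCast] at h2
  rw [← h2]
  refine Finset.sum_congr rfl fun v _ => ?_
  split_ifs <;> simp

/-- Multidegree of a derivative. -/
theorem MH.pderiv [DecidableEq V] {g : V → Fin k} {f : MvPolynomial V ℂ} {δ : Fin k → ℕ}
    (h : MH g f δ) (v : V) : MH g (MvPolynomial.pderiv v f) (fun i => δ i - (if g v = i then 1 else 0)) := by
  intro e he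
  rw [coeff_pderiv] at he
  have h1 := h _ (left_ne_zero_of_mul he)
  rw [mdeg_add, mdeg_single] at h1
  funext i
  rw [← h1]
  simp only [Pi.add_apply, Pi.single_apply]
  by_cases hi : g v = i
  · subst hi; simp
  · simp [hi, Ne.symm hi]

theorem eval_homog {U : Type} [Fintype U] {P : MvPolynomial U ℂ} {m : ℕ} (hP : P.IsHomogeneous m)
    (t : ℂ) (u : U → ℂ) : eval (fun w => t * u w) P = t ^ m * eval u P := by
  rw [eval_eq', eval_eq', Finset.mul_sum]
  refine Finset.sum_congr rfl fun d hd => ?_
  have h1 := hP (mem_support_iff.mp hd)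
  rw [Finsupp.weight_apply, Finsupp.sum_fintype _ _ (fun v => by simp)] at h1
  simp_rw [mul_pow]
  rw [Finset.prod_mul_distrib, Finset.prod_pow_eq_pow_sum]
  have h2 : ∑ i, d i = m := by rw [← h1]; simp
  rw [h2]
  ring

/-- Extension by zero of a vector on one group of variables. -/
def ext0 (g : V → Fin k) (i : Fin k) (u : {w // g w = i} → ℂ) (w : V) : ℂ :=
  if h : g w = i then u ⟨w, h⟩ else 0

/-- The polynomial `u ↦ f (z + u)` for `u` in one group of variables. -/
noncomputable def shiftP (g : V → Fin k) (i : Fin k) (z : V → ℂ) (f : MvPolynomial V ℂ) :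
    MvPolynomial {w // g w = i} ℂ :=
  aeval (fun w => C (z w) + if h : g w = i then X ⟨w, h⟩ else 0) f

theorem eval_shiftP (g : V → Fin k) (i : Fin k) (z : V → ℂ) (f : MvPolynomial V ℂ)
    (u : {w // g w = i} → ℂ) :
    eval u (shiftP g i z f) = eval (fun w => z w + ext0 g i u w) f := by
  have : (aeval u : MvPolynomial {w // g w = i} ℂ →ₐ[ℂ] ℂ).comp
      (aeval (fun w => C (z w) + if h : g w = i then X ⟨w, h⟩ else 0)) =
      aeval (fun w => z w + ext0 g i u w) := by
    apply algHom_ext
    intro v
    simp only [AlgHom.comp_apply, aeval_X, map_add, ext0]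
    split_ifs <;> simp [algHom_C]
  have h2 := AlgHom.congr_fun this f
  simpa [aeval_eq_eval, shiftP] using h2

theorem totalDegree_shiftP {g : V → Fin k} {f : MvPolynomial V ℂ} {δ : Fin k → ℕ} (h : MH g f δ)
    (i : Fin k) (z : V → ℂ) : (shiftP g i z f).totalDegree ≤ δ i := by
  classical
  rw [shiftP, aeval_def, eval₂_eq']
  apply totalDegree_finsetSum_le
  intro d hd
  have h1 := h d (mem_support_iff.mp hd)
  rw [← h1, algebraMap_eq]
  refine (totalDegree_mul _ _).trans ?_
  rw [totalDegree_C, zero_add]
  refine (totalDegree_finsetProd _ _).trans ?_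
  rw [mdeg]
  apply Finset.sum_le_sum
  intro w _
  refine (totalDegree_pow _ _).trans ?_
  split_ifs with hw
  · have : (C (z w) + X (⟨w, hw⟩ : {w // g w = i}) : MvPolynomial {w // g w = i} ℂ).totalDegree ≤ 1 := by
      refine (totalDegree_add _ _).trans ?_
      rw [totalDegree_C, totalDegree_X]
      simp
    calc _ ≤ d w * 1 := Nat.mul_le_mul_left _ this
      _ = d w := mul_one _
  · rw [add_zero, totalDegree_C, mul_zero]

theorem eval_line {g : V → Fin k} {f : MvPolynomial V ℂ} {δ : Fin k → ℕ} (h : MH g f δ)
    (i : Fin k) (z : V → ℂ) (u : {w // g w = i} → ℂ) (t : ℂ) :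
    eval (fun w => z w + t * ext0 g i u w) f =
      ∑ m ∈ Finset.range (δ i + 1), t ^ m * eval u (homogeneousComponent m (shiftP g i z f)) := by
  have h1 : (fun w => z w + t * ext0 g i u w) =
      fun w => z w + ext0 g i (fun v => t * u v) w := by
    funext w
    simp only [ext0]
    split_ifs <;> simp
  rw [h1, ← eval_shiftP]
  have h2 : shiftP g i z f =
      ∑ m ∈ Finset.range (δ i + 1), homogeneousComponent m (shiftP g i z f) := by
    conv_lhs => rw [← sum_homogeneousComponent (shiftP g i z f)]
    apply Finset.sum_subset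
    · intro m hm
      rw [Finset.mem_range] at hm ⊢
      have := totalDegree_shiftP h i z
      omega
    · intro m _ hm
      rw [Finset.mem_range, not_lt] at hm
      exact homogeneousComponent_eq_zero _ _ (by omega)
  conv_lhs => rw [h2]
  rw [map_sum]
  refine Finset.sum_congr rfl fun m _ => ?_
  exact eval_homog (homogeneousComponent_isHomogeneous _ _) _ _

theorem eval_linear {g : V → Fin k} {f : MvPolynomial V ℂ} {δ : Fin k → ℕ} (h : MH g f δ)
    (i : Fin k) (hi : δ i ≠ 0) (z : V → ℂ) (u : {w // g w = i} → ℂ) :
    eval u (homogeneousComponent 1 (shiftP g i z f)) =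
      ∑ w, eval z (pderiv w f) * ext0 g i u w := by
  classical
  let φ : V → Polynomial ℂ := fun w => Polynomial.C (z w) + Polynomial.C (ext0 g i u w) * Polynomial.X
  have hev : ∀ (t : ℂ) (p : MvPolynomial V ℂ), Polynomial.eval t (aeval φ p) =
      eval (fun w => z w + t * ext0 g i u w) p := by
    intro t p
    have : (Polynomial.aeval t : Polynomial ℂ →ₐ[ℂ] ℂ).comp (aeval φ) =
        aeval (fun w => z w + t * ext0 g i u w) := by
      apply algHom_ext
      intro v
      simp only [AlgHom.comp_apply, aeval_X, φ, Polynomial.coe_aeval_eq_eval, Polynomial.eval_add,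
        Polynomial.eval_mul, Polynomial.eval_C, Polynomial.eval_X]
      ring
    have h2 := AlgHom.congr_fun this p
    simpa [aeval_eq_eval, Polynomial.coe_aeval_eq_eval] using h2
  have h1 : aeval φ f = ∑ m ∈ Finset.range (δ i + 1),
      Polynomial.C (eval u (homogeneousComponent m (shiftP g i z f))) * Polynomial.X ^ m := by
    apply Polynomial.funext
    intro t
    rw [hev, eval_line h, Polynomial.eval_finsetSum]
    refine Finset.sum_congr rfl fun m _ => ?_
    simp only [Polynomial.eval_mul, Polynomial.eval_C, Polynomial.eval_pow, Polynomial.eval_X]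
    ring
  have h2 : Polynomial.coeff (aeval φ f) 1 = eval u (homogeneousComponent 1 (shiftP g i z f)) := by
    rw [h1, Polynomial.finsetSum_coeff, Finset.sum_eq_single 1]
    · rw [Polynomial.coeff_C_mul, Polynomial.coeff_X_pow_self, mul_one]
    · intro m _ hm
      rw [Polynomial.coeff_C_mul, Polynomial.coeff_X_pow, if_neg (Ne.symm hm), mul_zero]
    · intro hm
      exfalso
      apply hm
      rw [Finset.mem_range]
      omega
  rw [← h2]
  have h3 : Polynomial.coeff (aeval φ f) 1 = Polynomial.eval 0 (Polynomial.derivative (aeval φ f)) := by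
    rw [← Polynomial.coeff_zero_eq_eval_zero, Polynomial.coeff_derivative]
    simp
  rw [h3, derivative_aeval, Polynomial.eval_finsetSum]
  refine Finset.sum_congr rfl fun w _ => ?_
  rw [Polynomial.eval_mul, hev]
  simp [φ]

end Pool.Agent.Helper558_CP
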