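import Mathlib
import Pool.Agent.Helper558_CP.Poly

/-!
# Existence of common zeros under an assignment condition

Multihomogeneous polynomials have a relevant common zero if each of them can be assigned to a
group in which it has positive degree, such that every group gets fewer polynomials than it has
variables.
-/

open MvPolynomial

namespace Pool.Agent.Helper558_CP

variable {V : Type} [Fintype V] {k : ℕ}

/-- The linear form with coefficients `h v` for the variables of the group `i`. -/
noncomputable def linF (g : V → Fin k) (i : Fin k) (h : V → ℂ) : MvPolynomial V ℂ :=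
  ∑ v, if g v = i then C (h v) * X v else 0

theorem eval_linF (g : V → Fin k) (i : Fin k) (h z : V → ℂ) :
    eval z (linF g i h) = ∑ v, if g v = i then h v * z v else 0 := by
  rw [linF, map_sum]
  refine Finset.sum_congr rfl fun v _ => ?_
  split_ifs <;> simp

theorem MH.linF [DecidableEq V] (g : V → Fin k) (i : Fin k) (h : V → ℂ) :
    MH g (linF g i h) (Pi.single i 1) := by
  intro d hd
  rw [Helper558_CP.linF, coeff_sum] at hd
  obtain ⟨w, _, hw⟩ := Finset.exists_ne_zero_of_sum_ne_zero hd
  split_ifs at hw with hg
  · rw [coeff_C_mul, coeff_X] at hw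
    split_ifs at hw with h1
    · rw [← h1, mdeg_single, hg]
    · simp at hw
  · simp at hw

theorem exists_avoid {U : Type} [Fintype U] (S : Set (U → ℂ)) (hS : S.Finite) (hS0 : ∀ p ∈ S, p ≠ 0) :
    ∃ h : U → ℂ, ∀ p ∈ S, ∑ u, h u * p u ≠ 0 := by
  classical
  let P : MvPolynomial U ℂ := ∏ p ∈ hS.toFinset, ∑ u, C (p u) * X u
  have hP : P ≠ 0 := by
    apply Finset.prod_ne_zero_iff.2
    intro p hp h0
    apply hS0 p (hS.mem_toFinset.1 hp)
    funext u
    have h1 := congrArg (eval (Pi.single u 1)) h0
    rw [map_sum, map_zero] at h1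
    simpa [Pi.single_apply] using h1
  have h7 : ∃ x, eval x P ≠ 0 := by
    by_contra h
    push Not at h
    exact hP (MvPolynomial.funext fun x => by rw [h x, map_zero])
  obtain ⟨x, hx⟩ := h7
  refine ⟨x, fun p hp => ?_⟩
  rw [map_prod] at hx
  have := Finset.prod_ne_zero_iff.1 hx p (hS.mem_toFinset.2 hp)
  rw [map_sum] at this
  simpa [mul_comm] using this

theorem exists_zero_hall [DecidableEq V] (g : V → Fin k) {τ : Type} [Fintype τ] [DecidableEq τ]
    (G : τ → MvPolynomial V ℂ) (δ : τ → Fin k → ℕ) (hG : ∀ t, MH g (G t) (δ t)) (a : τ → Fin k)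
    (ha : ∀ t, δ t (a t) ≠ 0)
    (hcap : ∀ i, Fintype.card {t // a t = i} < Fintype.card {v // g v = i}) :
    ∃ z : V → ℂ, Rel g z ∧ ∀ t, eval z (G t) = 0 := by
  have hg : ∀ i, ∃ v, g v = i := by
    intro i
    have := lt_of_le_of_lt (Nat.zero_le _) (hcap i)
    obtain ⟨⟨v, hv⟩⟩ := Fintype.card_pos_iff.1 this
    exact ⟨v, hv⟩
  have main : ∀ S : Finset τ, ∀ H : τ → V → ℂ, ∃ z : V → ℂ, Rel g z ∧
      (∀ t ∈ S, eval z (G t) = 0) ∧ ∀ t, t ∉ S → eval z (linF g (a t) (H t)) = 0 := by
    intro S
    induction S using Finset.induction_on with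
    | empty =>
      intro H
      have h1 : ∀ i, ∃ u : {v // g v = i} → ℂ, u ≠ 0 ∧ ∀ t : {t // a t = i},
          eval u (∑ v : {v // g v = i}, C (H t.1 v.1) * X v) = 0 := by
        intro i
        apply exists_nonzero (fun t : {t // a t = i} => ∑ v : {v // g v = i}, C (H t.1 v.1) * X v)
          (fun _ => 1)
        · intro t
          apply IsHomogeneous.sum
          intro v _
          exact IsHomogeneous.C_mul (isHomogeneous_X _ _) _
        · intro t; exact one_ne_zero
        · exact hcap i
      choose u hu hu2 using h1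
      have hcast : ∀ i v (hv : g v = i), u (g v) ⟨v, rfl⟩ = u i ⟨v, hv⟩ := by
        rintro i v rfl
        rfl
      refine ⟨fun v => u (g v) ⟨v, rfl⟩, ?_, by simp, ?_⟩
      · intro i
        by_contra hcon
        push Not at hcon
        apply hu i
        funext v
        obtain ⟨v, rfl⟩ := v
        exact hcon v rfl
      · intro t _
        rw [eval_linF]
        have h3 := hu2 (a t) ⟨t, rfl⟩
        rw [map_sum] at h3
        simp only [map_mul, eval_C, eval_X] at h3
        refine Eq.trans ?_ h3
        rw [← Finset.sum_filter, ← Finset.sum_subtype_eq_sum_filter, Finset.subtype_univ]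
        refine Finset.sum_congr rfl fun v _ => ?_
        obtain ⟨v, hv⟩ := v
        rw [hcast _ v hv]
    | insert t0 S ht0 ih =>
      intro H
      by_contra hcon
      push Not at hcon
      let J0 : Ideal (MvPolynomial V ℂ) := Ideal.span
        ({f | ∃ t ∈ S, f = G t} ∪ {f | ∃ t, t ∉ insert t0 S ∧ f = linF g (a t) (H t)})
      have hhomJ := span_homogeneous g
        ({f | ∃ t ∈ S, f = G t} ∪ {f | ∃ t, t ∉ insert t0 S ∧ f = linF g (a t) (H t)}) (by
        rintro f (⟨t, _, rfl⟩ | ⟨t, _, rfl⟩)
        · exact ⟨_, hG t⟩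
        · exact ⟨_, MH.linF g _ _⟩)
      have hJz : ∀ z, (∀ f ∈ J0, eval z f = 0) → (∀ t ∈ S, eval z (G t) = 0) ∧
          ∀ t, t ∉ insert t0 S → eval z (linF g (a t) (H t)) = 0 := by
        intro z hz
        exact ⟨fun t ht => hz _ (Ideal.subset_span (Or.inl ⟨t, ht, rfl⟩)),
          fun t ht => hz _ (Ideal.subset_span (Or.inr ⟨t, ht, rfl⟩))⟩
      have key : ∀ 𝔮 ∈ J0.minimalPrimes, ∃ p : {v // g v = a t0} → ℂ, p ≠ 0 ∧
          ∀ z, Rel g z → (∀ f ∈ 𝔮, eval z f = 0) → ∃ c : ℂ, c ≠ 0 ∧ ∀ v : {v // g v = a t0},
            z v.1 = c * p v := by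
        intro 𝔮 h𝔮
        have hp𝔮 : 𝔮.IsPrime := h𝔮.1.1
        by_cases hex : ∃ z0, Rel g z0 ∧ ∀ f ∈ 𝔮, eval z0 f = 0
        · obtain ⟨z0, hz0, hz0q⟩ := hex
          have hz0' := hz0
          choose b hb hbz using hz0
          have hhom := minimalPrime_homogeneous g hhomJ h𝔮
          have hbq : ∀ i, (X (b i) : MvPolynomial V ℂ) ∉ 𝔮 := by
            intro i hi
            have := hz0q _ hi
            rw [eval_X] at this
            exact hbz i this
          have hno : ∀ z : V → ℂ, Rel g z → (∀ f ∈ 𝔮, eval z f = 0) → eval z (G t0) ≠ 0 := by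
            intro z hz hzq h0
            have h1 := hJz z (fun f hf => hzq f (h𝔮.1.2 hf))
            obtain ⟨t, ht, htn⟩ := hcon z hz (by
              intro t ht
              rcases Finset.mem_insert.1 ht with h | h
              · rw [h]; exact h0
              · exact h1.1 t h)
            exact htn (h1.2 t ht)
          have hGq : G t0 ∉ 𝔮 := fun h => hno z0 hz0' hz0q (hz0q _ h)
          have hlin := linear_mem g hg 𝔮 (fun f hf μ => comp_mem g hhom hf μ) (G t0)
            (δ t0) (hG _) b hb hbq hGq hno
          refine ⟨fun v => z0 v.1, ?_, ?_⟩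
          · intro h
            exact hbz (a t0) (congrFun h ⟨b (a t0), hb _⟩)
          · intro z hz hzq
            have h4 : ∀ v, g v = a t0 → z v * z0 (b (a t0)) = z (b (a t0)) * z0 v := by
              intro v hv
              obtain ⟨t, ht⟩ := hlin v (by rw [hv]; exact ha t0)
              have e1 := hzq _ ht
              have e2 := hz0q _ ht
              rw [map_sub, map_mul, eval_X, eval_C, eval_X, hv] at e1 e2
              linear_combination z0 (b (a t0)) * e1 - z (b (a t0)) * e2
            have hzb : z (b (a t0)) ≠ 0 := by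
              intro h0
              obtain ⟨v, hv, hvz⟩ := hz (a t0)
              have := h4 v hv
              rw [h0, zero_mul] at this
              rcases mul_eq_zero.1 this with h | h
              · exact hvz h
              · exact hbz _ h
            refine ⟨z (b (a t0)) / z0 (b (a t0)), div_ne_zero hzb (hbz _), ?_⟩
            intro v
            have h5 := h4 v.1 v.2
            have h6 := hbz (a t0)
            field_simp
            exact h5
        · push Not at hex
          obtain ⟨v0, hv0⟩ := hg (a t0)
          refine ⟨fun _ => 1, ?_, ?_⟩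
          · intro h
            have := congrFun h ⟨v0, hv0⟩
            simp at this
          · intro z hz hzq
            obtain ⟨f, hf, hfn⟩ := hex z hz
            exact absurd (hzq f hf) hfn
      choose! p hp0 hp using key
      have hfin : J0.minimalPrimes.Finite := J0.finite_minimalPrimes_of_isNoetherianRing _
      obtain ⟨h, hh⟩ := exists_avoid (p '' J0.minimalPrimes) (hfin.image p) (by
        rintro _ ⟨𝔮, h𝔮, rfl⟩
        exact hp0 𝔮 h𝔮)
      let h' : V → ℂ := fun v => if hv : g v = a t0 then h ⟨v, hv⟩ else 0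
      obtain ⟨z, hz, hzS, hzH⟩ := ih (Function.update H t0 h')
      have hprime : (RingHom.ker (orb g z)).IsPrime := RingHom.ker_isPrime _
      have hle : J0 ≤ RingHom.ker (orb g z) := by
        apply Ideal.span_le.2
        rintro f (⟨t, ht, rfl⟩ | ⟨t, ht, rfl⟩)
        · exact (hG t).orb_eq_zero (hzS t ht)
        · have h1 : t ≠ t0 := fun h => ht (by rw [h]; exact Finset.mem_insert_self _ _)
          have h2 := hzH t (fun h => ht (Finset.mem_insert_of_mem h))
          rw [Function.update_of_ne h1] at h2
          exact (MH.linF g _ _).orb_eq_zero h2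
      obtain ⟨𝔮, h𝔮, h𝔮le⟩ := Ideal.exists_minimalPrimes_le hle
      have hevz : ∀ f ∈ 𝔮, eval z f = 0 := by
        intro f hf
        have h1 : orb g z f = 0 := h𝔮le hf
        have h2 := eval_orb g z (fun _ => 1) f
        rw [h1, map_zero] at h2
        simpa using h2.symm
      obtain ⟨c, hc, hcz⟩ := hp 𝔮 h𝔮 z hz hevz
      have h3 := hzH t0 ht0
      rw [Function.update_self, eval_linF, ← Finset.sum_filter,
        ← Finset.sum_subtype_eq_sum_filter, Finset.subtype_univ] at h3
      have h4 := hh (p 𝔮) ⟨𝔮, h𝔮, rfl⟩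
      apply h4
      have h5 : ∀ v : {v // g v = a t0}, h' v.1 * z v.1 = c * (h v * p 𝔮 v) := by
        intro v
        rw [hcz v]
        have : h' v.1 = h v := by
          simp only [h']
          rw [dif_pos v.2]
        rw [this]
        ring
      simp_rw [h5] at h3
      rw [← Finset.mul_sum] at h3
      exact (mul_eq_zero.1 h3).resolve_left hc
  obtain ⟨z, hz, hz2, _⟩ := main Finset.univ (fun _ _ => 0)
  exact ⟨z, hz, fun t => hz2 t (Finset.mem_univ _)⟩

/-- The same statement, allowing empty groups. -/
theorem exists_zero_merge [DecidableEq V] (g : V → Fin k) {τ : Type} [Fintype τ] [DecidableEq τ]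
    (G : τ → MvPolynomial V ℂ) (δ : τ → Fin k → ℕ) (hG : ∀ t, MH g (G t) (δ t)) (a : τ → Fin k)
    (ha : ∀ t, δ t (a t) ≠ 0) (ha2 : ∀ t, ∃ v, g v = a t)
    (hcap : ∀ i, (∃ v, g v = i) → Fintype.card {t // a t = i} < Fintype.card {v // g v = i}) :
    ∃ z : V → ℂ, (∀ i, (∃ v, g v = i) → ∃ v, g v = i ∧ z v ≠ 0) ∧ ∀ t, eval z (G t) = 0 := by
  classical
  let g' : V ⊕ Fin k → Fin k := Sum.elim g id
  let τ' := τ ⊕ {i : Fin k // ∃ v, g v = i}
  let G' : τ' → MvPolynomial (V ⊕ Fin k) ℂ := Sum.elim (fun t => rename Sum.inl (G t))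
    (fun i => X (Sum.inr i.1))
  let δ' : τ' → Fin k → ℕ := Sum.elim δ (fun i => Pi.single i.1 1)
  let a' : τ' → Fin k := Sum.elim a (fun i => i.1)
  have hcardV : ∀ i, Fintype.card {v // g' v = i} = Fintype.card {v // g v = i} + 1 := by
    intro i
    rw [Fintype.card_subtype, Fintype.card_subtype]
    have : (Finset.univ.filter fun v => g' v = i) =
        (Finset.univ.filter fun v => g v = i).disjSum {i} := by
      ext v
      rcases v with v | v
      · simp [g']
      · simp [g']
    rw [this, Finset.card_disjSum]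
    simp
  have hcardτ : ∀ i, Fintype.card {t // a' t = i} =
      Fintype.card {t // a t = i} + (if ∃ v, g v = i then 1 else 0) := by
    intro i
    rw [Fintype.card_subtype, Fintype.card_subtype]
    have : (Finset.univ.filter fun v => a' v = i) =
        (Finset.univ.filter fun v => a v = i).disjSum
          (Finset.univ.filter fun j : {i : Fin k // ∃ v, g v = i} => j.1 = i) := by
      ext v
      rcases v with v | v
      · rw [Finset.inl_mem_disjSum]
        simp [a']
      · rw [Finset.inr_mem_disjSum]
        simp [a']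
    rw [this, Finset.card_disjSum]
    congr 1
    split_ifs with h
    · rw [Finset.card_eq_one]
      refine ⟨⟨i, h⟩, ?_⟩
      ext j
      simp [Subtype.ext_iff]
    · rw [Finset.card_eq_zero]
      ext j
      simp only [Finset.mem_filter, Finset.mem_univ, true_and]
      constructor
      · intro hj
        exact absurd (hj ▸ j.2) h
      · simp
  obtain ⟨z, hz, hz2⟩ := exists_zero_hall g' G' δ' (by
      rintro (t | i)
      · intro d hd
        simp only [G', Sum.elim_inl] at hd
        obtain ⟨u, hu, hu2⟩ := coeff_rename_ne_zero _ _ _ hd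
        rw [← hu]
        simp only [δ', Sum.elim_inl]
        rw [← hG t u hu2]
        funext i
        simp only [mdeg]
        rw [Fintype.sum_sum_type]
        have h1 : ∀ v, (Finsupp.mapDomain Sum.inl u : V ⊕ Fin k →₀ ℕ) (Sum.inl v) = u v := by
          intro v
          exact Finsupp.mapDomain_apply Sum.inl_injective _ _
        have h2 : ∀ i, (Finsupp.mapDomain Sum.inl u : V ⊕ Fin k →₀ ℕ) (Sum.inr i) = 0 := by
          intro i
          apply Finsupp.mapDomain_of_notMem_range
          simp
        simp only [h1, h2, g', Sum.elim_inl, ite_self, Finset.sum_const_zero, add_zero]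
      · exact MH.X g' (Sum.inr i.1)) a' (by
      rintro (t | i)
      · exact ha t
      · simp [a', δ']) (by
      intro i
      rw [hcardV, hcardτ]
      by_cases h : ∃ v, g v = i
      · rw [if_pos h]
        have := hcap i h
        omega
      · rw [if_neg h]
        have : Fintype.card {t // a t = i} = 0 := by
          rw [Fintype.card_eq_zero_iff]
          refine ⟨fun t => h ?_⟩
          rw [← t.2]
          exact ha2 t.1
        omega)
  refine ⟨fun v => z (Sum.inl v), ?_, ?_⟩
  · intro i hi
    obtain ⟨v, hv, hvz⟩ := hz i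
    rcases v with v | v
    · exact ⟨v, hv, hvz⟩
    · exfalso
      have h1 := hz2 (Sum.inr ⟨i, hi⟩)
      simp only [G', Sum.elim_inr, eval_X] at h1
      have h2 : v = i := hv
      rw [h2] at hvz
      exact hvz h1
  · intro t
    have h1 := hz2 (Sum.inl t)
    simp only [G', Sum.elim_inl] at h1
    rw [eval_rename] at h1
    exact h1

end Pool.Agent.Helper558_CP
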