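import Mathlib
import Pool.Agent.Helper558_CP.Hall
import Pool.Agent.Helper558_CP.Defs

/-!
# Classification of the equations
-/

open MvPolynomial

namespace Pool.Agent.Helper558_CP

variable {V : Type} [Fintype V] {k : ℕ}

/-- The value of a multihomogeneous polynomial depends only on the groups in which it has positive
degree. -/
theorem MH.eval_congr {g : V → Fin k} {f : MvPolynomial V ℂ} {δ : Fin k → ℕ} (h : MH g f δ)
    {z z' : V → ℂ} (hz : ∀ v, δ (g v) ≠ 0 → z v = z' v) : eval z f = eval z' f := by
  rw [eval_eq', eval_eq']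
  refine Finset.sum_congr rfl fun d hd => ?_
  congr 1
  refine Finset.prod_congr rfl fun v _ => ?_
  by_cases hv : δ (g v) = 0
  · have h1 := h d (mem_support_iff.mp hd)
    have h2 : d v = 0 := by
      have h3 : mdeg g d (g v) = 0 := by rw [h1, hv]
      rw [mdeg, Finset.sum_eq_zero_iff] at h3
      simpa using h3 v (Finset.mem_univ _)
    rw [h2, pow_zero, pow_zero]
  · rw [hz v hv]

/-- A multihomogeneous polynomial vanishes at points whose coordinates in a group of positive
degree are zero. -/
theorem MH.eval_eq_zero {g : V → Fin k} {f : MvPolynomial V ℂ} {δ : Fin k → ℕ} (h : MH g f δ)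
    (i : Fin k) (hi : δ i ≠ 0) {z : V → ℂ} (hz : ∀ v, g v = i → z v = 0) : eval z f = 0 := by
  have h1 := h.eval_scale (fun l => if l = i then 0 else 1) z
  have h2 : (fun v => (if g v = i then (0 : ℂ) else 1) * z v) = z := by
    funext v
    by_cases hv : g v = i
    · rw [if_pos hv, hz v hv, mul_zero]
    · rw [if_neg hv, one_mul]
  rw [h2] at h1
  rw [h1, Finset.prod_eq_zero (Finset.mem_univ i), zero_mul]
  rw [if_pos rfl, zero_pow hi]

theorem mdeg_eq_single [DecidableEq V] {g : V → Fin k} {d : V →₀ ℕ} {l : Fin k}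
    (h : mdeg g d = Pi.single l 1) : ∃ v, g v = l ∧ d = Finsupp.single v 1 := by
  have h1 : mdeg g d l = 1 := by rw [h]; simp
  have h2 : ∃ v, g v = l ∧ d v ≠ 0 := by
    by_contra hcon
    push Not at hcon
    rw [mdeg, Finset.sum_eq_zero] at h1
    · exact zero_ne_one h1
    · intro v _
      split_ifs with hv
      · exact hcon v hv
      · rfl
  obtain ⟨v, hv, hdv⟩ := h2
  refine ⟨v, hv, ?_⟩
  have h3 : Finsupp.single v 1 ≤ d := by
    rw [Finsupp.single_le_iff]
    omega
  obtain ⟨e, rfl⟩ := exists_add_of_le h3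
  have h4 : mdeg g e = 0 := by
    rw [mdeg_add, mdeg_single, hv] at h
    exact add_eq_left.1 h
  have h5 : e = 0 := by
    ext w
    have h6 : mdeg g e (g w) = 0 := by rw [h4]; rfl
    rw [mdeg, Finset.sum_eq_zero_iff] at h6
    simpa using h6 w (Finset.mem_univ _)
  rw [h5, add_zero]

/-- Polynomials of degree one in one group are linear forms. -/
theorem MH.eq_linF [DecidableEq V] {g : V → Fin k} {f : MvPolynomial V ℂ} {l : Fin k}
    (h : MH g f (Pi.single l 1)) : f = Helper558_CP.linF g l (fun v => coeff (Finsupp.single v 1) f) := by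
  ext d
  rw [Helper558_CP.linF, coeff_sum]
  have h1 : ∀ v, coeff d (if g v = l then
      MvPolynomial.C (coeff (Finsupp.single v 1) f) * MvPolynomial.X v else 0) =
      if g v = l ∧ Finsupp.single v 1 = d then coeff d f else 0 := by
    intro v
    by_cases hv : g v = l
    · rw [if_pos hv, coeff_C_mul, coeff_X]
      by_cases hd : Finsupp.single v 1 = d
      · rw [if_pos hd, if_pos ⟨hv, hd⟩, hd, mul_one]
      · rw [if_neg hd, if_neg (fun h => hd h.2), mul_zero]
    · rw [if_neg hv, if_neg (fun h => hv h.1), coeff_zero]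
  simp_rw [h1]
  by_cases hd : coeff d f = 0
  · rw [hd]; simp
  · obtain ⟨v, hv, rfl⟩ := mdeg_eq_single (h d hd)
    rw [Finset.sum_eq_single v]
    · rw [if_pos ⟨hv, rfl⟩]
    · intro w _ hw
      rw [if_neg]
      rintro ⟨_, h2⟩
      exact hw (Finsupp.single_left_injective one_ne_zero h2)
    · simp

theorem card_sum_fiber {ω κ : Type} [Fintype ω] [Fintype κ] [DecidableEq ω] [DecidableEq κ]
    (a : ω → Fin k) (b : κ → Fin k) (m : Fin k) :
    Fintype.card {t : ω ⊕ κ // Sum.elim a b t = m} =
      Fintype.card {w // a w = m} + Fintype.card {j // b j = m} := by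
  rw [Fintype.card_subtype, Fintype.card_subtype, Fintype.card_subtype]
  have : (Finset.univ.filter fun t : ω ⊕ κ => Sum.elim a b t = m) =
      (Finset.univ.filter fun w => a w = m).disjSum (Finset.univ.filter fun j => b j = m) := by
    ext t
    rcases t with t | t
    · rw [Finset.inl_mem_disjSum]; simp
    · rw [Finset.inr_mem_disjSum]; simp
  rw [this, Finset.card_disjSum]

theorem card_fiber_le {κ : Type} [Fintype κ] [DecidableEq κ] (b : κ → Fin k) (m : Fin k)
    (d : κ → ℕ) (hd : ∀ j, b j = m → d j ≠ 0) : Fintype.card {j // b j = m} ≤ ∑ j, d j := by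
  rw [Fintype.card_subtype, Finset.card_filter]
  apply Finset.sum_le_sum
  intro j _
  split_ifs with h
  · exact Nat.one_le_iff_ne_zero.2 (hd j h)
  · exact Nat.zero_le _

theorem card_fiber_zero {κ : Type} [Fintype κ] [DecidableEq κ] (b : κ → Fin k) (m : Fin k)
    (hd : ∀ j, b j ≠ m) : Fintype.card {j // b j = m} = 0 := by
  rw [Fintype.card_eq_zero_iff]
  exact ⟨fun j => hd j.1 j.2⟩

/-- The data used in the classification. -/
structure Datum {ι : Type} [Fintype ι] (g : V → Fin k) (F : ι → MvPolynomial V ℂ) (d : ι → Fin k → ℕ)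
    (n : Fin k → ℕ) : Prop where
  hn : ∀ i, Fintype.card {w // g w = i} = n i + 1
  hF : ∀ j, MH g (F j) (d j)
  hFano : ∀ i, ∑ j, d j i ≤ n i
  hsupp : ∀ j, ∃ i l, i ≠ l ∧ d j i ≠ 0 ∧ d j l ≠ 0
  hP : ∀ i, ∀ z ∈ zeros g F, ∀ c : ι → ℂ, (∀ j, d j i = 0 → c j = 0) →
    (∀ w, g w = i → ∑ j, c j * eval z (pderiv w (F j)) = 0) → ∀ j, c j = 0

variable {ι : Type} [Fintype ι] [DecidableEq ι] [DecidableEq V] {g : V → Fin k}
  {F : ι → MvPolynomial V ℂ} {d : ι → Fin k → ℕ} {n : Fin k → ℕ}

omit [DecidableEq ι] [DecidableEq V] in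
theorem Datum.avoid (D : Datum g F d n) (j : ι) (l : Fin k) : ∃ m, m ≠ l ∧ d j m ≠ 0 := by
  obtain ⟨i, i', h1, h2, h3⟩ := D.hsupp j
  by_cases h : i = l
  · exact ⟨i', fun h4 => h1 (h.trans h4.symm), h3⟩
  · exact ⟨i, h, h2⟩

theorem sum_subtype_ne (d : ι → ℕ) (j0 : ι) : ∑ j : {j // j ≠ j0}, d j.1 + d j0 = ∑ j, d j := by
  rw [← Finset.sum_erase_add _ _ (Finset.mem_univ j0)]
  congr 1
  rw [Finset.sum_subtype (Finset.univ.erase j0) (p := fun j => j ≠ j0)]
  intro j
  simp

omit [DecidableEq V] in
/-- Rows that vanish. -/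
theorem Datum.row_ne_zero (D : Datum g F d n) (i : Fin k) (z : V → ℂ) (hz : z ∈ zeros g F) (j : ι)
    (hj : d j i ≠ 0) : ∃ w, g w = i ∧ eval z (pderiv w (F j)) ≠ 0 := by
  by_contra hcon
  push Not at hcon
  have := D.hP i z hz (Pi.single j 1) (by
    intro j' hj'
    rw [Pi.single_apply, if_neg]
    rintro rfl
    exact hj hj') (by
    intro w hw
    simp only [Pi.single_apply, ite_mul, one_mul, zero_mul, Finset.sum_ite_eq', Finset.mem_univ,
      if_true]
    exact hcon w hw) j
  simp at this

/-- Common argument for the degree and support bounds. -/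
theorem Datum.lemU (D : Datum g F d n) (j0 : ι) (i l1 l2 : Fin k) (hl : l1 ≠ l2)
    (hi : d j0 i ≠ 0) (h1 : d j0 l1 - (if i = l1 then 1 else 0) ≠ 0)
    (h2 : d j0 l2 - (if i = l2 then 1 else 0) ≠ 0) (hn : n i ≤ n l1) : False := by
  have hgi : 0 < Fintype.card {w // g w = i} := by rw [D.hn]; omega
  obtain ⟨w0⟩ := Fintype.card_pos_iff.1 hgi
  have hb : ∀ j : {j // j ≠ j0}, ∃ m, m ≠ l1 ∧ d j.1 m ≠ 0 := fun j => D.avoid j.1 l1
  choose b hb1 hb2 using hb
  obtain ⟨z, hz, hz2⟩ := exists_zero_hall g
    (τ := {w // g w = i} ⊕ {j // j ≠ j0})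
    (Sum.elim (fun w => pderiv w.1 (F j0)) (fun j => F j.1))
    (Sum.elim (fun w m => d j0 m - (if g w.1 = m then 1 else 0)) (fun j => d j.1))
    (by
      rintro (w | j)
      · exact (D.hF j0).pderiv w.1
      · exact D.hF j.1)
    (Sum.elim (fun w => if w = w0 then l2 else l1) b)
    (by
      rintro (w | j)
      · simp only [Sum.elim_inl, w.2]
        by_cases h : w = w0
        · rw [if_pos h]; exact h2
        · rw [if_neg h]; exact h1
      · exact hb2 j)
    (by
      intro m
      rw [card_sum_fiber, D.hn]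
      by_cases hm1 : m = l1
      · subst hm1
        rw [card_fiber_zero b m hb1, add_zero]
        have h3 : Fintype.card {w : {w // g w = i} // (if w = w0 then l2 else m) = m} ≤ n i := by
          have h4 : Fintype.card {w : {w // g w = i} // (if w = w0 then l2 else m) = m} ≤
              Fintype.card {w : {w // g w = i} // w ≠ w0} := by
            apply Fintype.card_le_of_injective (fun w => ⟨w.1, fun h => by
              have := w.2
              rw [if_pos h] at this
              exact hl this.symm⟩)
            intro x y hxy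
            exact Subtype.ext (congrArg (fun t => t.1) hxy)
          have h5 : Fintype.card {w : {w // g w = i} // w ≠ w0} = n i := by
            rw [Fintype.card_subtype_compl, D.hn]
            simp
          omega
        omega
      · have h3 : Fintype.card {j // b j = m} ≤ ∑ j : {j // j ≠ j0}, d j.1 m :=
          card_fiber_le b m _ (fun j hj => by rw [← hj]; exact hb2 j)
        have h4 := sum_subtype_ne (fun j => d j m) j0
        have h5 := D.hFano m
        by_cases hm2 : m = l2
        · subst hm2
          have h6 : Fintype.card {w : {w // g w = i} // (if w = w0 then m else l1) = m} ≤ 1 := by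
            rw [Fintype.card_le_one_iff]
            intro x y
            have hx : x.1 = w0 := by
              by_contra h
              have := x.2
              rw [if_neg h] at this
              exact hl this
            have hy : y.1 = w0 := by
              by_contra h
              have := y.2
              rw [if_neg h] at this
              exact hl this
            exact Subtype.ext (hx.trans hy.symm)
          have h7 : d j0 m ≠ 0 := fun h => h2 (by rw [h]; simp)
          omega
        · have h6 : Fintype.card {w : {w // g w = i} // (if w = w0 then l2 else l1) = m} = 0 := by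
            apply card_fiber_zero (fun w => if w = w0 then l2 else l1)
            intro w
            split_ifs
            · exact fun h => hm2 h.symm
            · exact fun h => hm1 h.symm
          omega)
  have hrow : ∀ w, g w = i → eval z (pderiv w (F j0)) = 0 := fun w hw => hz2 (Sum.inl ⟨w, hw⟩)
  have hzX : z ∈ zeros g F := by
    refine ⟨hz, fun j => ?_⟩
    by_cases hj : j = j0
    · subst hj
      have h3 := (D.hF j).euler i z
      rw [Finset.sum_eq_zero] at h3
      · have : (d j i : ℂ) ≠ 0 := by exact_mod_cast hi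
        exact (mul_eq_zero.1 h3.symm).resolve_left this
      · intro w _
        split_ifs with hw
        · rw [hrow w hw, mul_zero]
        · rfl
    · exact hz2 (Sum.inr ⟨j, hj⟩)
  obtain ⟨w, hw, hw2⟩ := D.row_ne_zero i z hzX j0 hi
  exact hw2 (hrow w hw)

/-- All degrees are at most one. -/
theorem Datum.deg_le_one (D : Datum g F d n) (j : ι) (i : Fin k) : d j i ≤ 1 := by
  by_contra hcon
  push Not at hcon
  obtain ⟨l, hl, hl2⟩ := D.avoid j i
  apply D.lemU j i i l (Ne.symm hl) (by omega) _ _ le_rfl
  · rw [if_pos rfl]; omega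
  · rw [if_neg (Ne.symm hl)]; omega

/-- Every equation involves exactly two groups. -/
theorem Datum.supp_two (D : Datum g F d n) (j : ι) (i1 i2 i3 : Fin k) (h12 : i1 ≠ i2)
    (h13 : i1 ≠ i3) (h23 : i2 ≠ i3) (h1 : d j i1 ≠ 0) (h2 : d j i2 ≠ 0) (h3 : d j i3 ≠ 0) : False := by
  have key : ∀ i l1 l2 : Fin k, i ≠ l1 → i ≠ l2 → l1 ≠ l2 → d j i ≠ 0 → d j l1 ≠ 0 → d j l2 ≠ 0 →
      ¬ n i ≤ n l1 := by
    intro i l1 l2 ha hb hc hd he hf hle
    apply D.lemU j i l1 l2 hc hd _ _ hle
    · rw [if_neg ha]; simpa using he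
    · rw [if_neg hb]; simpa using hf
  have e1 := key i1 i2 i3 h12 h13 h23 h1 h2 h3
  have e2 := key i2 i1 i3 (Ne.symm h12) h23 h13 h2 h1 h3
  omega

/-- The two groups of an equation have the same dimension. -/
theorem Datum.dim_eq (D : Datum g F d n) (j0 : ι) (i l : Fin k) (hil : i ≠ l) (hi : d j0 i ≠ 0)
    (hl : d j0 l ≠ 0) : ¬ n i < n l := by
  intro hlt
  have hb : ∀ j : {j // j ≠ j0}, ∃ m, m ≠ l ∧ d j.1 m ≠ 0 := fun j => D.avoid j.1 l
  choose b hb1 hb2 using hb
  obtain ⟨z, hz, hz2⟩ := exists_zero_hall g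
    (τ := {w // g w = i} ⊕ {j // j ≠ j0})
    (Sum.elim (fun w => pderiv w.1 (F j0)) (fun j => F j.1))
    (Sum.elim (fun w m => d j0 m - (if g w.1 = m then 1 else 0)) (fun j => d j.1))
    (by
      rintro (w | j)
      · exact (D.hF j0).pderiv w.1
      · exact D.hF j.1)
    (Sum.elim (fun w => l) b)
    (by
      rintro (w | j)
      · simp only [Sum.elim_inl, w.2]
        rw [if_neg hil]
        simpa using hl
      · exact hb2 j)
    (by
      intro m
      rw [card_sum_fiber, D.hn]
      by_cases hm1 : m = l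
      · subst hm1
        rw [card_fiber_zero b m hb1, add_zero]
        have h3 : Fintype.card {w : {w // g w = i} // m = m} ≤ Fintype.card {w // g w = i} :=
          Fintype.card_subtype_le _
        rw [D.hn] at h3
        omega
      · have h3 : Fintype.card {j // b j = m} ≤ ∑ j : {j // j ≠ j0}, d j.1 m :=
          card_fiber_le b m _ (fun j hj => by rw [← hj]; exact hb2 j)
        have h4 := sum_subtype_ne (fun j => d j m) j0
        have h5 := D.hFano m
        have h6 : Fintype.card {w : {w // g w = i} // l = m} = 0 :=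
          card_fiber_zero (fun _ : {w // g w = i} => l) m (fun _ h => hm1 h.symm)
        omega)
  have hrow : ∀ w, g w = i → eval z (pderiv w (F j0)) = 0 := fun w hw => hz2 (Sum.inl ⟨w, hw⟩)
  have hzX : z ∈ zeros g F := by
    refine ⟨hz, fun j => ?_⟩
    by_cases hj : j = j0
    · subst hj
      have h3 := (D.hF j).euler i z
      rw [Finset.sum_eq_zero] at h3
      · have : (d j i : ℂ) ≠ 0 := by exact_mod_cast hi
        exact (mul_eq_zero.1 h3.symm).resolve_left this
      · intro w _
        split_ifs with hw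
        · rw [hrow w hw, mul_zero]
        · rfl
    · exact hz2 (Sum.inr ⟨j, hj⟩)
  obtain ⟨w, hw, hw2⟩ := D.row_ne_zero i z hzX j0 hi
  exact hw2 (hrow w hw)

/-- There are points with prescribed coordinates in one group. -/
theorem Datum.exists_point (D : Datum g F d n) (l : Fin k) (u : V → ℂ) (w1 : V) (hw1 : g w1 = l)
    (hu : u w1 ≠ 0) : ∃ z ∈ zeros g F, ∃ c : ℂ, c ≠ 0 ∧ ∀ v, g v = l → z v = c * u v := by
  have hb : ∀ j : ι, ∃ m, m ≠ l ∧ d j m ≠ 0 := fun j => D.avoid j l
  choose b hb1 hb2 using hb
  obtain ⟨z, hz, hz2⟩ := exists_zero_hall g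
    (τ := {w : {w // g w = l} // w ≠ ⟨w1, hw1⟩} ⊕ ι)
    (Sum.elim (fun w => linF g l (fun v => (if v = w.1.1 then u w1 else 0) -
      (if v = w1 then u w.1.1 else 0))) (fun j => F j))
    (Sum.elim (fun w => Pi.single l 1) d)
    (by
      rintro (w | j)
      · exact MH.linF g l _
      · exact D.hF j)
    (Sum.elim (fun w => l) b)
    (by
      rintro (w | j)
      · simp
      · exact hb2 j)
    (by
      intro m
      rw [card_sum_fiber, D.hn]
      by_cases hm1 : m = l
      · subst hm1
        rw [card_fiber_zero b m hb1, add_zero]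
        have h3 : Fintype.card {w : {w : {w // g w = m} // w ≠ ⟨w1, hw1⟩} // m = m} ≤
            Fintype.card {w : {w // g w = m} // w ≠ ⟨w1, hw1⟩} := Fintype.card_subtype_le _
        have h5 : Fintype.card {w : {w // g w = m} // w ≠ ⟨w1, hw1⟩} = n m := by
          rw [Fintype.card_subtype_compl, D.hn]
          simp
        omega
      · have h3 : Fintype.card {j // b j = m} ≤ ∑ j, d j m :=
          card_fiber_le b m _ (fun j hj => by rw [← hj]; exact hb2 j)
        have h5 := D.hFano m
        have h6 : Fintype.card {w : {w : {w // g w = l} // w ≠ ⟨w1, hw1⟩} // l = m} = 0 :=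
          card_fiber_zero (fun _ : {w : {w // g w = l} // w ≠ ⟨w1, hw1⟩} => l) m
            (fun _ h => hm1 h.symm)
        omega)
  have hlin : ∀ v, g v = l → u w1 * z v = u v * z w1 := by
    intro v hv
    by_cases hvw : v = w1
    · rw [hvw]
    · have h1 := hz2 (Sum.inl ⟨⟨v, hv⟩, fun h => hvw (congrArg (fun t => t.1) h)⟩)
      simp only [Sum.elim_inl] at h1
      rw [eval_linF] at h1
      have h2 : ∀ x, (if g x = l then ((if x = v then u w1 else 0) - (if x = w1 then u v else 0)) * z x
          else 0) = (if x = v then u w1 * z x else 0) - (if x = w1 then u v * z x else 0) := by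
        intro x
        by_cases hx : g x = l
        · rw [if_pos hx]
          split_ifs <;> ring
        · rw [if_neg hx, if_neg, if_neg]
          · ring
          · rintro rfl; exact hx hw1
          · rintro rfl; exact hx hv
      simp_rw [h2] at h1
      rw [Finset.sum_sub_distrib, Finset.sum_ite_eq', Finset.sum_ite_eq'] at h1
      simp only [Finset.mem_univ, if_true] at h1
      exact sub_eq_zero.1 h1
  have hzw1 : z w1 ≠ 0 := by
    intro h0
    obtain ⟨v, hv, hvz⟩ := hz l
    have := hlin v hv
    rw [h0, mul_zero] at this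
    rcases mul_eq_zero.1 this with h | h
    · exact hu h
    · exact hvz h
  refine ⟨z, ⟨hz, fun j => hz2 (Sum.inr j)⟩, z w1 / u w1, div_ne_zero hzw1 hu, ?_⟩
  intro v hv
  have := hlin v hv
  field_simp
  linear_combination this

end Pool.Agent.Helper558_CP
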