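import Mathlib
import Pool.Agent.Helper558_CP.Class

/-!
# Classification of the equations: disjointness of the supports
-/

open MvPolynomial

namespace Pool.Agent.Helper558_CP

variable {V : Type} [Fintype V] {k : ℕ}

theorem MH.push {g : V → Fin k} {f : MvPolynomial V ℂ} {δ : Fin k → ℕ} (h : MH g f δ)
    (m : Fin k → Fin k) :
    MH (fun v => m (g v)) f (fun i => ∑ i', if m i' = i then δ i' else 0) := by
  intro d hd
  have h1 := h d hd
  funext i
  rw [← h1]
  simp only [mdeg]
  have h2 : ∀ i', (if m i' = i then ∑ v, (if g v = i' then d v else 0) else 0) =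
      ∑ v, (if g v = i' then (if m i' = i then d v else 0) else 0) := by
    intro i'
    split_ifs with h
    · rfl
    · simp
  simp_rw [h2]
  rw [Finset.sum_comm]
  refine Finset.sum_congr rfl fun v _ => ?_
  rw [Finset.sum_ite_eq]
  simp

theorem MH.sub {g : V → Fin k} {f f' : MvPolynomial V ℂ} {δ : Fin k → ℕ} (h : MH g f δ)
    (h' : MH g f' δ) : MH g (f - f') δ := by
  intro d hd
  rw [coeff_sub] at hd
  by_cases h1 : coeff d f = 0
  · apply h' d
    intro h2
    apply hd
    rw [h1, h2, sub_zero]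
  · exact h d h1

variable {ι : Type} [Fintype ι] [DecidableEq ι] [DecidableEq V] {g : V → Fin k}
  {F : ι → MvPolynomial V ℂ} {d : ι → Fin k → ℕ} {n : Fin k → ℕ}

theorem Datum.deg_eq (D : Datum g F d n) (j : ι) (i l : Fin k) (hil : i ≠ l) (hi : d j i ≠ 0)
    (hl : d j l ≠ 0) : d j = Pi.single i 1 + Pi.single l 1 := by
  funext m
  have h1 := D.deg_le_one j m
  simp only [Pi.add_apply, Pi.single_apply]
  by_cases hmi : m = i
  · subst hmi
    rw [if_pos rfl, if_neg hil]
    omega
  · rw [if_neg hmi]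
    by_cases hml : m = l
    · subst hml
      rw [if_pos rfl]
      omega
    · rw [if_neg hml]
      by_contra h2
      exact D.supp_two j i l m hil (Ne.symm hmi) (Ne.symm hml) hi hl (by omega)

theorem Datum.deriv_deg (D : Datum g F d n) (j : ι) (i l : Fin k) (hil : i ≠ l) (hi : d j i ≠ 0)
    (hl : d j l ≠ 0) (w : V) (hw : g w = i) : MH g (pderiv w (F j)) (Pi.single l 1) := by
  have h1 := (D.hF j).pderiv w
  have h2 : (fun m => d j m - (if g w = m then 1 else 0)) = (Pi.single l 1 : Fin k → ℕ) := by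
    funext m
    rw [D.deg_eq j i l hil hi hl, hw]
    simp only [Pi.add_apply, Pi.single_apply]
    by_cases hmi : m = i
    · subst hmi
      simp [hil]
    · rw [if_neg hmi, if_neg (Ne.symm hmi)]
      omega
  rwa [h2] at h1

/-- The linear forms `pderiv w (F j)` have no common zero. -/
theorem Datum.inj (D : Datum g F d n) (j : ι) (i l : Fin k) (hil : i ≠ l) (hi : d j i ≠ 0)
    (hl : d j l ≠ 0) (u : V → ℂ) (w1 : V) (hw1 : g w1 = l) (hu : u w1 ≠ 0) :
    ∃ w, g w = i ∧ eval u (pderiv w (F j)) ≠ 0 := by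
  obtain ⟨z, hz, c, hc, hzc⟩ := D.exists_point l u w1 hw1 hu
  obtain ⟨w, hw, hw2⟩ := D.row_ne_zero i z hz j hi
  refine ⟨w, hw, ?_⟩
  have h1 := D.deriv_deg j i l hil hi hl w hw
  intro h0
  apply hw2
  have h2 : eval z (pderiv w (F j)) = eval (fun v => c * u v) (pderiv w (F j)) := by
    apply h1.eval_congr
    intro v hv
    apply hzc
    by_contra h3
    apply hv
    rw [Pi.single_apply, if_neg h3]
  rw [h2]
  have h3 := h1.eval_scale (fun _ => c) u
  rw [h3, h0, mul_zero]

/-- The matrix of an equation. -/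
noncomputable def rowMap (F : ι → MvPolynomial V ℂ) (g : V → Fin k) (j : ι) (i l : Fin k) :
    ({v // g v = l} → ℂ) →ₗ[ℂ] ({w // g w = i} → ℂ) :=
  LinearMap.pi fun w => ∑ v : {v // g v = l}, coeff (Finsupp.single v.1 1) (pderiv w.1 (F j)) •
    LinearMap.proj v

omit [Fintype ι] [DecidableEq ι] [DecidableEq V] in
theorem rowMap_apply (F : ι → MvPolynomial V ℂ) (g : V → Fin k) (j : ι) (i l : Fin k)
    (u : {v // g v = l} → ℂ) (w : {w // g w = i}) :
    rowMap F g j i l u w = ∑ v : {v // g v = l}, coeff (Finsupp.single v.1 1) (pderiv w.1 (F j)) * u v := by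
  simp [rowMap]

theorem Datum.eval_deriv (D : Datum g F d n) (j : ι) (i l : Fin k) (hil : i ≠ l) (hi : d j i ≠ 0)
    (hl : d j l ≠ 0) (z : V → ℂ) (w : {w // g w = i}) :
    eval z (pderiv w.1 (F j)) = rowMap F g j i l (fun v => z v.1) w := by
  have h1 := (D.deriv_deg j i l hil hi hl w.1 w.2).eq_linF
  conv_lhs => rw [h1]
  rw [eval_linF, rowMap_apply, ← Finset.sum_filter, ← Finset.sum_subtype_eq_sum_filter,
    Finset.subtype_univ]

theorem Datum.rowMap_injective (D : Datum g F d n) (j : ι) (i l : Fin k) (hil : i ≠ l)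
    (hi : d j i ≠ 0) (hl : d j l ≠ 0) : Function.Injective (rowMap F g j i l) := by
  rw [injective_iff_map_eq_zero]
  intro u hu
  by_contra hne
  have h1 : ∃ v, u v ≠ 0 := by
    by_contra hcon
    push Not at hcon
    exact hne (funext hcon)
  obtain ⟨v, hv⟩ := h1
  obtain ⟨w, hw, hw2⟩ := D.inj j i l hil hi hl (ext0 g l u) v.1 v.2 (by
    simp only [ext0]
    rw [dif_pos v.2]
    exact hv)
  apply hw2
  have h2 := D.eval_deriv j i l hil hi hl (ext0 g l u) ⟨w, hw⟩
  rw [h2]
  have h3 : (fun v : {v // g v = l} => ext0 g l u v.1) = u := by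
    funext x
    simp only [ext0]
    rw [dif_pos x.2]
  rw [h3, hu]
  rfl

theorem Datum.dim_eq' (D : Datum g F d n) (j : ι) (i l : Fin k) (hil : i ≠ l) (hi : d j i ≠ 0)
    (hl : d j l ≠ 0) : n i = n l := by
  have h1 := D.dim_eq j i l hil hi hl
  have h2 := D.dim_eq j l i (Ne.symm hil) hl hi
  omega

/-- Two equations do not involve the same two groups. -/
theorem Datum.no_double (D : Datum g F d n) (j1 j2 : ι) (hj : j1 ≠ j2) (i l : Fin k) (hil : i ≠ l)
    (hi1 : d j1 i ≠ 0) (hl1 : d j1 l ≠ 0) (hi2 : d j2 i ≠ 0) (hl2 : d j2 l ≠ 0) : False := by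
  have hdim := D.dim_eq' j1 i l hil hi1 hl1
  have hinj := D.rowMap_injective j1 i l hil hi1 hl1
  have hfr : Module.finrank ℂ ({v // g v = l} → ℂ) = Module.finrank ℂ ({w // g w = i} → ℂ) := by
    rw [Module.finrank_fintype_fun_eq_card, Module.finrank_fintype_fun_eq_card, D.hn, D.hn, hdim]
  let E := LinearEquiv.ofInjectiveOfFinrankEq (rowMap F g j1 i l) hinj hfr
  have hne : Nonempty {v // g v = l} := Fintype.card_pos_iff.1 (by rw [D.hn]; omega)
  obtain ⟨μ, hμ⟩ := Module.End.exists_eigenvalue
    (E.symm.toLinearMap ∘ₗ rowMap F g j2 i l)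
  obtain ⟨u, hu⟩ := hμ.exists_hasEigenvector
  have hu1 : E.symm (rowMap F g j2 i l u) = μ • u := hu.apply_eq_smul
  have hu2 : rowMap F g j2 i l u = μ • rowMap F g j1 i l u := by
    have h3 := congrArg E hu1
    rw [LinearEquiv.apply_symm_apply, map_smul] at h3
    exact h3
  have h1 : ∃ v, u v ≠ 0 := by
    by_contra hcon
    push Not at hcon
    exact hu.2 (funext hcon)
  obtain ⟨v, hv⟩ := h1
  obtain ⟨z, hz, c, hc, hzc⟩ := D.exists_point l (ext0 g l u) v.1 v.2 (by
    simp only [ext0]
    rw [dif_pos v.2]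
    exact hv)
  have hzu : (fun v : {v // g v = l} => z v.1) = c • u := by
    funext x
    rw [hzc x.1 x.2]
    simp only [ext0, Pi.smul_apply, smul_eq_mul]
    rw [dif_pos x.2]
  have h4 := D.hP i z hz (Pi.single j2 1 - μ • Pi.single j1 1) (by
    intro j' hj'
    have h5 : j' ≠ j1 := by rintro rfl; exact hi1 hj'
    have h6 : j' ≠ j2 := by rintro rfl; exact hi2 hj'
    simp [h5, h6]) (by
    intro w hw
    have h7 : ∀ j, (Pi.single j2 1 - μ • Pi.single j1 1 : ι → ℂ) j * eval z (pderiv w (F j)) =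
        (if j = j2 then eval z (pderiv w (F j)) else 0) -
        (if j = j1 then μ * eval z (pderiv w (F j)) else 0) := by
      intro j
      simp only [Pi.sub_apply, Pi.smul_apply, Pi.single_apply, smul_eq_mul]
      split_ifs <;> ring
    simp_rw [h7]
    rw [Finset.sum_sub_distrib, Finset.sum_ite_eq', Finset.sum_ite_eq']
    simp only [Finset.mem_univ, if_true]
    have e1 := D.eval_deriv j1 i l hil hi1 hl1 z ⟨w, hw⟩
    have e2 := D.eval_deriv j2 i l hil hi2 hl2 z ⟨w, hw⟩
    rw [hzu, map_smul] at e1 e2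
    rw [hu2] at e2
    rw [e1, e2]
    simp only [Pi.smul_apply, smul_eq_mul]
    ring) j2
  simp [Ne.symm hj] at h4

/-- The supports of the equations are disjoint. -/
theorem Datum.no_path (D : Datum g F d n) (j1 j2 : ι) (hj : j1 ≠ j2) (i l1 l2 : Fin k)
    (hl : l1 ≠ l2) (hil1 : i ≠ l1) (hil2 : i ≠ l2) (hi1 : d j1 i ≠ 0) (hl1 : d j1 l1 ≠ 0)
    (hi2 : d j2 i ≠ 0) (hl2 : d j2 l2 ≠ 0) : False := by
  have hdim1 := D.dim_eq' j1 i l1 hil1 hi1 hl1
  have hdim2 := D.dim_eq' j2 i l2 hil2 hi2 hl2
  let m : Fin k → Fin k := fun x => if x = l1 then l2 else x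
  let g1 : V → Fin k := fun v => m (g v)
  have hb : ∀ j : ι, ∃ x, x ≠ l1 ∧ d j x ≠ 0 := fun j => D.avoid j l1
  choose b hb1 hb2 using hb
  have hsingle : ∀ x, (fun i => ∑ i', if m i' = i then (Pi.single x 1 : Fin k → ℕ) i' else 0) =
      (Pi.single (m x) 1 : Fin k → ℕ) := by
    intro x
    funext i
    rw [Finset.sum_eq_single x]
    · rw [Pi.single_eq_same, Pi.single_apply]
      by_cases h : m x = i
      · rw [if_pos h, if_pos h.symm]
      · rw [if_neg h, if_neg (fun h2 => h h2.symm)]
    · intro y _ hy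
      rw [Pi.single_apply, if_neg hy]
      simp
    · simp
  have hgne : ∀ x, ∃ v, g v = x := by
    intro x
    have : 0 < Fintype.card {v // g v = x} := by rw [D.hn]; omega
    obtain ⟨v, hv⟩ := Fintype.card_pos_iff.1 this
    exact ⟨v, hv⟩
  have hmne : ∀ x, x ≠ l1 → m x = x := by
    intro x hx
    simp only [m]
    rw [if_neg hx]
  have hml1 : m l1 = l2 := by simp [m]
  have hml2 : m l2 = l2 := hmne l2 (Ne.symm hl)
  obtain ⟨z, hz, hz2⟩ := exists_zero_merge g1
    (τ := {w // g w = i} ⊕ ι)
    (Sum.elim (fun w => pderiv w.1 (F j1) - pderiv w.1 (F j2)) (fun j => F j))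
    (Sum.elim (fun w => Pi.single l2 1) (fun j i => ∑ i', if m i' = i then d j i' else 0))
    (by
      rintro (w | j)
      · apply MH.sub
        · have h1 := (D.deriv_deg j1 i l1 hil1 hi1 hl1 w.1 w.2).push m
          rw [hsingle, hml1] at h1
          exact h1
        · have h1 := (D.deriv_deg j2 i l2 hil2 hi2 hl2 w.1 w.2).push m
          rw [hsingle, hml2] at h1
          exact h1
      · exact (D.hF j).push m)
    (Sum.elim (fun w => l2) b)
    (by
      rintro (w | j)
      · simp
      · simp only [Sum.elim_inr]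
        intro h0
        rw [Finset.sum_eq_zero_iff] at h0
        have h1 := h0 (b j) (Finset.mem_univ _)
        rw [if_pos (hmne _ (hb1 j))] at h1
        exact hb2 j h1)
    (by
      rintro (w | j)
      · obtain ⟨v, hv⟩ := hgne l2
        exact ⟨v, by simp only [g1, hv, Sum.elim_inl]; exact hml2⟩
      · obtain ⟨v, hv⟩ := hgne (b j)
        exact ⟨v, by simp only [g1, hv, Sum.elim_inr]; exact hmne _ (hb1 j)⟩)
    (by
      intro x hx
      rw [card_sum_fiber]
      have hx1 : x ≠ l1 := by
        rintro rfl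
        obtain ⟨v, hv⟩ := hx
        simp only [g1, m] at hv
        split_ifs at hv with h
        · exact hl hv.symm
        · exact h hv
      have h3 : Fintype.card {j // b j = x} ≤ ∑ j, d j x :=
        card_fiber_le b x _ (fun j hj => by rw [← hj]; exact hb2 j)
      have h5 := D.hFano x
      by_cases hx2 : x = l2
      · subst hx2
        have h6 : Fintype.card {w : {w // g w = i} // x = x} ≤ Fintype.card {w // g w = i} :=
          Fintype.card_subtype_le _
        rw [D.hn] at h6
        have h7 : Fintype.card {v // g1 v = x} = (n l1 + 1) + (n x + 1) := by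
          rw [← D.hn l1, ← D.hn x, Fintype.card_subtype, Fintype.card_subtype,
            Fintype.card_subtype, ← Finset.card_union_of_disjoint]
          · congr 1
            ext v
            simp only [Finset.mem_filter, Finset.mem_univ, true_and, Finset.mem_union, g1, m]
            split_ifs with h
            · simp [h]
            · simp [h]
          · rw [Finset.disjoint_filter]
            intro v _ h1 h2
            exact hl (h1.symm.trans h2)
        omega
      · have h6 : Fintype.card {w : {w // g w = i} // l2 = x} = 0 :=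
          card_fiber_zero (fun _ : {w // g w = i} => l2) x (fun _ h => hx2 h.symm)
        have h7 : Fintype.card {v // g1 v = x} = n x + 1 := by
          rw [← D.hn x, Fintype.card_subtype, Fintype.card_subtype]
          congr 1
          ext v
          simp only [Finset.mem_filter, Finset.mem_univ, true_and, g1, m]
          split_ifs with h
          · rw [h]
            exact ⟨fun h1 => absurd h1.symm hx2, fun h1 => absurd h1.symm hx1⟩
          · rfl
        omega)
  have hrow : ∀ w, g w = i → eval z (pderiv w (F j1)) = eval z (pderiv w (F j2)) := by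
    intro w hw
    have := hz2 (Sum.inl ⟨w, hw⟩)
    simp only [Sum.elim_inl, map_sub] at this
    exact sub_eq_zero.1 this
  have hmerged : ∃ v, (g v = l1 ∨ g v = l2) ∧ z v ≠ 0 := by
    obtain ⟨v0, hv0⟩ := hgne l2
    obtain ⟨v, hv, hvz⟩ := hz l2 ⟨v0, by simp only [g1, hv0]; exact hml2⟩
    refine ⟨v, ?_, hvz⟩
    simp only [g1, m] at hv
    split_ifs at hv with h
    · exact Or.inl h
    · exact Or.inr hv
  have hn1 : ∃ v, g v = l1 ∧ z v ≠ 0 := by
    by_contra hcon
    push Not at hcon
    obtain ⟨v, hv, hvz⟩ := hmerged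
    rcases hv with hv | hv
    · exact hvz (hcon v hv)
    · obtain ⟨w, hw, hw2⟩ := D.inj j2 i l2 hil2 hi2 hl2 z v hv hvz
      apply hw2
      rw [← hrow w hw]
      exact (D.deriv_deg j1 i l1 hil1 hi1 hl1 w hw).eval_eq_zero l1 (by simp) hcon
  have hn2 : ∃ v, g v = l2 ∧ z v ≠ 0 := by
    by_contra hcon
    push Not at hcon
    obtain ⟨v, hv, hvz⟩ := hmerged
    rcases hv with hv | hv
    · obtain ⟨w, hw, hw2⟩ := D.inj j1 i l1 hil1 hi1 hl1 z v hv hvz
      apply hw2
      rw [hrow w hw]
      exact (D.deriv_deg j2 i l2 hil2 hi2 hl2 w hw).eval_eq_zero l2 (by simp) hcon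
    · exact hvz (hcon v hv)
  have hzX : z ∈ zeros g F := by
    refine ⟨?_, fun j => hz2 (Sum.inr j)⟩
    intro x
    by_cases h1 : x = l1
    · rw [h1]; exact hn1
    · by_cases h2 : x = l2
      · rw [h2]; exact hn2
      · obtain ⟨v0, hv0⟩ := hgne x
        obtain ⟨v, hv, hvz⟩ := hz x ⟨v0, by simp only [g1, hv0]; exact hmne x h1⟩
        refine ⟨v, ?_, hvz⟩
        simp only [g1, m] at hv
        split_ifs at hv with h
        · exact absurd hv.symm h2
        · exact hv
  have h4 := D.hP i z hzX (Pi.single j2 1 - Pi.single j1 1) (by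
    intro j' hj'
    have h5 : j' ≠ j1 := by rintro rfl; exact hi1 hj'
    have h6 : j' ≠ j2 := by rintro rfl; exact hi2 hj'
    simp [h5, h6]) (by
    intro w hw
    have h7 : ∀ j, (Pi.single j2 1 - Pi.single j1 1 : ι → ℂ) j * eval z (pderiv w (F j)) =
        (if j = j2 then eval z (pderiv w (F j)) else 0) -
        (if j = j1 then eval z (pderiv w (F j)) else 0) := by
      intro j
      simp only [Pi.sub_apply, Pi.single_apply]
      split_ifs <;> ring
    simp_rw [h7]
    rw [Finset.sum_sub_distrib, Finset.sum_ite_eq', Finset.sum_ite_eq']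
    simp only [Finset.mem_univ, if_true]
    rw [hrow w hw, sub_self]) j2
  simp [Ne.symm hj] at h4

theorem Datum.disjoint (D : Datum g F d n) (j1 j2 : ι) (hj : j1 ≠ j2) (i : Fin k)
    (hi1 : d j1 i ≠ 0) (hi2 : d j2 i ≠ 0) : False := by
  obtain ⟨l1, hil1, hl1⟩ := D.avoid j1 i
  obtain ⟨l2, hil2, hl2⟩ := D.avoid j2 i
  by_cases h : l1 = l2
  · subst h
    exact D.no_double j1 j2 hj i l1 (Ne.symm hil1) hi1 hl1 hi2 hl2
  · exact D.no_path j1 j2 hj i l1 l2 h (Ne.symm hil1) (Ne.symm hil2) hi1 hl1 hi2 hl2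

end Pool.Agent.Helper558_CP
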