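import Mathlib
import Pool.Agent.Helper558_CP.Class2

/-!
# Closed sets, linear coordinates and cells
-/

open MvPolynomial

namespace Pool.Agent.Helper558_CP

variable {V : Type} [Fintype V] {k : ℕ}

theorem isClosedSet_empty (g : V → Fin k) : IsClosedSet g ∅ := by
  refine ⟨{1}, ?_, ?_⟩
  · rintro f rfl
    exact ⟨0, by rw [← C_1]; exact MH.C g 1⟩
  · ext z
    simp

theorem isClosedSet_union {g : V → Fin k} {A B : Set (V → ℂ)} (hA : IsClosedSet g A)
    (hB : IsClosedSet g B) : IsClosedSet g (A ∪ B) := by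
  obtain ⟨TA, hTA, rfl⟩ := hA
  obtain ⟨TB, hTB, rfl⟩ := hB
  refine ⟨{f | ∃ p ∈ TA, ∃ q ∈ TB, f = p * q}, ?_, ?_⟩
  · rintro f ⟨p, hp, q, hq, rfl⟩
    obtain ⟨δ, hδ⟩ := hTA p hp
    obtain ⟨δ', hδ'⟩ := hTB q hq
    exact ⟨δ + δ', hδ.mul hδ'⟩
  · ext z
    constructor
    · rintro (⟨h1, h2⟩ | ⟨h1, h2⟩)
      · refine ⟨h1, ?_⟩
        rintro f ⟨p, hp, q, hq, rfl⟩
        rw [map_mul, h2 p hp, zero_mul]
      · refine ⟨h1, ?_⟩
        rintro f ⟨p, hp, q, hq, rfl⟩
        rw [map_mul, h2 q hq, mul_zero]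
    · rintro ⟨h1, h2⟩
      by_cases h : ∀ f ∈ TA, eval z f = 0
      · exact Or.inl ⟨h1, h⟩
      · push Not at h
        obtain ⟨p, hp, hpz⟩ := h
        refine Or.inr ⟨h1, fun q hq => ?_⟩
        have := h2 (p * q) ⟨p, hp, q, hq, rfl⟩
        rw [map_mul] at this
        exact (mul_eq_zero.1 this).resolve_left hpz

theorem isClosedSet_biUnion {g : V → Fin k} {α : Type} (S : Finset α) (A : α → Set (V → ℂ))
    (hA : ∀ a ∈ S, IsClosedSet g (A a)) : IsClosedSet g (⋃ a ∈ S, A a) := by
  classical
  induction S using Finset.induction_on with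
  | empty => simpa using isClosedSet_empty g
  | insert a S ha ih =>
    rw [Finset.set_biUnion_insert]
    exact isClosedSet_union (hA a (Finset.mem_insert_self _ _))
      (ih fun b hb => hA b (Finset.mem_insert_of_mem hb))

/-- The inverse of a linear change of coordinates in every group. -/
theorem exists_inverse [DecidableEq V] (g : V → Fin k) (U : V → MvPolynomial V ℂ)
    (hU : ∀ v, MH g (U v) (Pi.single (g v) 1))
    (hinj : ∀ z : V → ℂ, (∀ v, eval z (U v) = 0) → z = 0) :
    ∃ W : V → V → ℂ, (∀ w v, g w ≠ g v → W w v = 0) ∧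
      (∀ z : V → ℂ, ∀ w, ∑ v, W w v * eval z (U v) = z w) ∧
      ∀ u : V → ℂ, ∀ v, eval (fun w => ∑ v', W w v' * u v') (U v) = u v := by
  classical
  let h : V → V → ℂ := fun v x => if g x = g v then coeff (Finsupp.single x 1) (U v) else 0
  have hev : ∀ v z, eval z (U v) = ∑ x, h v x * z x := by
    intro v z
    have h1 := (hU v).eq_linF
    conv_lhs => rw [h1]
    rw [eval_linF]
    refine Finset.sum_congr rfl fun x _ => ?_
    simp only [h]
    split_ifs <;> simp
  let Λ : (V → ℂ) →ₗ[ℂ] (V → ℂ) := LinearMap.pi fun v => ∑ x, h v x • LinearMap.proj x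
  have hΛ : ∀ z v, Λ z v = eval z (U v) := by
    intro z v
    rw [hev]
    simp [Λ]
  have hΛinj : Function.Injective Λ := by
    rw [injective_iff_map_eq_zero]
    intro z hz
    apply hinj
    intro v
    rw [← hΛ, hz]
    rfl
  let E := LinearEquiv.ofInjectiveEndo Λ hΛinj
  have hE : ∀ z, E z = Λ z := fun z => rfl
  have hsum : ∀ u : V → ℂ, ∀ w, E.symm u w = ∑ v, E.symm (Pi.single v 1) w * u v := by
    intro u w
    have h1 : u = ∑ v, u v • (Pi.single v (1 : ℂ) : V → ℂ) := by
      funext x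
      rw [Finset.sum_apply]
      simp [Pi.single_apply]
    conv_lhs => rw [h1]
    rw [map_sum, Finset.sum_apply]
    refine Finset.sum_congr rfl fun v _ => ?_
    rw [map_smul, Pi.smul_apply, smul_eq_mul, mul_comm]
  refine ⟨fun w v => E.symm (Pi.single v 1) w, ?_, ?_, ?_⟩
  · intro w v hwv
    set y := E.symm (Pi.single v 1) with hy
    have hΛy : Λ y = Pi.single v 1 := by rw [← hE, hy, LinearEquiv.apply_symm_apply]
    have h2 : (fun x => if g x = g v then y x else 0) = y := by
      apply hΛinj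
      funext x
      rw [hΛ]
      by_cases hx : g x = g v
      · rw [hΛ]
        apply (hU x).eval_congr
        intro x' hx'
        have : g x' = g x := by
          by_contra h3
          apply hx'
          rw [Pi.single_apply, if_neg h3]
        rw [if_pos (this.trans hx)]
      · rw [hΛy, Pi.single_apply, if_neg (fun h => hx (by rw [h]))]
        apply (hU x).eval_eq_zero (g x) (by simp)
        intro x' hx'
        rw [if_neg (by rw [hx']; exact hx)]
    have h3 := congrFun h2 w
    rw [if_neg hwv] at h3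
    exact h3.symm
  · intro z w
    have h1 := hsum (Λ z) w
    rw [← hE, LinearEquiv.symm_apply_apply] at h1
    rw [h1]
    refine Finset.sum_congr rfl fun v _ => ?_
    rw [hE, hΛ]
  · intro u v
    have h1 : (fun w => ∑ v', E.symm (Pi.single v' 1) w * u v') = E.symm u := by
      funext w
      rw [hsum]
    rw [h1, ← hΛ, ← hE, LinearEquiv.apply_symm_apply]

end Pool.Agent.Helper558_CP
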