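import Mathlib
import Pool.Agent.Helper558_CP.Cells

/-!
# The cellular decomposition
-/

open MvPolynomial

namespace Pool.Agent.Helper558_CP

variable {k : ℕ} {n : Fin k → ℕ} {ι : Type}

/-- The value of the linear coordinate with index `c` in the group `i`. -/
noncomputable def uu (U : (Σ i : Fin k, Fin (n i + 1)) → MvPolynomial (Σ i : Fin k, Fin (n i + 1)) ℂ)
    (z : (Σ i : Fin k, Fin (n i + 1)) → ℂ) (i : Fin k) (c : ℕ) : ℂ :=
  if h : c < n i + 1 then eval z (U ⟨i, ⟨c, h⟩⟩) else 0

/-- The coordinates which are eliminated by the equations. -/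
def Elim (n : Fin k → ℕ) (s t : ι → Fin k) (T : Fin k → ℕ) (i : Fin k) (c : ℕ) : Prop :=
  ∃ j, i = s j ∧ T (s j) + T (t j) < n (s j) ∧ c + T (t j) = n (s j)

/-- The index type of the coordinates of a cell. -/
abbrev CellIdx (n : Fin k → ℕ) (s t : ι → Fin k) (T : Fin k → ℕ) : Type :=
  {v : Σ i : Fin k, Fin (n i + 1) // T v.1 < v.2.val ∧ ¬ Elim n s t T v.1 v.2.val}

open Classical in
/-- The free coordinates of a cell, as polynomials. -/
noncomputable def ups0 (n : Fin k → ℕ) (s t : ι → Fin k) (T : Fin k → ℕ) (i : Fin k) (c : ℕ) :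
    MvPolynomial (CellIdx n s t T) ℂ :=
  if h : c < n i + 1 ∧ T i < c ∧ ¬ Elim n s t T i c then X ⟨⟨i, ⟨c, h.1⟩⟩, h.2⟩
  else if c = T i then 1 else 0

open Classical in
/-- All coordinates of a cell, as polynomials. -/
noncomputable def ups (n : Fin k → ℕ) (s t : ι → Fin k) (T : Fin k → ℕ) (i : Fin k) (c : ℕ) :
    MvPolynomial (CellIdx n s t T) ℂ :=
  if h : Elim n s t T i c then
    - ∑ c' ∈ Finset.range c, ups0 n s t T i c' * ups0 n s t T (t h.choose) (n i - c')
  else ups0 n s t T i c

theorem ups0_lt (s t : ι → Fin k) (T : Fin k → ℕ) (i : Fin k) (c : ℕ) (hc : c < T i) :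
    ups0 n s t T i c = 0 := by
  unfold ups0
  rw [dif_neg (by omega), if_neg (by omega)]

theorem ups0_eq (s t : ι → Fin k) (T : Fin k → ℕ) (i : Fin k) : ups0 n s t T i (T i) = 1 := by
  unfold ups0
  rw [dif_neg (by omega), if_pos rfl]

theorem ups_of_not (s t : ι → Fin k) (T : Fin k → ℕ) (i : Fin k) (c : ℕ) (h : ¬ Elim n s t T i c) :
    ups n s t T i c = ups0 n s t T i c := by
  unfold ups
  rw [dif_neg h]

theorem ups_of_elim (s t : ι → Fin k) (hs : Function.Injective s) (T : Fin k → ℕ) (j : ι) (c : ℕ)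
    (h : Elim n s t T (s j) c) : ups n s t T (s j) c =
      - ∑ c' ∈ Finset.range c, ups0 n s t T (s j) c' * ups0 n s t T (t j) (n (s j) - c') := by
  unfold ups
  rw [dif_pos h]
  have : h.choose = j := (hs h.choose_spec.1).symm
  rw [this]

theorem not_elim_t (s t : ι → Fin k) (hst : ∀ j j', s j ≠ t j') (T : Fin k → ℕ) (j : ι) (c : ℕ) :
    ¬ Elim n s t T (t j) c := by
  rintro ⟨j', h1, _⟩
  exact hst j' j h1.symm

theorem elim_s (s t : ι → Fin k) (hs : Function.Injective s) (T : Fin k → ℕ) (j : ι) (c : ℕ) :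
    Elim n s t T (s j) c ↔ T (s j) + T (t j) < n (s j) ∧ c + T (t j) = n (s j) := by
  constructor
  · rintro ⟨j', h1, h2, h3⟩
    have := hs h1
    subst this
    exact ⟨h2, h3⟩
  · rintro ⟨h1, h2⟩
    exact ⟨j, rfl, h1, h2⟩

/-- The equations in terms of the coordinates. -/
theorem sum_split (f : ℕ → ℂ) (N c0 : ℕ) (hc0 : c0 ≤ N) (hf : ∀ c, c0 < c → c ≤ N → f c = 0) :
    ∑ c ∈ Finset.range (N + 1), f c = ∑ c ∈ Finset.range c0, f c + f c0 := by
  rw [← Finset.sum_range_succ]
  symm
  apply Finset.sum_subset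
  · intro c hc
    rw [Finset.mem_range] at hc ⊢
    omega
  · intro c hc hc2
    rw [Finset.mem_range] at hc hc2
    exact hf c (by omega) (by omega)

theorem ups_equation (s t : ι → Fin k) (hs : Function.Injective s) (hst : ∀ j j', s j ≠ t j')
    (T : Fin k → ℕ)
    (hne : ∀ j, T (s j) + T (t j) ≠ n (s j)) (j : ι) (p : CellIdx n s t T → ℂ) :
    ∑ c ∈ Finset.range (n (s j) + 1), eval p (ups n s t T (s j) c) *
      eval p (ups n s t T (t j) (n (s j) - c)) = 0 := by
  by_cases h : T (s j) + T (t j) < n (s j)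
  · have hc0 : n (s j) - T (t j) ≤ n (s j) := Nat.sub_le _ _
    rw [sum_split _ _ _ hc0]
    · have h1 : Elim n s t T (s j) (n (s j) - T (t j)) := by
        rw [elim_s s t hs]
        exact ⟨h, by omega⟩
      have h2 : n (s j) - (n (s j) - T (t j)) = T (t j) := by omega
      rw [ups_of_elim s t hs T j _ h1, h2, ups_of_not s t T (t j) _ (not_elim_t s t hst T j _),
        ups0_eq, map_one, mul_one, map_neg, map_sum, ← sub_eq_add_neg, sub_eq_zero]
      refine Finset.sum_congr rfl fun c hc => ?_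
      rw [Finset.mem_range] at hc
      have h3 : ¬ Elim n s t T (s j) c := by
        rw [elim_s s t hs]
        omega
      rw [ups_of_not s t T (s j) _ h3, ups_of_not s t T (t j) _ (not_elim_t s t hst T j _), map_mul]
    · intro c hc1 hc2
      rw [ups_of_not s t T (t j) _ (not_elim_t s t hst T j _), ups0_lt s t T (t j), map_zero,
        mul_zero]
      omega
  · apply Finset.sum_eq_zero
    intro c hc
    rw [Finset.mem_range] at hc
    have h4 := hne j
    by_cases hcs : c < T (s j)
    · have h3 : ¬ Elim n s t T (s j) c := by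
        rw [elim_s s t hs]
        omega
      rw [ups_of_not s t T (s j) _ h3, ups0_lt s t T (s j) _ hcs, map_zero, zero_mul]
    · rw [ups_of_not s t T (t j) _ (not_elim_t s t hst T j _), ups0_lt s t T (t j), map_zero,
        mul_zero]
      omega

/-- A cell. -/
def cellSet (F : ι → MvPolynomial (Σ i : Fin k, Fin (n i + 1)) ℂ)
    (U : (Σ i : Fin k, Fin (n i + 1)) → MvPolynomial (Σ i : Fin k, Fin (n i + 1)) ℂ)
    (T : Fin k → ℕ) : Set ((Σ i : Fin k, Fin (n i + 1)) → ℂ) :=
  {z | z ∈ zeros Sigma.fst F ∧ ∀ i, (∀ c < T i, uu U z i c = 0) ∧ uu U z i (T i) ≠ 0}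

theorem cell_affine (F : ι → MvPolynomial (Σ i : Fin k, Fin (n i + 1)) ℂ)
    (U : (Σ i : Fin k, Fin (n i + 1)) → MvPolynomial (Σ i : Fin k, Fin (n i + 1)) ℂ)
    (hU : ∀ v, MH Sigma.fst (U v) (Pi.single v.1 1))
    (hinj : ∀ z : (Σ i : Fin k, Fin (n i + 1)) → ℂ, (∀ v, eval z (U v) = 0) → z = 0)
    (s t : ι → Fin k) (hs : Function.Injective s) (hst : ∀ j j', s j ≠ t j')
    (hn : ∀ j, n (s j) = n (t j))
    (hF : ∀ z j, eval z (F j) = 0 ↔
      ∑ c ∈ Finset.range (n (s j) + 1), uu U z (s j) c * uu U z (t j) (n (s j) - c) = 0)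
    (T : Fin k → ℕ) (hT : ∀ i, T i ≤ n i) (hne : ∀ j, T (s j) + T (t j) ≠ n (s j)) :
    IsAffineCell Sigma.fst (cellSet F U T) := by
  classical
  obtain ⟨W, hW0, hW1, hW2⟩ := exists_inverse Sigma.fst U hU hinj
  let φ : (Σ i : Fin k, Fin (n i + 1)) → MvPolynomial (CellIdx n s t T) ℂ := fun v =>
    ∑ v', C (W v v') * ups n s t T v'.1 v'.2.val
  have hφU : ∀ (p : CellIdx n s t T → ℂ) v, eval (fun v => eval p (φ v)) (U v) =
      eval p (ups n s t T v.1 v.2.val) := by
    intro p v
    have h1 : (fun v => eval p (φ v)) =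
        fun w => ∑ v', W w v' * eval p (ups n s t T v'.1 v'.2.val) := by
      funext w
      simp only [φ]
      rw [map_sum]
      refine Finset.sum_congr rfl fun v' _ => ?_
      rw [map_mul, eval_C]
    rw [h1]
    exact hW2 (fun v' => eval p (ups n s t T v'.1 v'.2.val)) v
  have hφu : ∀ (p : CellIdx n s t T → ℂ) i c, c < n i + 1 → uu U (fun v => eval p (φ v)) i c =
      eval p (ups n s t T i c) := by
    intro p i c hc
    unfold uu
    rw [dif_pos hc]
    exact hφU p ⟨i, ⟨c, hc⟩⟩
  have hups_lt : ∀ i c, c < T i → ups n s t T i c = 0 := by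
    intro i c hc
    by_cases h : Elim n s t T i c
    · obtain ⟨j, h1, h2, h3⟩ := h
      subst h1
      omega
    · rw [ups_of_not s t T i c h, ups0_lt s t T i c hc]
  have hups_eq : ∀ i, ups n s t T i (T i) = 1 := by
    intro i
    have h : ¬ Elim n s t T i (T i) := by
      rintro ⟨j, h1, h2, h3⟩
      subst h1
      omega
    rw [ups_of_not s t T i _ h, ups0_eq]
  have hFin : Finite (CellIdx n s t T) := by unfold CellIdx; infer_instance
  refine ⟨CellIdx n s t T, Fintype.ofFinite _, φ, fun x => U x.1,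
    fun x => U ⟨x.1.1, ⟨T x.1.1, Nat.lt_succ_of_le (hT _)⟩⟩, ?_, ?_, ?_, ?_⟩
  · intro x
    exact ⟨Pi.single x.1.1 1, hU _, hU _⟩
  · intro z hz x
    have h1 := (hz.2 x.1.1).2
    unfold uu at h1
    rw [dif_pos (Nat.lt_succ_of_le (hT _))] at h1
    exact h1
  · intro p
    refine ⟨⟨⟨?_, ?_⟩, ?_⟩, ?_⟩
    · intro i
      by_contra hcon
      push Not at hcon
      have h1 := hφu p i (T i) (Nat.lt_succ_of_le (hT i))
      rw [hups_eq, map_one] at h1
      unfold uu at h1
      rw [dif_pos (Nat.lt_succ_of_le (hT i))] at h1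
      have h2 := (hU ⟨i, ⟨T i, Nat.lt_succ_of_le (hT i)⟩⟩).eval_eq_zero i (by simp)
        (z := fun v => eval p (φ v)) hcon
      rw [h1] at h2
      exact one_ne_zero h2
    · intro j
      rw [hF]
      have h1 := ups_equation s t hs hst T hne j p
      rw [← h1]
      refine Finset.sum_congr rfl fun c hc => ?_
      rw [Finset.mem_range] at hc
      rw [hφu p _ _ hc, hφu p _ _ (by rw [← hn j]; omega)]
    · intro i
      refine ⟨?_, ?_⟩
      · intro c hc
        rw [hφu p i c (by have := hT i; omega), hups_lt i c hc, map_zero]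
      · rw [hφu p i _ (Nat.lt_succ_of_le (hT i)), hups_eq, map_one]
        exact one_ne_zero
    · intro x
      rw [hφU, hφU]
      simp only
      rw [hups_eq, map_one, mul_one, ups_of_not s t T _ _ x.2.2]
      unfold ups0
      rw [dif_pos ⟨x.1.2.2, x.2⟩, eval_X]
  · intro z hz
    refine ⟨fun i => uu U z i (T i), fun i => (hz.2 i).2, ?_⟩
    set p : CellIdx n s t T → ℂ := fun x => eval z (U x.1) /
      eval z (U ⟨x.1.1, ⟨T x.1.1, Nat.lt_succ_of_le (hT _)⟩⟩) with hp
    have hp' : ∀ x : CellIdx n s t T, p x = uu U z x.1.1 x.1.2.val / uu U z x.1.1 (T x.1.1) := by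
      intro x
      unfold uu
      rw [dif_pos x.1.2.2, dif_pos (Nat.lt_succ_of_le (hT _))]
    have hval0 : ∀ i c, c < n i + 1 → ¬ Elim n s t T i c →
        eval p (ups0 n s t T i c) = uu U z i c / uu U z i (T i) := by
      intro i c hc h
      by_cases h1 : c < T i
      · rw [ups0_lt s t T i c h1, map_zero, (hz.2 i).1 c h1, zero_div]
      · by_cases h2 : c = T i
        · rw [h2, ups0_eq, map_one, div_self (hz.2 i).2]
        · unfold ups0
          have h3 : c < n i + 1 ∧ T i < c ∧ ¬ Elim n s t T i c := ⟨hc, by omega, h⟩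
          rw [dif_pos h3, eval_X, hp']
    have hval : ∀ i c, c < n i + 1 →
        eval p (ups n s t T i c) = uu U z i c / uu U z i (T i) := by
      intro i c hc
      by_cases h : Elim n s t T i c
      · have h' := h
        obtain ⟨j, h1, h2, h3⟩ := h
        subst h1
        rw [ups_of_elim s t hs T j c h', map_neg, map_sum]
        have h4 := (hF z j).1 (hz.1.2 j)
        have hc0 : c ≤ n (s j) := by omega
        rw [sum_split _ _ c hc0] at h4
        · have h5 : n (s j) - c = T (t j) := by omega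
          rw [h5] at h4
          have h6 : ∑ c' ∈ Finset.range c, eval p (ups0 n s t T (s j) c' *
              ups0 n s t T (t j) (n (s j) - c')) =
              (∑ c' ∈ Finset.range c, uu U z (s j) c' * uu U z (t j) (n (s j) - c')) /
                (uu U z (s j) (T (s j)) * uu U z (t j) (T (t j))) := by
            rw [Finset.sum_div]
            refine Finset.sum_congr rfl fun c' hc' => ?_
            rw [Finset.mem_range] at hc'
            have h7 : ¬ Elim n s t T (s j) c' := by
              rw [elim_s s t hs]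
              omega
            rw [map_mul, hval0 _ _ (by omega) h7,
              hval0 _ _ (by rw [← hn j]; omega) (not_elim_t s t hst T j _), div_mul_div_comm]
          rw [h6]
          have h8 := (hz.2 (s j)).2
          have h9 := (hz.2 (t j)).2
          field_simp
          linear_combination -h4
        · intro c' hc1 hc2
          rw [(hz.2 (t j)).1 _ (by omega), mul_zero]
      · rw [ups_of_not s t T i c h]
        exact hval0 i c hc h
    intro v
    have h1 : eval p (φ v) = ∑ v', W v v' * (uu U z v'.1 v'.2.val / uu U z v'.1 (T v'.1)) := by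
      simp only [φ]
      rw [map_sum]
      refine Finset.sum_congr rfl fun v' _ => ?_
      rw [map_mul, eval_C, hval _ _ v'.2.2]
    rw [h1, Finset.mul_sum, ← hW1 z v]
    refine Finset.sum_congr rfl fun v' _ => ?_
    by_cases hv : v.1 = v'.1
    · obtain ⟨i', a⟩ := v'
      simp only at hv
      subst hv
      have h2 := (hz.2 v.1).2
      have h3 : eval z (U ⟨v.1, a⟩) = uu U z v.1 a.val := by
        unfold uu
        rw [dif_pos a.2]
      rw [h3]
      field_simp
    · rw [hW0 v v' hv]
      ring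

end Pool.Agent.Helper558_CP
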