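import Mathlib
import Pool.Agent.Helper558_CP.Cells2

/-!
# The chain of closed subsets
-/

open MvPolynomial

namespace Pool.Agent.Helper558_CP

variable {k : ℕ} {n : Fin k → ℕ} {ι : Type}

/-- Points all of whose coordinates with small indices vanish. -/
def lowSet (F : ι → MvPolynomial (Σ i : Fin k, Fin (n i + 1)) ℂ)
    (U : (Σ i : Fin k, Fin (n i + 1)) → MvPolynomial (Σ i : Fin k, Fin (n i + 1)) ℂ)
    (T : Fin k → ℕ) : Set ((Σ i : Fin k, Fin (n i + 1)) → ℂ) :=
  {z | z ∈ zeros Sigma.fst F ∧ ∀ i, ∀ c < T i, uu U z i c = 0}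

theorem lowSet_closed (F : ι → MvPolynomial (Σ i : Fin k, Fin (n i + 1)) ℂ)
    (U : (Σ i : Fin k, Fin (n i + 1)) → MvPolynomial (Σ i : Fin k, Fin (n i + 1)) ℂ)
    (hFM : ∀ j, ∃ δ, MH Sigma.fst (F j) δ)
    (hU : ∀ v, MH Sigma.fst (U v) (Pi.single v.1 1)) (T : Fin k → ℕ) :
    IsClosedSet Sigma.fst (lowSet F U T) := by
  refine ⟨{f | (∃ j, f = F j) ∨ ∃ v : (Σ i : Fin k, Fin (n i + 1)), v.2.val < T v.1 ∧ f = U v},
    ?_, ?_⟩
  · rintro f (⟨j, rfl⟩ | ⟨v, _, rfl⟩)
    · exact hFM j
    · exact ⟨_, hU v⟩
  · ext z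
    constructor
    · rintro ⟨⟨h1, h2⟩, h3⟩
      refine ⟨h1, ?_⟩
      rintro f (⟨j, rfl⟩ | ⟨v, hv, rfl⟩)
      · exact h2 j
      · have := h3 v.1 v.2.val hv
        unfold uu at this
        rw [dif_pos v.2.2] at this
        exact this
    · rintro ⟨h1, h2⟩
      refine ⟨⟨h1, fun j => h2 _ (Or.inl ⟨j, rfl⟩)⟩, ?_⟩
      intro i c hc
      unfold uu
      split_ifs with h
      · exact h2 _ (Or.inr ⟨⟨i, ⟨c, h⟩⟩, hc, rfl⟩)
      · rfl

theorem exists_uu_ne (U : (Σ i : Fin k, Fin (n i + 1)) → MvPolynomial (Σ i : Fin k, Fin (n i + 1)) ℂ)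
    (hU : ∀ v, MH Sigma.fst (U v) (Pi.single v.1 1))
    (hinj : ∀ z : (Σ i : Fin k, Fin (n i + 1)) → ℂ, (∀ v, eval z (U v) = 0) → z = 0)
    (z : (Σ i : Fin k, Fin (n i + 1)) → ℂ) (hz : Rel Sigma.fst z) (i : Fin k) :
    ∃ c, c < n i + 1 ∧ uu U z i c ≠ 0 := by
  by_contra hcon
  push Not at hcon
  obtain ⟨v, hv, hvz⟩ := hz i
  have h1 : (fun x : (Σ i : Fin k, Fin (n i + 1)) => if x.1 = i then z x else 0) = 0 := by
    apply hinj
    rintro ⟨i', a⟩
    by_cases hi : i' = i
    · subst hi
      have h2 := hcon a.val a.2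
      unfold uu at h2
      rw [dif_pos a.2] at h2
      rw [← h2]
      apply (hU ⟨i', a⟩).eval_congr
      intro x hx
      have : x.1 = i' := by
        by_contra h3
        apply hx
        rw [Pi.single_apply, if_neg h3]
      rw [if_pos this]
    · apply (hU ⟨i', a⟩).eval_eq_zero i' (by simp)
      intro x hx
      rw [if_neg (by rw [hx]; exact hi)]
  have h2 := congrFun h1 v
  rw [if_pos hv] at h2
  exact hvz h2

theorem has_decomposition (F : ι → MvPolynomial (Σ i : Fin k, Fin (n i + 1)) ℂ)
    (U : (Σ i : Fin k, Fin (n i + 1)) → MvPolynomial (Σ i : Fin k, Fin (n i + 1)) ℂ)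
    (hFM : ∀ j, ∃ δ, MH Sigma.fst (F j) δ)
    (hU : ∀ v, MH Sigma.fst (U v) (Pi.single v.1 1))
    (hinj : ∀ z : (Σ i : Fin k, Fin (n i + 1)) → ℂ, (∀ v, eval z (U v) = 0) → z = 0)
    (s t : ι → Fin k) (hs : Function.Injective s) (hst : ∀ j j', s j ≠ t j')
    (hn : ∀ j, n (s j) = n (t j))
    (hF : ∀ z j, eval z (F j) = 0 ↔
      ∑ c ∈ Finset.range (n (s j) + 1), uu U z (s j) c * uu U z (t j) (n (s j) - c) = 0) :
    HasCellularDecomposition Sigma.fst (zeros Sigma.fst F) := by
  classical
  let B : ℕ := ∑ i, n i + 1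
  have hB : ∀ i, n i < B := fun i => Nat.lt_succ_of_le (Finset.single_le_sum (f := n)
    (fun _ _ => Nat.zero_le _) (Finset.mem_univ i))
  let L : (Fin k → Fin B) → ℕ := fun T => ∑ i, (T i : ℕ) * B ^ (i : ℕ)
  have hL : ∀ T, L T = (finFunctionFinEquiv T).val := fun T => (finFunctionFinEquiv_apply T).symm
  have hmono : ∀ T T' : Fin k → Fin B, (∀ i, T i ≤ T' i) → L T ≤ L T' := by
    intro T T' h
    apply Finset.sum_le_sum
    intro i _
    exact Nat.mul_le_mul_right _ (h i)
  let Y : ℕ → Set ((Σ i : Fin k, Fin (n i + 1)) → ℂ) := fun m =>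
    ⋃ T ∈ (Finset.univ.filter fun T : Fin k → Fin B => m ≤ L T), lowSet F U (fun i => (T i : ℕ))
  have hYmem : ∀ m z, z ∈ Y m ↔ ∃ T : Fin k → Fin B, m ≤ L T ∧ z ∈ lowSet F U (fun i => (T i : ℕ)) := by
    intro m z
    simp only [Y, Set.mem_iUnion, Finset.mem_filter, Finset.mem_univ, true_and, exists_prop]
  refine ⟨B ^ k, Y, ?_, ?_, ?_, ?_⟩
  · intro m
    exact isClosedSet_biUnion _ _ fun T _ => lowSet_closed F U hFM hU _
  · ext z
    rw [hYmem]
    constructor
    · rintro ⟨T, _, hT⟩
      exact hT.1
    · intro hz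
      refine ⟨fun _ => ⟨0, Nat.succ_pos _⟩, Nat.zero_le _, hz, ?_⟩
      intro i c hc
      simp at hc
  · rw [Set.eq_empty_iff_forall_notMem]
    intro z hz
    rw [hYmem] at hz
    obtain ⟨T, hT, _⟩ := hz
    rw [hL] at hT
    have := (finFunctionFinEquiv T).2
    omega
  · intro m hm
    refine ⟨?_, ?_⟩
    · intro z hz
      rw [hYmem] at hz ⊢
      obtain ⟨T, hT, hT2⟩ := hz
      exact ⟨T, by omega, hT2⟩
    · let T : Fin k → Fin B := finFunctionFinEquiv.symm ⟨m, hm⟩
      have hLT : L T = m := by rw [hL]; simp [T]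
      have hdiff : Y m \ Y (m + 1) = cellSet F U (fun i => (T i : ℕ)) := by
        ext z
        constructor
        · rintro ⟨h1, h2⟩
          rw [hYmem] at h1 h2
          obtain ⟨T', hT', hz⟩ := h1
          have hLT' : L T' = m := by
            by_contra h
            exact h2 ⟨T', by omega, hz⟩
          have hTT : T' = T := by
            apply finFunctionFinEquiv.injective
            apply Fin.ext
            rw [← hL, ← hL, hLT', hLT]
          rw [hTT] at hz
          clear hTT hLT' hT' T'
          refine ⟨hz.1, fun i => ⟨hz.2 i, ?_⟩⟩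
          intro h0
          simp only at h0
          apply h2
          obtain ⟨c, hc, hcne⟩ := exists_uu_ne U hU hinj z hz.1.1 i
          have hlt : (T i : ℕ) + 1 < B := by
            have h3 : (T i : ℕ) < c := by
              rcases lt_trichotomy (T i : ℕ) c with h | h | h
              · exact h
              · rw [h] at h0; exact absurd h0 hcne
              · exact absurd (hz.2 i c h) hcne
            have := hB i
            omega
          refine ⟨Function.update T i ⟨(T i : ℕ) + 1, hlt⟩, ?_, hz.1, ?_⟩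
          · have h4 : L T < L (Function.update T i ⟨(T i : ℕ) + 1, hlt⟩) := by
              apply Finset.sum_lt_sum
              · intro x _
                apply Nat.mul_le_mul_right
                by_cases hx : x = i
                · subst hx
                  rw [Function.update_self]
                  simp
                · rw [Function.update_of_ne hx]
              · refine ⟨i, Finset.mem_univ _, ?_⟩
                rw [Function.update_self]
                apply Nat.mul_lt_mul_of_pos_right
                · simp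
                · exact Nat.pow_pos (Nat.succ_pos _)
            omega
          · intro x c' hc'
            simp only at hc'
            by_cases hx : x = i
            · subst hx
              rw [Function.update_self] at hc'
              rcases Nat.lt_succ_iff_lt_or_eq.1 hc' with h | h
              · exact hz.2 x c' h
              · rw [h]; exact h0
            · rw [Function.update_of_ne hx] at hc'
              exact hz.2 x c' hc'
        · rintro ⟨h1, h2⟩
          refine ⟨(hYmem _ _).2 ⟨T, by omega, h1, fun i => (h2 i).1⟩, ?_⟩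
          intro h3
          rw [hYmem] at h3
          obtain ⟨T', hT', hz⟩ := h3
          have h4 : ∀ i, T' i ≤ T i := by
            intro i
            by_contra h5
            push Not at h5
            exact (h2 i).2 (hz.2 i _ h5)
          have := hmono _ _ h4
          omega
      rw [hdiff]
      by_cases hT : ∀ i, (T i : ℕ) ≤ n i
      · by_cases hne : ∀ j, (T (s j) : ℕ) + T (t j) ≠ n (s j)
        · right
          exact cell_affine F U hU hinj s t hs hst hn hF (fun i => (T i : ℕ)) hT hne
        · left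
          push Not at hne
          obtain ⟨j, hj⟩ := hne
          rw [Set.eq_empty_iff_forall_notMem]
          rintro z ⟨h1, h2⟩
          have h3 := (hF z j).1 (h1.2 j)
          rw [sum_split _ _ (T (s j) : ℕ) (hT _)] at h3
          · rw [Finset.sum_eq_zero, zero_add] at h3
            · have h4 : n (s j) - (T (s j) : ℕ) = T (t j) := by omega
              rw [h4] at h3
              exact mul_ne_zero (h2 (s j)).2 (h2 (t j)).2 h3
            · intro c hc
              rw [Finset.mem_range] at hc
              rw [(h2 (s j)).1 c hc, zero_mul]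
          · intro c hc1 hc2
            rw [(h2 (t j)).1 (n (s j) - c) (by simp only; omega), mul_zero]
      · left
        push Not at hT
        obtain ⟨i, hi⟩ := hT
        rw [Set.eq_empty_iff_forall_notMem]
        rintro z ⟨h1, h2⟩
        apply (h2 i).2
        unfold uu
        rw [dif_neg (by simp only; omega)]

end Pool.Agent.Helper558_CP
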