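import Mathlib

/-!
# Solutions of linear systems depending polynomially on a parameter
-/

namespace Pool.Agent.Helper558_CP

open Filter Topology

/-- The solution of a linear system with independent columns depending polynomially on a parameter
is differentiable. -/
theorem gamma_diff {V ι : Type} [Fintype V] [Fintype ι] (D : ι → V → Polynomial ℂ)
    (η : V → ℂ) (γ : ℂ → ι → ℂ) (hγ : ∀ s, ∀ w, ∑ j, γ s j * (D j w).eval s = η w)
    (hind : ∀ s, LinearIndependent ℂ (fun j => fun w => (D j w).eval s)) (j : ι) :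
    Differentiable ℂ (fun s => γ s j) := by
  classical
  intro s0
  let f : (ι → ℂ) →ₗ[ℂ] (V → ℂ) := Fintype.linearCombination ℂ (fun j => fun w => (D j w).eval s0)
  have hf : LinearMap.ker f = ⊥ := by
    rw [LinearMap.ker_eq_bot]
    exact linearIndependent_iff_injective_fintypeLinearCombination.1 (hind s0)
  obtain ⟨L, hL⟩ := LinearMap.exists_leftInverse_of_injective f hf
  let Lm : ι → V → ℂ := fun i w => L (Pi.single w 1) i
  have hLm : ∀ (x : V → ℂ) i, L x i = ∑ w, Lm i w * x w := by
    intro x i
    have h1 : x = ∑ w, x w • (Pi.single w (1 : ℂ) : V → ℂ) := by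
      funext v
      rw [Finset.sum_apply]
      simp [Pi.single_apply]
    conv_lhs => rw [h1]
    rw [map_sum, Finset.sum_apply]
    refine Finset.sum_congr rfl fun w _ => ?_
    rw [map_smul, Pi.smul_apply, smul_eq_mul, mul_comm]
  let A : Matrix ι ι (Polynomial ℂ) := fun i j => ∑ w, Polynomial.C (Lm i w) * D j w
  have hA : ∀ s, ∀ i, ∑ j, (A i j).eval s * γ s j = ∑ w, Lm i w * η w := by
    intro s i
    simp only [A, Polynomial.eval_finsetSum, Polynomial.eval_mul, Polynomial.eval_C, Finset.sum_mul]
    rw [Finset.sum_comm]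
    refine Finset.sum_congr rfl fun w _ => ?_
    rw [← hγ s w, Finset.mul_sum]
    refine Finset.sum_congr rfl fun j _ => ?_
    ring
  have hdet : A.det.eval s0 = 1 := by
    have h1 : (Polynomial.evalRingHom s0) A.det = ((Polynomial.evalRingHom s0).mapMatrix A).det :=
      RingHom.map_det _ _
    have h2 : (Polynomial.evalRingHom s0).mapMatrix A = 1 := by
      ext i j
      rw [RingHom.mapMatrix_apply, Matrix.map_apply]
      have h3 := congrArg (fun h => h (Pi.single j 1) i) hL
      simp only [LinearMap.comp_apply, LinearMap.id_apply] at h3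
      rw [hLm] at h3
      have h4 : ∀ w, f (Pi.single j 1) w = (D j w).eval s0 := by
        intro w
        simp only [f, Fintype.linearCombination_apply, Finset.sum_apply, Pi.smul_apply, smul_eq_mul]
        rw [Finset.sum_eq_single j]
        · simp
        · intro b _ hb
          simp [hb]
        · simp
      simp only [h4] at h3
      simp only [A, Polynomial.coe_evalRingHom, Polynomial.eval_finsetSum, Polynomial.eval_mul,
        Polynomial.eval_C]
      rw [h3, Matrix.one_apply, Pi.single_apply]
    rw [h2, Matrix.det_one] at h1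
    exact h1
  have hcr : ∀ s, A.det.eval s * γ s j = ∑ i, (A.adjugate j i).eval s * ∑ w, Lm i w * η w := by
    intro s
    have h1 : (A.adjugate * A) j = (A.det • (1 : Matrix ι ι (Polynomial ℂ))) j := by
      rw [Matrix.adjugate_mul]
    simp_rw [← hA s, Finset.mul_sum]
    rw [Finset.sum_comm]
    have h2 : ∀ l, ∑ i, (A.adjugate j i).eval s * ((A i l).eval s * γ s l) =
        (if j = l then A.det.eval s * γ s l else 0) := by
      intro l
      have h3 := congrArg (Polynomial.eval s) (congrFun h1 l)
      rw [Matrix.mul_apply, Polynomial.eval_finsetSum, Matrix.smul_apply, Matrix.one_apply] at h3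
      simp only [Polynomial.eval_mul, smul_eq_mul] at h3
      have h4 : ∑ i, (A.adjugate j i).eval s * ((A i l).eval s * γ s l) =
          (∑ i, (A.adjugate j i).eval s * (A i l).eval s) * γ s l := by
        rw [Finset.sum_mul]
        refine Finset.sum_congr rfl fun i _ => ?_
        ring
      rw [h4, h3]
      split_ifs <;> simp
    simp_rw [h2]
    rw [Finset.sum_ite_eq]
    simp
  have hne : ∀ᶠ s in 𝓝 s0, A.det.eval s ≠ 0 := by
    apply (Polynomial.continuous A.det).continuousAt.eventually_ne
    rw [hdet]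
    exact one_ne_zero
  have heq : (fun s => γ s j) =ᶠ[𝓝 s0]
      fun s => (∑ i, (A.adjugate j i).eval s * ∑ w, Lm i w * η w) / A.det.eval s := by
    filter_upwards [hne] with s hs
    rw [eq_div_iff hs, ← hcr s, mul_comm]
  refine DifferentiableAt.congr_of_eventuallyEq ?_ heq
  apply DifferentiableAt.div
  · apply DifferentiableAt.fun_sum
    intro i _
    exact (Polynomial.differentiableAt _).mul_const _
  · exact Polynomial.differentiableAt _
  · rw [hdet]; exact one_ne_zero

/-- Sections of a direct sum of line bundles of negative degree on the projective line vanish. -/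
theorem gamma_zero {V ι : Type} [Fintype V] [Fintype ι] (D1 D2 : ι → V → Polynomial ℂ)
    (η : V → ℂ) (γ1 γ2 : ℂ → ι → ℂ) (e : ι → ℕ)
    (h1 : ∀ s, ∀ w, ∑ j, γ1 s j * (D1 j w).eval s = η w)
    (hind1 : ∀ s, LinearIndependent ℂ (fun j => fun w => (D1 j w).eval s))
    (h2 : ∀ s, ∀ w, ∑ j, γ2 s j * (D2 j w).eval s = η w)
    (hind2 : ∀ s, LinearIndependent ℂ (fun j => fun w => (D2 j w).eval s))
    (hrel : ∀ s, s ≠ 0 → ∀ j, s ^ e j * γ1 s j = γ2 s⁻¹ j) (j : ι) (hj : e j ≠ 0) :
    γ2 0 j = 0 := by
  have hd1 := gamma_diff D1 η γ1 h1 hind1 j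
  have hd2 := gamma_diff D2 η γ2 h2 hind2 j
  have hz : ∀ s, γ1 s j = 0 := by
    intro s
    apply hd1.apply_eq_of_tendsto_cocompact s
    have h3 : Tendsto (fun t : ℂ => t ^ e j * γ2 t j) (𝓝 0) (𝓝 0) := by
      have : ContinuousAt (fun t : ℂ => t ^ e j * γ2 t j) 0 :=
        (continuous_pow _).continuousAt.mul hd2.continuous.continuousAt
      have h4 := this.tendsto
      simpa [hj] using h4
    have h5 : Tendsto (fun s : ℂ => s⁻¹) (cocompact ℂ) (𝓝 0) := by
      rw [← Metric.cobounded_eq_cocompact]
      exact Filter.tendsto_inv₀_cobounded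
    refine (h3.comp h5).congr' ?_
    have h6 : ∀ᶠ s : ℂ in cocompact ℂ, s ≠ 0 := by
      have : ({0} : Set ℂ)ᶜ ∈ cocompact ℂ := (isCompact_singleton).compl_mem_cocompact
      filter_upwards [this] with s hs
      exact hs
    filter_upwards [h6] with s hs
    simp only [Function.comp]
    rw [← hrel s hs j, inv_pow, inv_mul_cancel_left₀ (pow_ne_zero _ hs)]
  have h7 : ∀ t, t ≠ 0 → γ2 t j = 0 := by
    intro t ht
    have := hrel t⁻¹ (inv_ne_zero ht) j
    rw [inv_inv, hz, mul_zero] at this
    exact this.symm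
  have h8 : Tendsto (fun t => γ2 t j) (𝓝[≠] 0) (𝓝 (γ2 0 j)) :=
    (hd2.continuous.continuousAt.tendsto).mono_left nhdsWithin_le_nhds
  have h9 : Tendsto (fun t => γ2 t j) (𝓝[≠] 0) (𝓝 0) := by
    refine tendsto_const_nhds.congr' ?_
    filter_upwards [self_mem_nhdsWithin] with t ht
    exact (h7 t ht).symm
  exact tendsto_nhds_unique h8 h9

end Pool.Agent.Helper558_CP
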