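import Mathlib
import Pool.Agent.Helper558_CP.Poly
import Pool.Agent.Helper558_CP.Gamma
import Pool.Agent.Helper558_CP.Defs

/-!
# Lines in one factor and nefness
-/

open MvPolynomial

namespace Pool.Agent.Helper558_CP

variable {V : Type} [Fintype V] {k : ℕ} {ι : Type}

/-- Scaling of derivatives. -/
theorem MH.deriv_scale {g : V → Fin k} {f : MvPolynomial V ℂ} {δ : Fin k → ℕ} (h : MH g f δ)
    (c : Fin k → ℂ) (z : V → ℂ) (v : V) :
    c (g v) * eval (fun w => c (g w) * z w) (MvPolynomial.pderiv v f) =
      (∏ i, c i ^ δ i) * eval z (MvPolynomial.pderiv v f) := by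
  classical
  rw [eval_eq', eval_eq', Finset.mul_sum, Finset.mul_sum]
  refine Finset.sum_congr rfl fun d hd => ?_
  have h0 := mem_support_iff.mp hd
  rw [coeff_pderiv] at h0
  have h1 := h _ (left_ne_zero_of_mul h0)
  rw [mdeg_add, mdeg_single] at h1
  have h2 : ∏ i, c i ^ δ i = (∏ i, c i ^ mdeg g d i) * c (g v) := by
    rw [← h1]
    simp only [Pi.add_apply, pow_add, Finset.prod_mul_distrib]
    congr 1
    rw [Finset.prod_eq_single (g v)]
    · simp
    · intro b _ hb
      simp [hb]
    · simp
  rw [h2, ← prod_group]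
  simp_rw [mul_pow]
  rw [Finset.prod_mul_distrib]
  ring

/-- The points of the plane spanned by a line in one factor. -/
def pt (g : V → Fin k) (z v : V → ℂ) (l : Fin k → ℂ) (t : ℂ) (w : V) : ℂ := l (g w) * z w + t * v w

/-- The closed set of points on a line. -/
def lineSet (g : V → Fin k) (z v : V → ℂ) : Set (V → ℂ) :=
  {y | Rel g y ∧ ∃ l t, y = pt g z v l t}

theorem lineSet_closed [DecidableEq V] (g : V → Fin k) (z v : V → ℂ) (b : Fin k → V)
    (hb : ∀ l, g (b l) = l) (hbz : ∀ l, z (b l) ≠ 0) (i : Fin k) (hv : ∀ w, g w ≠ i → v w = 0)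
    (hvb : v (b i) = 0) (w1 : V) (hw1 : g w1 = i) (hvw1 : v w1 ≠ 0) :
    IsClosedSet g (lineSet g z v) := by
  refine ⟨{f | ∃ (l : Fin k) (c : V → ℂ), (∀ w, g w ≠ l → c w = 0) ∧ f = ∑ w, C (c w) * X w ∧
    ∑ w, c w * z w = 0 ∧ ∑ w, c w * v w = 0}, ?_, ?_⟩
  · rintro f ⟨l, c, hc, rfl, _, _⟩
    refine ⟨Pi.single l 1, ?_⟩
    intro d hd
    rw [coeff_sum] at hd
    obtain ⟨w, _, hw⟩ := Finset.exists_ne_zero_of_sum_ne_zero hd
    rw [coeff_C_mul, coeff_X] at hw
    split_ifs at hw with h
    · rw [← h, mdeg_single]
      have : g w = l := by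
        by_contra h2
        apply hw
        rw [hc w h2, zero_mul]
      rw [this]
    · simp at hw
  · ext y
    constructor
    · rintro ⟨hy, l, t, rfl⟩
      refine ⟨hy, ?_⟩
      rintro f ⟨m, c, hc, rfl, h1, h2⟩
      rw [map_sum]
      simp only [map_mul, eval_C, eval_X, pt]
      have : ∀ w, c w * (l (g w) * z w + t * v w) = l m * (c w * z w) + t * (c w * v w) := by
        intro w
        by_cases h : g w = m
        · rw [h]; ring
        · rw [hc w h]; ring
      simp_rw [this]
      rw [Finset.sum_add_distrib, ← Finset.mul_sum, ← Finset.mul_sum, h1, h2]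
      ring
    · rintro ⟨hy, hT⟩
      refine ⟨hy, ?_⟩
      let l : Fin k → ℂ := fun m => y (b m) / z (b m)
      let t : ℂ := (y w1 - l i * z w1) / v w1
      refine ⟨l, t, ?_⟩
      have hlin : ∀ (c : V → ℂ) (m : Fin k), (∀ w, g w ≠ m → c w = 0) → ∑ w, c w * z w = 0 →
          ∑ w, c w * v w = 0 → ∑ w, c w * y w = 0 := by
        intro c m h1 h2 h3
        have := hT (∑ w, C (c w) * X w) ⟨m, c, h1, rfl, h2, h3⟩
        rw [map_sum] at this
        simpa using this
      funext w
      by_cases hw : g w = i
      · -- in the group of the line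
        let β : ℂ := v w / v w1
        let α : ℂ := (z w - β * z w1) / z (b i)
        have h1 := hlin (fun x => (Pi.single w 1 : V → ℂ) x - α * (Pi.single (b i) 1 : V → ℂ) x
          - β * (Pi.single w1 1 : V → ℂ) x) i
          (by
            intro x hx
            have h1 : x ≠ w := fun h => hx (h ▸ hw)
            have h2 : x ≠ b i := fun h => hx (h ▸ hb i)
            have h3 : x ≠ w1 := fun h => hx (h ▸ hw1)
            simp [h1, h2, h3])
        have hsum : ∀ q : V → ℂ, ∑ x, ((Pi.single w 1 : V → ℂ) x - α * (Pi.single (b i) 1 : V → ℂ) x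
          - β * (Pi.single w1 1 : V → ℂ) x) * q x = q w - α * q (b i) - β * q w1 := by
          intro q
          simp only [sub_mul, Finset.sum_sub_distrib, Pi.single_apply, mul_ite, mul_one, mul_zero,
            ite_mul, zero_mul, one_mul, Finset.sum_ite_eq', Finset.mem_univ, if_true]
        rw [hsum, hsum, hsum] at h1
        have hz : z (b i) ≠ 0 := hbz i
        have h2 := h1 (by simp only [α]; field_simp; ring) (by simp only [β]; rw [hvb]; field_simp; ring)
        simp only [pt, l, t, hw]
        simp only [α, β] at h2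
        field_simp
        field_simp at h2
        linear_combination h2
      · have h1 := hlin (fun x => z (b (g w)) * (Pi.single w 1 : V → ℂ) x
          - z w * (Pi.single (b (g w)) 1 : V → ℂ) x) (g w)
          (by
            intro x hx
            have h1 : x ≠ w := fun h => hx (h ▸ rfl)
            have h2 : x ≠ b (g w) := fun h => hx (h ▸ hb _)
            simp [h1, h2])
        have hsum : ∀ q : V → ℂ, ∑ x, (z (b (g w)) * (Pi.single w 1 : V → ℂ) x
          - z w * (Pi.single (b (g w)) 1 : V → ℂ) x) * q x =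
            z (b (g w)) * q w - z w * q (b (g w)) := by
          intro q
          simp only [sub_mul, Finset.sum_sub_distrib, Pi.single_apply, mul_ite, mul_one, mul_zero,
            ite_mul, zero_mul, Finset.sum_ite_eq', Finset.mem_univ, if_true]
        rw [hsum, hsum, hsum] at h1
        have hz : z (b (g w)) ≠ 0 := hbz _
        have h2 := h1 (by ring) (by rw [hv w hw, hv (b (g w)) (by rw [hb]; exact hw)]; ring)
        simp only [pt, l, hv w hw]
        field_simp
        linear_combination h2

end Pool.Agent.Helper558_CP
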