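import Mathlib
import Pool.Agent.Helper558_CP.Line

/-!
# Nefness of the tangent bundle and independence of partial gradients
-/

open MvPolynomial

namespace Pool.Agent.Helper558_CP

variable {V : Type} [Fintype V] {k : ℕ} {ι : Type}

/-- The universal point of the plane spanned by a line. -/
noncomputable def upt (g : V → Fin k) (z v : V → ℂ) :
    MvPolynomial V ℂ →ₐ[ℂ] MvPolynomial (Option (Fin k)) ℂ :=
  aeval (fun w => C (z w) * X (some (g w)) + C (v w) * X none)

omit [Fintype V] in
theorem eval_upt (g : V → Fin k) (z v : V → ℂ) (q : Option (Fin k) → ℂ) (f : MvPolynomial V ℂ) :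
    eval q (upt g z v f) = eval (pt g z v (fun l => q (some l)) (q none)) f := by
  have : (aeval q : MvPolynomial (Option (Fin k)) ℂ →ₐ[ℂ] ℂ).comp (upt g z v) =
      aeval (pt g z v (fun l => q (some l)) (q none)) := by
    apply algHom_ext
    intro w
    simp only [upt, AlgHom.comp_apply, aeval_X, map_add, map_mul, algHom_C, pt]
    simp only [Algebra.algebraMap_self, RingHom.id_apply]
    ring
  have h2 := AlgHom.congr_fun this f
  simpa [aeval_eq_eval] using h2

theorem lineSet_irred [DecidableEq V] (g : V → Fin k) (z v : V → ℂ) (b : Fin k → V)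
    (hb : ∀ l, g (b l) = l) (hbz : ∀ l, z (b l) ≠ 0) (i : Fin k) (hv : ∀ w, g w ≠ i → v w = 0)
    (hvb : v (b i) = 0) (w1 : V) (hw1 : g w1 = i) (hvw1 : v w1 ≠ 0) :
    IsIrred g (lineSet g z v) := by
  have hvb' : ∀ l, v (b l) = 0 := by
    intro l
    by_cases h : l = i
    · rw [h]; exact hvb
    · exact hv _ (by rw [hb]; exact h)
  refine ⟨lineSet_closed g z v b hb hbz i hv hvb w1 hw1 hvw1, ⟨z, ?_, fun _ => 1, 0, ?_⟩, ?_⟩
  · exact fun l => ⟨b l, hb l, hbz l⟩
  · funext w; simp [pt]
  · rintro A B ⟨TA, _, rfl⟩ ⟨TB, _, rfl⟩ hAB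
    by_contra hcon
    push Not at hcon
    obtain ⟨hA, hB⟩ := hcon
    rw [Set.not_subset] at hA hB
    obtain ⟨p, ⟨hp, lp, tp, hpe⟩, hpA⟩ := hA
    obtain ⟨q, ⟨hq, lq, tq, hqe⟩, hqB⟩ := hB
    have h1 : ∃ f ∈ TA, eval p f ≠ 0 := by
      by_contra h
      push Not at h
      exact hpA ⟨hp, h⟩
    have h2 : ∃ f ∈ TB, eval q f ≠ 0 := by
      by_contra h
      push Not at h
      exact hqB ⟨hq, h⟩
    obtain ⟨f1, hf1, hf1p⟩ := h1
    obtain ⟨f2, hf2, hf2q⟩ := h2
    have h3 : upt g z v f1 ≠ 0 := by
      intro h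
      apply hf1p
      have := eval_upt g z v (fun o => o.elim tp lp) f1
      rw [h, map_zero] at this
      rw [hpe]
      exact this.symm
    have h4 : upt g z v f2 ≠ 0 := by
      intro h
      apply hf2q
      have := eval_upt g z v (fun o => o.elim tq lq) f2
      rw [h, map_zero] at this
      rw [hqe]
      exact this.symm
    have h5 : (∏ l, X (some l) : MvPolynomial (Option (Fin k)) ℂ) ≠ 0 :=
      Finset.prod_ne_zero_iff.2 fun l _ => X_ne_zero _
    have h6 : upt g z v f1 * upt g z v f2 * ∏ l, X (some l) ≠ 0 :=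
      mul_ne_zero (mul_ne_zero h3 h4) h5
    have h7 : ∃ x, eval x (upt g z v f1 * upt g z v f2 * ∏ l, X (some l)) ≠ 0 := by
      by_contra h
      push Not at h
      exact h6 (MvPolynomial.funext fun x => by rw [h x, map_zero])
    obtain ⟨x, hx⟩ := h7
    rw [map_mul, map_mul, map_prod, eval_upt, eval_upt] at hx
    have hx1 := left_ne_zero_of_mul (left_ne_zero_of_mul hx)
    have hx2 := right_ne_zero_of_mul (left_ne_zero_of_mul hx)
    have hx3 := right_ne_zero_of_mul hx
    have hx4 : ∀ l, x (some l) ≠ 0 := by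
      intro l
      have := Finset.prod_ne_zero_iff.1 hx3 l (Finset.mem_univ _)
      simpa using this
    have hrel : Rel g (pt g z v (fun l => x (some l)) (x none)) := by
      intro l
      refine ⟨b l, hb l, ?_⟩
      simp only [pt, hb, hvb', mul_zero, add_zero]
      exact mul_ne_zero (hx4 l) (hbz l)
    rcases hAB ⟨hrel, _, _, rfl⟩ with h | h
    · exact hx1 (h.2 f1 hf1)
    · exact hx2 (h.2 f2 hf2)

/-- A line on which all equations vanish. -/
theorem lineSet_subset [DecidableEq V] (g : V → Fin k) (F : ι → MvPolynomial V ℂ) (d : ι → Fin k → ℕ)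
    (hF : ∀ j, MH g (F j) (d j)) (z v : V → ℂ) (i : Fin k) (hv : ∀ w, g w ≠ i → v w = 0)
    (hline : ∀ j t, eval (fun w => z w + t * v w) (F j) = 0) :
    lineSet g z v ⊆ zeros g F := by
  rintro y ⟨hy, l, t, rfl⟩
  refine ⟨hy, fun j => ?_⟩
  have hl : ∀ m, m ≠ i → l m ≠ 0 := by
    intro m hm h0
    obtain ⟨w, hw, hw2⟩ := hy m
    apply hw2
    simp only [pt, hw, h0, zero_mul, zero_add]
    rw [hv w (by rw [hw]; exact hm), mul_zero]
  have h1 : ∀ s : ℂ, s ≠ 0 → eval (pt g z v (Function.update l i s) t) (F j) = 0 := by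
    intro s hs
    have h2 : pt g z v (Function.update l i s) t =
        fun w => (Function.update l i s) (g w) * (z w + (t / s) * v w) := by
      funext w
      simp only [pt]
      by_cases h : g w = i
      · rw [h, Function.update_self]
        field_simp
      · rw [hv w h]
        ring
    rw [h2, (hF j).eval_scale, hline, mul_zero]
  have h2 : Continuous fun s : ℂ => eval (pt g z v (Function.update l i s) t) (F j) := by
    apply (MvPolynomial.continuous_eval (F j)).comp
    apply continuous_pi
    intro w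
    simp only [pt]
    apply Continuous.add _ continuous_const
    apply Continuous.mul _ continuous_const
    by_cases h : g w = i
    · rw [h]
      simp only [Function.update_self]
      exact continuous_id
    · simp only [Function.update_of_ne h]
      exact continuous_const
  have h3 : (fun s : ℂ => eval (pt g z v (Function.update l i s) t) (F j)) = fun _ => 0 := by
    apply Continuous.ext_on (dense_compl_singleton (0 : ℂ)) h2 continuous_const
    intro s hs
    exact h1 s hs
  have h4 := congrFun h3 (l i)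
  simpa using h4

end Pool.Agent.Helper558_CP
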