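import Mathlib
import Pool.Agent.Helper558_CP.Rows

/-!
# Independence of the partial gradients
-/

open MvPolynomial

namespace Pool.Agent.Helper558_CP

variable {V : Type} [Fintype V] {k : ℕ} {ι : Type}

/-- A line in one factor, through a point at which the partial gradients are dependent. -/
theorem exists_line [DecidableEq V] [Fintype ι] (g : V → Fin k) (F : ι → MvPolynomial V ℂ)
    (d : ι → Fin k → ℕ) (hF : ∀ j, MH g (F j) (d j)) (i : Fin k)
    (hcard : ∑ j, d j i < Fintype.card {w // g w = i}) (z : V → ℂ) (hz : ∀ j, eval z (F j) = 0)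
    (b : V) (hb : g b = i) (c : ι → ℂ) (hc : ∀ j, d j i = 0 → c j = 0)
    (hrel : ∀ w, g w = i → ∑ j, c j * eval z (pderiv w (F j)) = 0) (j0 : ι) (hj0 : c j0 ≠ 0) :
    ∃ v : V → ℂ, (∀ w, g w ≠ i → v w = 0) ∧ v b = 0 ∧ (∃ w1, g w1 = i ∧ v w1 ≠ 0) ∧
      ∀ j t, eval (fun w => z w + t * v w) (F j) = 0 := by
  classical
  have hd0 : d j0 i ≠ 0 := fun h => hj0 (hc _ h)
  let H : (Σ j : ι, Fin (d j i)) → MvPolynomial {w // g w = i} ℂ := fun x =>
    if x.1 = j0 ∧ x.2.1 = 0 then X ⟨b, hb⟩ else homogeneousComponent (x.2.1 + 1) (shiftP g i z (F x.1))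
  obtain ⟨u, hu, hu0⟩ := exists_nonzero H (fun x => x.2.1 + 1)
    (by
      rintro ⟨j, m⟩
      simp only [H]
      split_ifs with h
      · rw [h.2]
        exact isHomogeneous_X _ _
      · exact homogeneousComponent_isHomogeneous _ _)
    (fun x => Nat.succ_ne_zero _)
    (by rw [Fintype.card_sigma]; simpa using hcard)
  have hub : u ⟨b, hb⟩ = 0 := by
    have := hu0 ⟨j0, ⟨0, Nat.pos_of_ne_zero hd0⟩⟩
    simpa [H] using this
  have hcomp : ∀ j, ∀ m, m < d j i → ¬ (j = j0 ∧ m = 0) →
      eval u (homogeneousComponent (m + 1) (shiftP g i z (F j))) = 0 := by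
    intro j m hm hne
    have := hu0 ⟨j, ⟨m, hm⟩⟩
    simp only [H] at this
    rwa [if_neg hne] at this
  have hcomp0 : eval u (homogeneousComponent 1 (shiftP g i z (F j0))) = 0 := by
    have h1 : ∑ j, c j * eval u (homogeneousComponent 1 (shiftP g i z (F j))) = 0 := by
      have h2 : ∀ j, c j * eval u (homogeneousComponent 1 (shiftP g i z (F j))) =
          ∑ w, (c j * eval z (pderiv w (F j))) * ext0 g i u w := by
        intro j
        by_cases hj : d j i = 0
        · rw [hc j hj]; simp
        · rw [eval_linear (hF j) i hj, Finset.mul_sum]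
          refine Finset.sum_congr rfl fun w _ => ?_
          ring
      simp_rw [h2]
      rw [Finset.sum_comm]
      apply Finset.sum_eq_zero
      intro w _
      rw [← Finset.sum_mul]
      by_cases hw : g w = i
      · rw [hrel w hw, zero_mul]
      · simp [ext0, hw]
    rw [Finset.sum_eq_single j0] at h1
    · exact (mul_eq_zero.1 h1).resolve_left hj0
    · intro j _ hj
      by_cases hd : d j i = 0
      · rw [hc j hd, zero_mul]
      · rw [hcomp j 0 (Nat.pos_of_ne_zero hd) (fun h => hj h.1), mul_zero]
    · simp
  refine ⟨ext0 g i u, ?_, ?_, ?_, ?_⟩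
  · intro w hw
    simp [ext0, hw]
  · simp [ext0, hb, hub]
  · by_contra hcon
    push Not at hcon
    apply hu
    funext w
    have := hcon w.1 w.2
    simpa [ext0, w.2] using this
  · intro j t
    have h1 : ∀ s : ℂ, eval (fun w => z w + s * ext0 g i u w) (F j) =
        eval u (homogeneousComponent 0 (shiftP g i z (F j))) := by
      intro s
      rw [eval_line (hF j), Finset.sum_range_succ']
      have h2 : ∑ m ∈ Finset.range (d j i), s ^ (m + 1) *
          eval u (homogeneousComponent (m + 1) (shiftP g i z (F j))) = 0 := by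
        apply Finset.sum_eq_zero
        intro m hm
        rw [Finset.mem_range] at hm
        by_cases h : j = j0 ∧ m = 0
        · rw [h.1, h.2, zero_add, hcomp0, mul_zero]
        · rw [hcomp j m hm h, mul_zero]
      rw [h2]
      simp
    have h3 := h1 0
    simp only [zero_mul, add_zero] at h3
    rw [h1 t, ← h3]
    exact hz j

/-- If the tangent bundle is nef, the partial gradients with respect to the coordinates of one
factor are independent. -/
theorem rows_indep [DecidableEq V] [Fintype ι] (g : V → Fin k) (F : ι → MvPolynomial V ℂ)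
    (d : ι → Fin k → ℕ) (hF : ∀ j, MH g (F j) (d j)) (hsm : SmoothCI g F) (hnef : NefTangent g F)
    (i : Fin k) (hcard : ∑ j, d j i < Fintype.card {w // g w = i}) (z : V → ℂ) (hz : z ∈ zeros g F)
    (c : ι → ℂ) (hc : ∀ j, d j i = 0 → c j = 0)
    (hrel : ∀ w, g w = i → ∑ j, c j * eval z (pderiv w (F j)) = 0) : ∀ j, c j = 0 := by
  classical
  by_contra hcon
  push Not at hcon
  obtain ⟨j0, hj0⟩ := hcon
  choose b hb hbz using hz.1
  obtain ⟨v, hv, hvb, ⟨w1, hw1, hvw1⟩, hline⟩ := exists_line g F d hF i hcard z hz.2 (b i) (hb i) c hc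
    hrel j0 hj0
  have hvb' : ∀ l, v (b l) = 0 := by
    intro l
    by_cases h : l = i
    · rw [h]; exact hvb
    · exact hv _ (by rw [hb]; exact h)
  have hirr := lineSet_irred g z v b hb hbz i hv hvb w1 hw1 hvw1
  have hsub := lineSet_subset g F d hF z v i hv hline
  let η : V → ℂ := fun w => ∑ j, c j * eval z (pderiv w (F j))
  have hηi : ∀ w, g w = i → η w = 0 := hrel
  have hηE : ∀ l, ∑ w, (if g w = l then η w * z w else 0) = 0 := by
    intro l
    have h1 : ∀ w, (if g w = l then η w * z w else 0) =
        ∑ j, c j * (if g w = l then z w * eval z (pderiv w (F j)) else 0) := by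
      intro w
      split_ifs with h
      · simp only [η, Finset.sum_mul]
        refine Finset.sum_congr rfl fun j _ => ?_
        ring
      · simp
    simp_rw [h1]
    rw [Finset.sum_comm]
    apply Finset.sum_eq_zero
    intro j _
    rw [← Finset.mul_sum, (hF j).euler, hz.2 j, mul_zero, mul_zero]
  -- coordinates of points of the line
  have hcoord : ∀ y ∈ lineSet g z v, ∀ l, l ≠ i → y (b l) ≠ 0 ∧
      ∀ w, g w = l → y w * z (b l) = z w * y (b l) := by
    rintro y ⟨hy, l', t, rfl⟩ l hl
    have h1 : ∀ w, g w = l → pt g z v l' t w = l' l * z w := by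
      intro w hw
      simp only [pt, hw]
      rw [hv w (by rw [hw]; exact hl)]
      ring
    have hne : l' l ≠ 0 := by
      intro h0
      obtain ⟨w, hw, hw2⟩ := hy l
      apply hw2
      rw [h1 w hw, h0, zero_mul]
    refine ⟨?_, ?_⟩
    · rw [h1 _ (hb l)]
      exact mul_ne_zero hne (hbz l)
    · intro w hw
      rw [h1 w hw, h1 _ (hb l)]
      ring
  let Φ : (V → ℂ) → (V → ℂ) → ℂ := fun y w => ∑ x, η x * w x * (z (b (g x)) / y (b (g x)))
  have hform : IsSymForm g F (lineSet g z v) 1 Φ := by
    refine ⟨?_, ?_, ?_, ?_⟩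
    · intro z0 hz0
      refine ⟨∑ x, (if g x = i then 0 else C (η x * z (b (g x))) * X (Sum.inr x) *
        ∏ l ∈ (Finset.univ.erase i).erase (g x), X (Sum.inl (b l))),
        ∏ l ∈ Finset.univ.erase i, X (b l), ?_, ?_⟩
      · rw [map_prod]
        apply Finset.prod_ne_zero_iff.2
        intro l hl
        rw [eval_X]
        exact (hcoord z0 hz0 l (Finset.ne_of_mem_erase hl)).1
      · intro y hy _ w _
        simp only [Φ]
        rw [map_sum, Finset.sum_mul]
        refine Finset.sum_congr rfl fun x _ => ?_
        by_cases hx : g x = i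
        · rw [if_pos hx, hηi x hx]; simp
        · rw [if_neg hx]
          simp only [map_mul, map_prod, eval_C, eval_X, Sum.elim_inl, Sum.elim_inr]
          have hmem : g x ∈ Finset.univ.erase i := Finset.mem_erase.2 ⟨hx, Finset.mem_univ _⟩
          rw [← Finset.mul_prod_erase _ _ hmem]
          have h1 := (hcoord y hy (g x) hx).1
          field_simp
    · intro y _ w _ a
      simp only [Φ]
      rw [Finset.mul_sum]
      refine Finset.sum_congr rfl fun x _ => ?_
      ring
    · intro y hy w _ a
      simp only [Φ]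
      have h1 : ∀ x, η x * (w x + a (g x) * y x) * (z (b (g x)) / y (b (g x))) =
          η x * w x * (z (b (g x)) / y (b (g x))) + a (g x) * (η x * z x) := by
        intro x
        by_cases hx : g x = i
        · rw [hηi x hx]; ring
        · have h2 := (hcoord y hy (g x) hx).1
          have h3 := (hcoord y hy (g x) hx).2 x rfl
          have h4 : y x * (z (b (g x)) / y (b (g x))) = z x := by
            rw [← mul_div_assoc, h3, mul_div_cancel_right₀ _ h2]
          linear_combination (η x * a (g x)) * h4
      simp_rw [h1]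
      rw [Finset.sum_add_distrib]
      have h5 : ∑ x, a (g x) * (η x * z x) = 0 := by
        have h6 : ∀ x, a (g x) * (η x * z x) = ∑ l, a l * (if g x = l then η x * z x else 0) := by
          intro x
          simp
        simp_rw [h6]
        rw [Finset.sum_comm]
        apply Finset.sum_eq_zero
        intro l _
        rw [← Finset.mul_sum, hηE, mul_zero]
      rw [h5, add_zero]
    · intro y hy w _ a ha
      simp only [Φ]
      refine Finset.sum_congr rfl fun x _ => ?_
      rw [hb]
      by_cases hx : g x = i
      · rw [hηi x hx]; ring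
      · have h2 := (hcoord y hy (g x) hx).1
        have h3 := ha (g x)
        field_simp
  have hΦ0 : ∀ w ∈ tangent F z, Φ z w = 0 := by
    intro w hw
    simp only [Φ]
    have h1 : ∀ x, η x * w x * (z (b (g x)) / z (b (g x))) =
        ∑ j, c j * (eval z (pderiv x (F j)) * w x) := by
      intro x
      rw [div_self (hbz _), mul_one]
      simp only [η, Finset.sum_mul]
      refine Finset.sum_congr rfl fun j _ => ?_
      ring
    simp_rw [h1]
    rw [Finset.sum_comm]
    apply Finset.sum_eq_zero
    intro j _
    rw [← Finset.mul_sum, hw j, mul_zero]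
  have hzmem : z ∈ lineSet g z v := ⟨hz.1, fun _ => 1, 0, by funext w; simp [pt]⟩
  have hall := hnef _ hirr hsub 1 Φ le_rfl hform ⟨z, hzmem, hΦ0⟩
  -- the points p(s,t)
  let lam : ℂ → Fin k → ℂ := fun s l => if l = i then s else 1
  have hpmem : ∀ s t : ℂ, (s ≠ 0 ∨ t ≠ 0) → pt g z v (lam s) t ∈ lineSet g z v := by
    intro s t hst
    refine ⟨?_, _, _, rfl⟩
    intro l
    by_cases hl : l = i
    · by_cases hs : s = 0
      · refine ⟨w1, by rw [hw1, hl], ?_⟩
        have ht := hst.resolve_left (fun h => h hs)
        simp only [pt, lam, hw1, if_true, hs, zero_mul, zero_add]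
        exact mul_ne_zero ht hvw1
      · refine ⟨b l, hb l, ?_⟩
        simp only [pt, lam, hb, hvb', mul_zero, add_zero, hl, if_true]
        exact mul_ne_zero hs (hbz _)
    · refine ⟨b l, hb l, ?_⟩
      simp only [pt, lam, hb, hvb', mul_zero, add_zero, if_neg hl, one_mul]
      exact hbz _
  have hspan : ∀ s t : ℂ, (s ≠ 0 ∨ t ≠ 0) → ∃ γ : ι → ℂ, ∀ w,
      ∑ j, γ j * eval (pt g z v (lam s) t) (pderiv w (F j)) = η w := by
    intro s t hst
    set y := pt g z v (lam s) t with hy
    let L : ι → (V → ℂ) →ₗ[ℂ] ℂ := fun j =>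
      ∑ x, (eval y (pderiv x (F j))) • LinearMap.proj x
    let K : (V → ℂ) →ₗ[ℂ] ℂ := ∑ x, (η x) • LinearMap.proj x
    have hL : ∀ j w, L j w = ∑ x, eval y (pderiv x (F j)) * w x := by
      intro j w
      simp [L]
    have hK : ∀ w, K w = ∑ x, η x * w x := by
      intro w
      simp [K]
    have hle : ⨅ j, LinearMap.ker (L j) ≤ LinearMap.ker K := by
      intro w hw
      rw [Submodule.mem_iInf] at hw
      rw [LinearMap.mem_ker, hK]
      have h1 : w ∈ tangent F y := by
        intro j
        have := hw j
        rw [LinearMap.mem_ker, hL] at this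
        exact this
      have h2 := hall y (hpmem s t hst) w h1
      simp only [Φ] at h2
      rw [← h2]
      refine Finset.sum_congr rfl fun x _ => ?_
      by_cases hx : g x = i
      · rw [hηi x hx]; ring
      · have h3 : y (b (g x)) = z (b (g x)) := by
          rw [hy]
          simp only [pt, lam, hb, hvb', mul_zero, add_zero, if_neg hx, one_mul]
        rw [h3, div_self (hbz _), mul_one]
    have h4 := mem_span_of_iInf_ker_le_ker hle
    rw [Submodule.mem_span_range_iff_exists_fun] at h4
    obtain ⟨γ, hγ⟩ := h4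
    refine ⟨γ, fun w => ?_⟩
    have h5 := LinearMap.congr_fun hγ (Pi.single w 1)
    rw [hK] at h5
    simp only [LinearMap.sum_apply, LinearMap.smul_apply, smul_eq_mul, hL] at h5
    simpa [Pi.single_apply] using h5
  have hind : ∀ s t : ℂ, (s ≠ 0 ∨ t ≠ 0) → LinearIndependent ℂ
      (fun j => fun w => eval (pt g z v (lam s) t) (pderiv w (F j))) := by
    intro s t hst
    exact hsm _ (hsub (hpmem s t hst))
  choose! γ hγ using hspan
  let D1 : ι → V → Polynomial ℂ := fun j w =>
    aeval (fun x => Polynomial.C (z x) * (if g x = i then Polynomial.X else 1) + Polynomial.C (v x))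
      (pderiv w (F j))
  let D2 : ι → V → Polynomial ℂ := fun j w =>
    aeval (fun x => Polynomial.C (z x) + Polynomial.C (v x) * Polynomial.X) (pderiv w (F j))
  have hD1 : ∀ s j w, (D1 j w).eval s = eval (pt g z v (lam s) 1) (pderiv w (F j)) := by
    intro s j w
    have : (Polynomial.aeval s : Polynomial ℂ →ₐ[ℂ] ℂ).comp
        (aeval (fun x => Polynomial.C (z x) * (if g x = i then Polynomial.X else 1) +
          Polynomial.C (v x))) = aeval (pt g z v (lam s) 1) := by
      apply algHom_ext
      intro x
      simp only [AlgHom.comp_apply, aeval_X, Polynomial.coe_aeval_eq_eval, Polynomial.eval_add,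
        Polynomial.eval_mul, Polynomial.eval_C, pt, lam]
      split_ifs <;> simp <;> ring
    have h2 := AlgHom.congr_fun this (pderiv w (F j))
    simpa [aeval_eq_eval, Polynomial.coe_aeval_eq_eval, D1] using h2
  have hD2 : ∀ t j w, (D2 j w).eval t = eval (pt g z v (lam 1) t) (pderiv w (F j)) := by
    intro t j w
    have : (Polynomial.aeval t : Polynomial ℂ →ₐ[ℂ] ℂ).comp
        (aeval (fun x => Polynomial.C (z x) + Polynomial.C (v x) * Polynomial.X)) =
        aeval (pt g z v (lam 1) t) := by
      apply algHom_ext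
      intro x
      simp only [AlgHom.comp_apply, aeval_X, Polynomial.coe_aeval_eq_eval, Polynomial.eval_add,
        Polynomial.eval_mul, Polynomial.eval_C, Polynomial.eval_X, pt, lam]
      split_ifs <;> ring
    have h2 := AlgHom.congr_fun this (pderiv w (F j))
    simpa [aeval_eq_eval, Polynomial.coe_aeval_eq_eval, D2] using h2
  have hfin : γ 1 0 j0 = 0 := by
    refine gamma_zero D1 D2 η (fun s => γ s 1) (fun t => γ 1 t) (fun j => d j i) ?_ ?_ ?_ ?_ ?_ j0
      (fun h => hj0 (hc _ h))
    · intro s w
      simp_rw [hD1]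
      exact hγ s 1 (Or.inr one_ne_zero) w
    · intro s
      simp_rw [hD1]
      exact hind s 1 (Or.inr one_ne_zero)
    · intro t w
      simp_rw [hD2]
      exact hγ 1 t (Or.inl one_ne_zero) w
    · intro t
      simp_rw [hD2]
      exact hind 1 t (Or.inl one_ne_zero)
    · intro s hs j
      have h1 := Fintype.linearIndependent_iff.1 (hind 1 s⁻¹ (Or.inl one_ne_zero))
        (fun j => s ^ d j i * γ s 1 j - γ 1 s⁻¹ j)
      have h2 := h1 (by
        funext w
        rw [Finset.sum_apply]
        simp only [Pi.smul_apply, smul_eq_mul, sub_mul, Finset.sum_sub_distrib]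
        rw [hγ 1 s⁻¹ (Or.inl one_ne_zero) w]
        have h3 : pt g z v (lam s) 1 = fun w => lam s (g w) * pt g z v (lam 1) s⁻¹ w := by
          funext x
          simp only [pt, lam]
          by_cases hx : g x = i
          · simp only [if_pos hx]
            field_simp
          · simp only [if_neg hx]
            rw [hv x hx]
            ring
        have h4 : ∀ j, s ^ d j i * γ s 1 j * eval (pt g z v (lam 1) s⁻¹) (pderiv w (F j)) =
            lam s (g w) * (γ s 1 j * eval (pt g z v (lam s) 1) (pderiv w (F j))) := by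
          intro j
          have h5 := (hF j).deriv_scale (lam s) (pt g z v (lam 1) s⁻¹) w
          have h6 : ∏ l, lam s l ^ d j l = s ^ d j i := by
            rw [Finset.prod_eq_single i]
            · simp [lam]
            · intro l _ hl
              simp [lam, hl]
            · simp
          rw [h6, ← h3] at h5
          linear_combination (- γ s 1 j) * h5
        simp_rw [h4]
        rw [← Finset.mul_sum, hγ s 1 (Or.inr one_ne_zero) w]
        by_cases hw : g w = i
        · rw [hηi w hw]; simp
        · simp [lam, hw]) j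
      exact sub_eq_zero.1 h2
  apply hj0
  have h1 := Fintype.linearIndependent_iff.1 (hsm z hz) (fun j => γ 1 0 j - c j)
  have h2 := h1 (by
    funext w
    rw [Finset.sum_apply]
    simp only [Pi.smul_apply, smul_eq_mul, sub_mul, Finset.sum_sub_distrib]
    have h3 : pt g z v (lam 1) 0 = z := by
      funext x
      simp [pt, lam]
    have h4 := hγ 1 0 (Or.inl one_ne_zero) w
    rw [h3] at h4
    rw [h4]
    simp [η]) j0
  rw [hfin] at h2
  simpa using h2

end Pool.Agent.Helper558_CP
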