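import Mathlib
import Pool.Agent.Helper558_CP.Chain
import Pool.Agent.Helper558_CP.Indep

/-!
# Assembling the classification and the cellular decomposition
-/

open MvPolynomial

namespace Pool.Agent.Helper558_CP

variable {k : ℕ} {n : Fin k → ℕ} {ι : Type} [Fintype ι] [DecidableEq ι]

theorem card_group (n : Fin k → ℕ) (i : Fin k) :
    Fintype.card {w : (Σ i : Fin k, Fin (n i + 1)) // w.1 = i} = n i + 1 := by
  have h : Fintype.card {w : (Σ i : Fin k, Fin (n i + 1)) // w.1 = i} =
      Fintype.card (Fin (n i + 1)) := Fintype.card_congr (Equiv.sigmaSubtype i)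
  rw [h, Fintype.card_fin]

/-- Sums over the coordinates of one factor. -/
theorem sum_group (i : Fin k) (f : (Σ i : Fin k, Fin (n i + 1)) → ℂ) :
    ∑ v, (if v.1 = i then f v else 0) = ∑ a : Fin (n i + 1), f ⟨i, a⟩ := by
  rw [Fintype.sum_sigma, Finset.sum_eq_single i]
  · simp
  · intro b _ hb
    simp [hb]
  · simp

variable {F : ι → MvPolynomial (Σ i : Fin k, Fin (n i + 1)) ℂ} {d : ι → Fin k → ℕ}

theorem Datum.matrix (D : Datum Sigma.fst F d n) (j : ι) (i l : Fin k) (hil : i ≠ l)
    (hi : d j i ≠ 0) (hl : d j l ≠ 0) :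
    ∃ M : Matrix (Fin (n i + 1)) (Fin (n l + 1)) ℂ,
      (∃ N : Matrix (Fin (n l + 1)) (Fin (n i + 1)) ℂ, M * N = 1 ∧ N * M = 1) ∧
      F j = ∑ a, ∑ b, C (M a b) * X ⟨i, a⟩ * X ⟨l, b⟩ := by
  classical
  let M : Matrix (Fin (n i + 1)) (Fin (n l + 1)) ℂ := fun a b =>
    coeff (Finsupp.single ⟨l, b⟩ 1) (pderiv ⟨i, a⟩ (F j))
  have hev : ∀ (z : (Σ i : Fin k, Fin (n i + 1)) → ℂ) a, eval z (pderiv ⟨i, a⟩ (F j)) =
      ∑ b, M a b * z ⟨l, b⟩ := by
    intro z a
    have h1 := (D.deriv_deg j i l hil hi hl ⟨i, a⟩ rfl).eq_linF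
    conv_lhs => rw [h1]
    rw [eval_linF]
    exact sum_group l (fun v => coeff (Finsupp.single v 1) (pderiv ⟨i, a⟩ (F j)) * z v)
  have hdi : d j i = 1 := by
    rw [D.deg_eq j i l hil hi hl]
    simp [hil]
  refine ⟨M, ?_, ?_⟩
  · have hinj : Function.Injective (Matrix.mulVecLin M) := by
      rw [injective_iff_map_eq_zero]
      intro u hu
      by_contra hne
      have h1 : ∃ b, u b ≠ 0 := by
        by_contra hcon
        push Not at hcon
        exact hne (funext hcon)
      obtain ⟨b, hb⟩ := h1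
      let z : (Σ i : Fin k, Fin (n i + 1)) → ℂ := fun v =>
        if h : v.1 = l then u (Fin.cast (by rw [h]) v.2) else 0
      have hz : ∀ b, z ⟨l, b⟩ = u b := by
        intro b
        simp only [z, dif_pos]
        rfl
      obtain ⟨w, hw, hw2⟩ := D.inj j i l hil hi hl z ⟨l, b⟩ rfl (by rw [hz]; exact hb)
      obtain ⟨i', a⟩ := w
      simp only at hw
      subst hw
      apply hw2
      rw [hev]
      simp_rw [hz]
      have h2 := congrFun hu a
      rw [Matrix.mulVecLin_apply] at h2
      simpa [Matrix.mulVec, dotProduct] using h2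
    have hfr : Module.finrank ℂ (Fin (n l + 1) → ℂ) = Module.finrank ℂ (Fin (n i + 1) → ℂ) := by
      rw [Module.finrank_fin_fun, Module.finrank_fin_fun, D.dim_eq' j i l hil hi hl]
    let E := LinearEquiv.ofInjectiveOfFinrankEq (Matrix.mulVecLin M) hinj hfr
    have hE : E.toLinearMap = Matrix.mulVecLin M := by
      ext x
      rfl
    have hM : LinearMap.toMatrix' E.toLinearMap = M := by
      rw [hE, ← Matrix.toLin'_apply', LinearMap.toMatrix'_toLin']
    refine ⟨LinearMap.toMatrix' E.symm.toLinearMap, ?_, ?_⟩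
    · rw [← hM, ← LinearMap.toMatrix'_comp]
      have : E.toLinearMap ∘ₗ E.symm.toLinearMap = LinearMap.id := by
        ext x
        simp
      rw [this, LinearMap.toMatrix'_id]
    · rw [← hM, ← LinearMap.toMatrix'_comp]
      have : E.symm.toLinearMap ∘ₗ E.toLinearMap = LinearMap.id := by
        ext x
        simp
      rw [this, LinearMap.toMatrix'_id]
  · apply MvPolynomial.funext
    intro z
    have h1 := (D.hF j).euler i z
    rw [hdi, Nat.cast_one, one_mul, sum_group i (fun v => z v * eval z (pderiv v (F j)))] at h1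
    rw [← h1, map_sum]
    refine Finset.sum_congr rfl fun a _ => ?_
    rw [hev, map_sum, Finset.mul_sum]
    refine Finset.sum_congr rfl fun b _ => ?_
    simp only [map_mul, eval_C, eval_X]
    ring

theorem Datum.decomposition (D : Datum Sigma.fst F d n) (s t : ι → Fin k)
    (hst' : ∀ j, s j ≠ t j) (hs' : ∀ j, d j (s j) ≠ 0) (ht' : ∀ j, d j (t j) ≠ 0) :
    HasCellularDecomposition Sigma.fst (zeros Sigma.fst F) := by
  classical
  have hs : Function.Injective s := by
    intro j j' h
    by_contra hne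
    exact D.disjoint j j' hne (s j) (hs' j) (h ▸ hs' j')
  have ht : Function.Injective t := by
    intro j j' h
    by_contra hne
    exact D.disjoint j j' hne (t j) (ht' j) (h ▸ ht' j')
  have hst : ∀ j j', s j ≠ t j' := by
    intro j j' h
    by_cases hne : j = j'
    · subst hne
      exact hst' j h
    · exact D.disjoint j j' hne (s j) (hs' j) (h ▸ ht' j')
  have hn : ∀ j, n (s j) = n (t j) := fun j => D.dim_eq' j (s j) (t j) (hst' j) (hs' j) (ht' j)
  let q : ι → ℕ → (Σ i : Fin k, Fin (n i + 1)) := fun j c => ⟨s j, ⟨n (s j) - c, by omega⟩⟩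
  have hq : ∀ j (a : Fin (n (s j) + 1)), q j (n (s j) - a.val) = ⟨s j, a⟩ := by
    intro j a
    have h3 : (⟨n (s j) - (n (s j) - a.val), by omega⟩ : Fin (n (s j) + 1)) = a := by
      apply Fin.ext
      simp only
      omega
    simp only [q]
    rw [h3]
  let U : (Σ i : Fin k, Fin (n i + 1)) → MvPolynomial (Σ i : Fin k, Fin (n i + 1)) ℂ := fun v =>
    if h : ∃ j, v.1 = t j then pderiv (q h.choose v.2.val) (F h.choose) else X v
  have hUt : ∀ j v, v.1 = t j → U v = pderiv (q j v.2.val) (F j) := by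
    intro j v hv
    have h : ∃ j, v.1 = t j := ⟨j, hv⟩
    have h2 : h.choose = j := ht (h.choose_spec.symm.trans hv)
    simp only [U]
    rw [dif_pos h, h2]
  have hUn : ∀ v, (∀ j, v.1 ≠ t j) → U v = X v := by
    intro v hv
    simp only [U]
    rw [dif_neg]
    rintro ⟨j, hj⟩
    exact hv j hj
  apply has_decomposition F U (fun j => ⟨_, D.hF j⟩) _ _ s t hs hst hn
  · intro z j
    have h1 := (D.hF j).euler (s j) z
    have hdi : d j (s j) = 1 := by
      rw [D.deg_eq j (s j) (t j) (hst' j) (hs' j) (ht' j)]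
      simp [hst' j]
    rw [hdi, Nat.cast_one, one_mul, sum_group (s j) (fun v => z v * eval z (pderiv v (F j)))] at h1
    rw [← h1, Finset.sum_range]
    have h2 : ∀ a : Fin (n (s j) + 1), z ⟨s j, a⟩ * eval z (pderiv ⟨s j, a⟩ (F j)) =
        uu U z (s j) a.val * uu U z (t j) (n (s j) - a.val) := by
      intro a
      unfold uu
      rw [dif_pos a.2, dif_pos (by rw [← hn j]; omega), hUn _ (fun j' => hst j j'), eval_X,
        hUt j _ rfl]
      simp only
      rw [hq]
    simp_rw [h2]
  · intro v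
    by_cases hv : ∃ j, v.1 = t j
    · obtain ⟨j, hj⟩ := hv
      rw [hUt j v hj]
      have h1 := D.deriv_deg j (s j) (t j) (hst' j) (hs' j) (ht' j) (q j v.2.val) rfl
      rw [← hj] at h1
      exact h1
    · push Not at hv
      rw [hUn v hv]
      exact MH.X Sigma.fst v
  · intro z hz
    funext v
    by_cases hv : ∃ j, v.1 = t j
    · obtain ⟨j, hj⟩ := hv
      by_contra hne
      obtain ⟨w, hw, hw2⟩ := D.inj j (s j) (t j) (hst' j) (hs' j) (ht' j) z v hj hne
      apply hw2
      obtain ⟨i', a⟩ := w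
      simp only at hw
      subst hw
      have h1 := hz ⟨t j, ⟨n (s j) - a.val, by rw [← hn j]; omega⟩⟩
      rw [hUt j _ rfl] at h1
      simp only at h1
      rw [hq] at h1
      exact h1
    · push Not at hv
      have h1 := hz v
      rw [hUn v hv, eval_X] at h1
      exact h1

end Pool.Agent.Helper558_CP
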